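import Pool.Agent.NRX.Stmts

/-!
# Squad NRX: module BIN, elementary inequalities
-/

set_option autoImplicit false

namespace NRX

open MeasureTheory InnerProductSpace Laplacian Topology ENNReal
open Filter hiding ker
open Pool.Agent.Helper52.CKN

namespace BIN_

/-- nonnegative derivative -/
theorem nonneg_of_deriv {φ φ' : ℝ → ℝ} (h0 : φ 0 = 0)
    (hd : ∀ x ∈ Set.Icc (0 : ℝ) (1 / 2), HasDerivAt φ (φ' x) x)
    (hn : ∀ x ∈ Set.Icc (0 : ℝ) (1 / 2), 0 ≤ φ' x) {s : ℝ} (hs : s ∈ Set.Icc (0 : ℝ) (1 / 2)) :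
    0 ≤ φ s := by
  have hm : MonotoneOn φ (Set.Icc (0 : ℝ) (1 / 2)) := by
    apply monotoneOn_of_deriv_nonneg (convex_Icc 0 (1 / 2))
    · exact fun x hx => (hd x hx).continuousAt.continuousWithinAt
    · exact fun x hx => (hd x (interior_subset hx)).differentiableAt.differentiableWithinAt
    · intro x hx
      rw [(hd x (interior_subset hx)).deriv]
      exact hn x (interior_subset hx)
  have := hm (Set.left_mem_Icc.mpr (by norm_num)) hs hs.1
  rw [h0] at this
  exact this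

theorem exp_neg_le {x : ℝ} (hx : 0 ≤ x) : Real.exp (-x) ≤ 1 - x + x ^ 2 / 2 := by
  have h1 := Real.quadratic_le_exp_of_nonneg hx
  have h2 : 0 < 1 + x + x ^ 2 / 2 := by positivity
  rw [Real.exp_neg]
  calc (Real.exp x)⁻¹ ≤ (1 + x + x ^ 2 / 2)⁻¹ := inv_anti₀ h2 h1
    _ ≤ 1 - x + x ^ 2 / 2 := by
      rw [inv_le_iff_one_le_mul₀ h2]
      nlinarith [sq_nonneg (x ^ 2)]

theorem rpow_le_quad {a r : ℝ} (ha : 0 ≤ a) (hr0 : 0 ≤ r) (hr1 : r ≤ 1 / 2) :
    (1 - r) ^ a ≤ 1 - a * r + (a * r) ^ 2 / 2 := by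
  have h1 : 0 < 1 - r := by linarith
  have h2 : Real.log (1 - r) ≤ -r := by
    have := Real.log_le_sub_one_of_pos h1
    linarith
  rw [Real.rpow_def_of_pos h1]
  calc Real.exp (Real.log (1 - r) * a) ≤ Real.exp (-(a * r)) := by
        apply Real.exp_le_exp.mpr
        have := mul_le_mul_of_nonneg_right h2 ha
        linarith
    _ ≤ _ := exp_neg_le (mul_nonneg ha hr0)

theorem pos_part {q s : ℝ} (hq : 2 < q) (hs0 : 0 ≤ s) (hs1 : s ≤ 1 / 2) :
    1 + q * s + q * (q - 1) / 2 * s ^ 2 ≤ (1 + s) ^ q := by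
  have key := nonneg_of_deriv (φ := fun x => (1 + x) ^ q - (1 + q * x + q * (q - 1) / 2 * x ^ 2))
    (φ' := fun x => q * (1 + x) ^ (q - 1) - (q + q * (q - 1) * x)) (by simp) ?_ ?_
    (Set.mem_Icc.mpr ⟨hs0, hs1⟩)
  · linarith
  · intro x hx
    have h1 : HasDerivAt (fun x : ℝ => (1 + x) ^ q) (1 * q * (1 + x) ^ (q - 1)) x :=
      ((hasDerivAt_id x).const_add 1).rpow_const (Or.inl (by
        have := hx.1
        simp only [id]
        linarith))
    have h2 : HasDerivAt (fun x : ℝ => 1 + q * x + q * (q - 1) / 2 * x ^ 2)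
        (q * 1 + q * (q - 1) / 2 * (((2 : ℕ) : ℝ) * x ^ (2 - 1))) x :=
      (((hasDerivAt_id x).const_mul q).const_add 1).add ((hasDerivAt_pow 2 x).const_mul _)
    have h3 := h1.sub h2
    refine h3.congr_deriv ?_
    norm_num
    ring
  · intro x hx
    have h1 := one_add_mul_self_le_rpow_one_add (s := x) (p := q - 1) (by linarith [hx.1])
      (by linarith)
    have h2 := mul_le_mul_of_nonneg_left h1 (show 0 ≤ q by linarith)
    linarith

theorem neg_part {q r : ℝ} (hq : 2 < q) (hr0 : 0 ≤ r) (hr1 : r ≤ 1 / 2) :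
    1 - q * r + q * (q - 1) / 2 * r ^ 2 - q * (q - 1) ^ 2 / 6 * r ^ 3 ≤ (1 - r) ^ q := by
  have key := nonneg_of_deriv
    (φ := fun x => (1 - x) ^ q - (1 - q * x + q * (q - 1) / 2 * x ^ 2 - q * (q - 1) ^ 2 / 6 * x ^ 3))
    (φ' := fun x => -(q * (1 - x) ^ (q - 1)) - (-q + q * (q - 1) * x - q * (q - 1) ^ 2 / 2 * x ^ 2))
    (by simp) ?_ ?_ (Set.mem_Icc.mpr ⟨hr0, hr1⟩)
  · linarith
  · intro x hx
    have h1 : HasDerivAt (fun x : ℝ => (1 - x) ^ q) (-1 * q * (1 - x) ^ (q - 1)) x :=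
      ((hasDerivAt_id x).const_sub 1).rpow_const (Or.inl (by
        have := hx.2
        simp only [id]
        linarith))
    have h2 : HasDerivAt (fun x : ℝ => 1 - q * x + q * (q - 1) / 2 * x ^ 2 -
          q * (q - 1) ^ 2 / 6 * x ^ 3)
        (-(q * 1) + q * (q - 1) / 2 * (((2 : ℕ) : ℝ) * x ^ (2 - 1)) -
          q * (q - 1) ^ 2 / 6 * (((3 : ℕ) : ℝ) * x ^ (3 - 1))) x :=
      ((((hasDerivAt_id x).const_mul q).const_sub 1).add ((hasDerivAt_pow 2 x).const_mul _)).sub
        ((hasDerivAt_pow 3 x).const_mul _)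
    have h3 := h1.sub h2
    refine h3.congr_deriv ?_
    norm_num
    ring
  · intro x hx
    have h1 := rpow_le_quad (a := q - 1) (r := x) (by linarith) hx.1 hx.2
    have h2 := mul_le_mul_of_nonneg_left h1 (show 0 ≤ q by linarith)
    nlinarith

theorem small {p s : ℝ} (hp : 0 < p) (hp1 : p < 1) (hs : |s| ≤ 1 / 2) :
    1 + p * s - 1 * s ^ 2 ≤ (1 + s) ^ p := by
  have hs1 := neg_abs_le s
  have h1 : 0 < 1 + s := by linarith
  have hb := rpow_one_add_le_one_add_mul_self (s := s) (p := 1 - p) (by linarith) (by linarith)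
    (by linarith)
  have hprod : (1 + s) ^ p * (1 + s) ^ (1 - p) = 1 + s := by
    rw [← Real.rpow_add h1]
    simp
  have h2 : 0 < (1 + s) ^ p := Real.rpow_pos_of_pos h1 _
  have h3 : 1 + s ≤ (1 + s) ^ p * (1 + (1 - p) * s) := by
    have := mul_le_mul_of_nonneg_left hb h2.le
    rw [hprod] at this
    exact this
  have h4 : 1 / 2 ≤ 1 + (1 - p) * s := by
    nlinarith
  have h5 : (1 + p * s - 1 * s ^ 2) * (1 + (1 - p) * s) ≤ (1 + s) ^ p * (1 + (1 - p) * s) := by
    refine le_trans ?_ h3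
    have h6 : (1 + p * s - 1 * s ^ 2) * (1 + (1 - p) * s) =
        1 + s + s ^ 2 * (p * (1 - p) - (1 + (1 - p) * s)) := by ring
    rw [h6]
    have h7 : p * (1 - p) ≤ 1 / 4 := by nlinarith [sq_nonneg (p - 1 / 2)]
    have h8 : s ^ 2 * (p * (1 - p) - (1 + (1 - p) * s)) ≤ 0 := by
      apply mul_nonpos_of_nonneg_of_nonpos (sq_nonneg s)
      linarith
    linarith
  exact le_of_mul_le_mul_right h5 (by linarith)

end BIN_

open BIN_ in
theorem bin_proof : Stmt_BIN := by
  refine ⟨?_, ?_⟩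
  · intro q hq
    refine ⟨q * (q - 1) ^ 2 / 6, ?_, ?_⟩
    · have h1 : 0 < q - 1 := by linarith
      have h2 : 0 < q := by linarith
      positivity
    · intro s hs
      have hC : 0 ≤ q * (q - 1) ^ 2 / 6 := by
        have h2 : 0 < q := by linarith
        positivity
      rcases le_total 0 s with h | h
      · have h1 := pos_part hq h ((le_abs_self s).trans hs)
        have h2 : 0 ≤ q * (q - 1) ^ 2 / 6 * |s| ^ 3 := mul_nonneg hC (by positivity)
        linarith
      · have h0 : |s| = -s := abs_of_nonpos h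
        have h1 := neg_part (r := -s) hq (by linarith) (by rw [← h0]; exact hs)
        rw [h0]
        have h2 : 1 - -s = 1 + s := by ring
        rw [h2] at h1
        refine le_trans (le_of_eq ?_) h1
        ring
  · intro p hp hp1
    exact ⟨1, one_pos, fun s hs => small hp hp1 hs⟩

end NRX
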