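import Pool.Agent.NRX.Stmts

/-!
# NRX, module BND: bounds for potentials
-/

set_option autoImplicit false

namespace NRX

open MeasureTheory InnerProductSpace Laplacian Topology ENNReal
open Filter hiding ker
open Pool.Agent.Helper52.CKN

namespace BND_

variable {n : ℕ}

instance : SFinite (mu n) := by unfold mu; infer_instance

theorem kk_measurable (α : ℝ) :
    Measurable (fun p : E n × E n => ENNReal.ofReal (kk α p.1 p.2)) := by
  apply Measurable.ennreal_ofReal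
  unfold kk
  apply Measurable.mul
  · fun_prop
  · exact ker_measurable

theorem inner_aem {f : E n → ℝ} (hf : AEMeasurable f) :
    AEMeasurable (fun x : E n => ∫⁻ y, ENNReal.ofReal (ker x y * |f y|)) := by
  apply AEMeasurable.lintegral_prod_right' (f := fun p : E n × E n =>
    ENNReal.ofReal (ker p.1 p.2 * |f p.2|))
  apply AEMeasurable.ennreal_ofReal
  apply AEMeasurable.mul
  · exact ker_measurable.aemeasurable
  · exact (hf.abs).comp_snd

/-- the common computation -/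
theorem key (hY : Stmt_YNG) (hC : Stmt_CNV) {α q : ℝ} (hn : 3 ≤ n) (hq : 2 ≤ q) {C : ℝ≥0∞}
    (hCt : C < ∞)
    (h1 : ∀ x : E n, x ≠ 0 → ∫⁻ y, ENNReal.ofReal (kk α x y) ^ (2 * q / (q + 2)) ∂(mu n) ≤ C)
    (h2 : ∀ y : E n, y ≠ 0 → ∫⁻ x, ENNReal.ofReal (kk α x y) ^ (2 * q / (q + 2)) ∂(mu n) ≤ C)
    {f : E n → ℝ} (hf : AEMeasurable f) (hw : wsq α f < ∞) :
    ∫⁻ x, ENNReal.ofReal (‖x‖ ^ (-beta n α q)) * (∫⁻ y, ENNReal.ofReal (ker x y * |f y|)) ^ q ≤
      C ^ (q / 2) * C * wsq α f ^ (q / 2) := by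
  obtain ⟨c1, c2, c3, c4⟩ := hC n α hn
  rw [c3 q _ (by linarith) (inner_aem hf)]
  have e1 : ∀ x : E n, ENNReal.ofReal (‖x‖ ^ ea n α) *
      ∫⁻ y, ENNReal.ofReal (ker x y * |f y|) = ∫⁻ y, ENNReal.ofReal (kk α x y) *
        ENNReal.ofReal (‖y‖ ^ (ea n α + 2) * |f y|) ∂(mu n) := by
    intro x
    have := c2 f (fun _ => 1) x hf measurable_const (fun _ => zero_le_one)
    simpa only [mul_one] using this
  have e2 : (fun x : E n => (ENNReal.ofReal (‖x‖ ^ ea n α) *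
      ∫⁻ y, ENNReal.ofReal (ker x y * |f y|)) ^ q) = fun x => (∫⁻ y, ENNReal.ofReal (kk α x y) *
        ENNReal.ofReal (‖y‖ ^ (ea n α + 2) * |f y|) ∂(mu n)) ^ q := by
    funext x
    rw [e1]
  rw [e2]
  have hwe := c1 f hf
  rw [hwe] at hw ⊢
  have hm : AEMeasurable (fun y : E n => ENNReal.ofReal (‖y‖ ^ (ea n α + 2) * |f y|)) (mu n) := by
    have h0 : AEMeasurable (fun y : E n => ENNReal.ofReal (‖y‖ ^ (ea n α + 2) * |f y|)) := by
      apply AEMeasurable.ennreal_ofReal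
      apply AEMeasurable.mul
      · apply Measurable.aemeasurable; fun_prop
      · exact hf.abs
    exact h0.mono_ac (withDensity_absolutelyContinuous _ _)
  exact hY (E n) (E n) (mu n) (mu n) (fun x y => ENNReal.ofReal (kk α x y)) _ q C C
    (kk_measurable α) hm hq hCt hCt hw
    ((c4 _).2 ((ae_ne hn 0).mono fun x hx => h1 x hx))
    ((c4 _).2 ((ae_ne hn 0).mono fun x hx => h2 x hx))

end BND_

open BND_ in
theorem bnd_proof (hKIN : Stmt_KIN) (hYNG : Stmt_YNG) (hCNV : Stmt_CNV) : Stmt_BND := by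
  intro n α q hA
  have hn3 : (3 : ℝ) ≤ n := by exact_mod_cast hA.n3
  have hq2 := hA.q2
  have hq3 := hA.q3
  have r1 : 1 ≤ 2 * q / (q + 2) := by
    rw [le_div_iff₀ (by linarith)]
    linarith
  have r2 : 2 * q / (q + 2) * ((n : ℝ) - 2) < n := by
    rw [div_mul_eq_mul_div, div_lt_iff₀ (by linarith)]
    nlinarith
  obtain ⟨C, hC, h1, h2⟩ := hKIN n α (2 * q / (q + 2)) hA.n3 hA.a1 hA.a2 r1 r2
  obtain ⟨C', hC', h1', h2'⟩ := hKIN n α 1 hA.n3 hA.a1 hA.a2 le_rfl (by linarith)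
  refine ⟨C ^ (q / 2) * C + C' ^ (2 / 2 : ℝ) * C', ?_, ?_⟩
  · refine ENNReal.add_lt_top.2 ⟨ENNReal.mul_lt_top ?_ hC, ENNReal.mul_lt_top ?_ hC'⟩
    · exact ENNReal.rpow_lt_top_of_nonneg (by linarith) hC.ne
    · exact ENNReal.rpow_lt_top_of_nonneg (by norm_num) hC'.ne
  · intro f hf hw
    constructor
    · refine (key hYNG hCNV hA.n3 hq2.le hC h1 h2 hf hw).trans ?_
      exact mul_le_mul' le_self_add le_rfl
    · have e : (2 : ℝ) * 2 / (2 + 2) = 1 := by norm_num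
      have h3 := key hYNG hCNV (q := 2) hA.n3 le_rfl hC' (by rw [e]; exact h1')
        (by rw [e]; exact h2') hf hw
      refine h3.trans ?_
      rw [show (2 / 2 : ℝ) = 1 by norm_num, ENNReal.rpow_one (wsq α f)]
      exact mul_le_mul' le_add_self le_rfl

end NRX
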