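import Pool.Agent.NRX.Stmts

/-!
# Squad NRX, module CNV: conversions to the measure `mu`
-/

set_option autoImplicit false

namespace NRX

open MeasureTheory InnerProductSpace Laplacian Topology ENNReal
open Filter hiding ker
open Pool.Agent.Helper52.CKN

namespace CNV_

variable {n : ℕ}

lemma dens_meas : Measurable (fun x : E n => ENNReal.ofReal (‖x‖ ^ (-(n : ℝ)))) := by
  apply Measurable.ennreal_ofReal
  fun_prop

lemma lint_mu {F : E n → ℝ≥0∞} (hF : AEMeasurable F) :
    ∫⁻ x, F x ∂(mu n) = ∫⁻ x, ENNReal.ofReal (‖x‖ ^ (-(n : ℝ))) * F x := by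
  unfold mu
  exact lintegral_withDensity_eq_lintegral_mul₀ dens_meas.aemeasurable hF

lemma pw {r a b c : ℝ} (hr : 0 < r) (h : a = b + c) : r ^ a = r ^ b * r ^ c := by
  rw [h, Real.rpow_add hr]

end CNV_

open CNV_ in
theorem cnv_proof : Stmt_CNV := by
  intro n α hn
  refine ⟨?_, ?_, ?_, ?_⟩
  · intro f hf
    have hm : AEMeasurable (fun y : E n =>
        ENNReal.ofReal (‖y‖ ^ (ea n α + 2) * |f y|) ^ (2 : ℝ)) := by
      apply AEMeasurable.pow_const
      apply AEMeasurable.ennreal_ofReal
      apply AEMeasurable.mul _ hf.abs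
      apply Measurable.aemeasurable; fun_prop
    rw [lint_mu hm]
    unfold wsq
    apply lintegral_congr_ae
    filter_upwards [ae_ne hn 0] with y hy
    have hy1 : 0 < ‖y‖ := norm_pos_iff.mpr hy
    rw [ENNReal.ofReal_rpow_of_nonneg (by positivity) (by norm_num),
      ← ENNReal.ofReal_mul (by positivity)]
    congr 1
    rw [Real.mul_rpow (by positivity) (abs_nonneg _), ← Real.rpow_mul hy1.le,
      show |f y| ^ (2 : ℝ) = f y ^ 2 by rw [Real.rpow_two, sq_abs], ← mul_assoc,
      ← Real.rpow_add hy1]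
    congr 2
    unfold ea; ring
  · intro f χ x hf hχ hχ0
    have hk : Measurable (fun y : E n => kk α x y * χ y) := by
      unfold kk ker
      fun_prop
    have hm : AEMeasurable (fun y : E n => ENNReal.ofReal (kk α x y * χ y) *
        ENNReal.ofReal (‖y‖ ^ (ea n α + 2) * |f y|)) := by
      have h2 : AEMeasurable (fun y : E n => ENNReal.ofReal (‖y‖ ^ (ea n α + 2) * |f y|)) := by
        apply AEMeasurable.ennreal_ofReal
        apply AEMeasurable.mul _ hf.abs
        apply Measurable.aemeasurable; fun_prop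
      exact hk.ennreal_ofReal.aemeasurable.mul h2
    rw [lint_mu hm, ← lintegral_const_mul' _ _ ENNReal.ofReal_ne_top]
    apply lintegral_congr_ae
    filter_upwards [ae_ne hn 0] with y hy
    have hy1 : 0 < ‖y‖ := norm_pos_iff.mpr hy
    have hke := ker_nonneg x y
    have hx0 := hχ0 y
    have hxa : 0 ≤ ‖x‖ ^ ea n α := by positivity
    rw [← ENNReal.ofReal_mul hxa]
    have hkk : 0 ≤ kk α x y * χ y := by
      unfold kk
      exact mul_nonneg (mul_nonneg (by positivity) hke) hx0
    rw [← ENNReal.ofReal_mul hkk, ← ENNReal.ofReal_mul (by positivity)]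
    congr 1
    unfold kk
    have h1 : ‖y‖ ^ (-(n : ℝ)) * ‖y‖ ^ eb n α * ‖y‖ ^ (ea n α + 2) = 1 := by
      rw [← Real.rpow_add hy1, ← Real.rpow_add hy1]
      have : -(n : ℝ) + eb n α + (ea n α + 2) = 0 := by unfold ea eb; ring
      rw [this, Real.rpow_zero]
    calc ‖x‖ ^ ea n α * (ker x y * χ y * |f y|)
        = (‖y‖ ^ (-(n : ℝ)) * ‖y‖ ^ eb n α * ‖y‖ ^ (ea n α + 2)) *
          (‖x‖ ^ ea n α * (ker x y * χ y * |f y|)) := by rw [h1, one_mul]
      _ = _ := by ring
  · intro q G hq hG
    have hm : AEMeasurable (fun x : E n => (ENNReal.ofReal (‖x‖ ^ ea n α) * G x) ^ q) := by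
      apply AEMeasurable.pow_const
      apply AEMeasurable.mul _ hG
      apply Measurable.aemeasurable
      apply Measurable.ennreal_ofReal
      fun_prop
    rw [lint_mu hm]
    apply lintegral_congr_ae
    filter_upwards [ae_ne hn 0] with x hx
    have hx1 : 0 < ‖x‖ := norm_pos_iff.mpr hx
    rw [ENNReal.mul_rpow_of_nonneg _ _ hq, ENNReal.ofReal_rpow_of_nonneg (by positivity) hq,
      ← mul_assoc, ← ENNReal.ofReal_mul (by positivity)]
    congr 2
    rw [← Real.rpow_mul hx1.le, ← Real.rpow_add hx1, beta_eq]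
    congr 1
    ring
  · intro P
    unfold mu
    rw [ae_withDensity_iff dens_meas]
    constructor
    · intro h
      filter_upwards [h, ae_ne hn 0] with x hx hx0
      have hx1 : 0 < ‖x‖ := norm_pos_iff.mpr hx0
      apply hx
      have : 0 < ‖x‖ ^ (-(n : ℝ)) := by positivity
      exact (ENNReal.ofReal_pos.mpr this).ne'
    · intro h
      filter_upwards [h] with x hx _
      exact hx

end NRX
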