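import Pool.Agent.NRX.Stmts

/-!
# Squad NRX, module CSP: the Cauchy-Schwarz inequality in the weighted spaces
-/

set_option autoImplicit false

namespace NRX

open MeasureTheory InnerProductSpace Laplacian Topology ENNReal
open Filter hiding ker
open Pool.Agent.Helper52.CKN

namespace CSP_

variable {n : ℕ}

theorem aem_half (β : ℝ) {f : E n → ℝ} (hf : AEMeasurable f) :
    AEMeasurable (fun y : E n => ENNReal.ofReal (‖y‖ ^ (β / 2) * |f y|)) := by
  apply AEMeasurable.ennreal_ofReal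
  apply AEMeasurable.mul
  · apply Measurable.aemeasurable; fun_prop
  · exact hf.abs

theorem half_sq (hn : 3 ≤ n) (β : ℝ) (f : E n → ℝ) :
    ∫⁻ y, ENNReal.ofReal (‖y‖ ^ (β / 2) * |f y|) ^ (2 : ℝ) = wsq β f := by
  unfold wsq
  apply lintegral_congr_ae
  filter_upwards [ae_ne hn 0] with y hy
  have hy0 : 0 < ‖y‖ := norm_pos_iff.mpr hy
  rw [ENNReal.ofReal_rpow_of_nonneg (by positivity) (by norm_num)]
  congr 1
  rw [Real.mul_rpow (by positivity) (abs_nonneg _), ← Real.rpow_mul hy0.le]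
  have e : β / 2 * 2 = β := by ring
  rw [e, Real.rpow_two, sq_abs]

theorem holder (hn : 3 ≤ n) (α : ℝ) {f h : E n → ℝ} (hf : AEMeasurable f) (hh : AEMeasurable h) :
    ∫⁻ x, ENNReal.ofReal |f x * h x| ≤ (wsq α f * wsq (-α) h) ^ (1 / 2 : ℝ) := by
  have hconj : Real.HolderConjugate 2 2 := Real.HolderConjugate.two_two
  have h1 : ∀ᵐ y : E n, ENNReal.ofReal |f y * h y| =
      ENNReal.ofReal (‖y‖ ^ (α / 2) * |f y|) * ENNReal.ofReal (‖y‖ ^ (-α / 2) * |h y|) := by
    filter_upwards [ae_ne hn 0] with y hy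
    have hy0 : 0 < ‖y‖ := norm_pos_iff.mpr hy
    rw [← ENNReal.ofReal_mul (by positivity), abs_mul]
    congr 1
    have e1 : ‖y‖ ^ (α / 2) * ‖y‖ ^ (-α / 2) = 1 := by
      rw [← Real.rpow_add hy0]
      have : α / 2 + -α / 2 = 0 := by ring
      rw [this, Real.rpow_zero]
    linear_combination (-(|f y| * |h y|)) * e1
  rw [lintegral_congr_ae h1]
  refine le_trans (ENNReal.lintegral_mul_le_Lp_mul_Lq volume hconj (aem_half α hf)
    (aem_half (-α) hh)) ?_
  rw [half_sq hn, half_sq hn, ENNReal.mul_rpow_of_nonneg _ _ (by norm_num)]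

end CSP_

open CSP_ in
theorem csp_proof : Stmt_CSP := by
  intro n α f h hn hf hh hwf hwh
  have h1 := holder hn α hf hh
  have hfin : (wsq α f * wsq (-α) h) ^ (1 / 2 : ℝ) < ∞ :=
    ENNReal.rpow_lt_top_of_nonneg (by norm_num) (ENNReal.mul_lt_top hwf hwh).ne
  have hint : Integrable (fun x => f x * h x) := by
    refine ⟨(hf.mul hh).aestronglyMeasurable, ?_⟩
    rw [hasFiniteIntegral_iff_norm]
    exact lt_of_le_of_lt h1 hfin
  refine ⟨hint, ?_, h1⟩
  have h2 : |∫ x, f x * h x| ≤ ∫ x, |f x * h x| := by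
    have := norm_integral_le_integral_norm (μ := (volume : Measure (E n))) (fun x => f x * h x)
    simpa only [Real.norm_eq_abs] using this
  have h3 : ∫ x, |f x * h x| = (∫⁻ x, ENNReal.ofReal |f x * h x|).toReal := by
    rw [integral_eq_lintegral_of_nonneg_ae (Eventually.of_forall fun x => abs_nonneg _)
      hint.abs.aestronglyMeasurable]
  have h4 : ((wsq α f * wsq (-α) h) ^ (1 / 2 : ℝ)).toReal =
      √(wsq α f).toReal * √(wsq (-α) h).toReal := by
    rw [← ENNReal.toReal_rpow, ENNReal.toReal_mul, Real.mul_rpow ENNReal.toReal_nonneg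
      ENNReal.toReal_nonneg, Real.sqrt_eq_rpow, Real.sqrt_eq_rpow]
  rw [h3] at h2
  rw [← h4]
  exact h2.trans (ENNReal.toReal_mono hfin.ne h1)

end NRX
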