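import Pool.Agent.NRX.Stmts

/-!
# Squad NRX, module DUA: a weak solution is the potential
-/

set_option autoImplicit false

namespace NRX

open MeasureTheory InnerProductSpace Laplacian Topology ENNReal
open Filter hiding ker
open Pool.Agent.Helper52.CKN

namespace DUA_

variable {n : ℕ}

theorem wsq_dual (hn : 3 ≤ n) (α : ℝ) (D : E n → ℝ) :
    wsq (4 - α) (fun x => ‖x‖ ^ (α - 4) * D x) = wsq (α - 4) D := by
  unfold wsq
  apply lintegral_congr_ae
  filter_upwards [ae_ne hn 0] with x hx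
  have hx0 : 0 < ‖x‖ := norm_pos_iff.mpr hx
  congr 1
  have e : ‖x‖ ^ (4 - α) * ‖x‖ ^ (α - 4) = 1 := by
    rw [← Real.rpow_add hx0]
    have : 4 - α + (α - 4) = 0 := by ring
    rw [this, Real.rpow_zero]
  calc ‖x‖ ^ (4 - α) * (‖x‖ ^ (α - 4) * D x) ^ 2
      = (‖x‖ ^ (4 - α) * ‖x‖ ^ (α - 4)) * (‖x‖ ^ (α - 4) * D x ^ 2) := by ring
    _ = ‖x‖ ^ (α - 4) * D x ^ 2 := by rw [e, one_mul]

theorem wsq_neg (α : ℝ) (f : E n → ℝ) : wsq α (fun x => -f x) = wsq α f := by
  unfold wsq
  congr 1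
  funext x
  rw [neg_sq]

/-- the core: a function orthogonal to all Laplacians of test functions vanishes -/
theorem zero_of_orth (hn : 3 ≤ n) (hCSP : Stmt_CSP) {α : ℝ} (h1 : 4 - (n : ℝ) < α) (h2 : α < n)
    {D : E n → ℝ} (hD : AEMeasurable D) (hw : wsq (α - 4) D < ∞)
    (h0 : ∀ η : E n → ℝ, TestFn η → ∫ x, D x * Δ η x = 0) : D =ᵐ[volume] 0 := by
  set h : E n → ℝ := fun x => ‖x‖ ^ (α - 4) * D x with hh
  have hm : AEMeasurable h := by
    apply AEMeasurable.mul _ hD
    apply Measurable.aemeasurable; fun_prop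
  have hwh : wsq (4 - α) h < ∞ := by
    rw [hh, wsq_dual hn]
    exact hw
  have hα : -(α - 4) = 4 - α := by ring
  obtain ⟨i1, -, -⟩ := hCSP n (α - 4) D h hn hD hm hw (by rw [hα]; exact hwh)
  have key : ∫ x, D x * h x = 0 := by
    have hb : ∀ ε : ℝ, 0 < ε → |∫ x, D x * h x| ≤ √(wsq (α - 4) D).toReal * √ε := by
      intro ε hε
      obtain ⟨φ, hφ, hle⟩ := exists_test_approx (n := n) (α := 4 - α) hn (by linarith)
        (by linarith) hm hwh hε
      have hlm : AEMeasurable (Δ φ) := (lap_continuous hφ.1).aemeasurable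
      have hdm : AEMeasurable (fun x => Δ φ x - h x) := hlm.sub hm
      have hlt : wsq (-(α - 4)) (fun x => Δ φ x - h x) < ∞ := by
        rw [hα]
        exact lt_of_le_of_lt hle ENNReal.ofReal_lt_top
      obtain ⟨j1, j2, -⟩ := hCSP n (α - 4) D (fun x => Δ φ x - h x) hn hD hdm hw hlt
      obtain ⟨k1, -, -⟩ := hCSP n (α - 4) D (Δ φ) hn hD hlm hw (by
        rw [hα]
        exact test_wsq_lt_top hφ _)
      have e : ∫ x, D x * (Δ φ x - h x) = -∫ x, D x * h x := by
        have : (fun x => D x * (Δ φ x - h x)) = fun x => D x * Δ φ x - D x * h x := by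
          funext x; ring
        rw [this, integral_sub k1 i1, h0 φ hφ, zero_sub]
      rw [e, abs_neg] at j2
      refine le_trans j2 (mul_le_mul_of_nonneg_left ?_ (Real.sqrt_nonneg _))
      apply Real.sqrt_le_sqrt
      rw [hα]
      exact ENNReal.toReal_le_of_le_ofReal hε.le hle
    by_contra hne
    have hpos : 0 < |∫ x, D x * h x| := abs_pos.mpr hne
    set W := √(wsq (α - 4) D).toReal with hW
    have hW0 : 0 ≤ W := Real.sqrt_nonneg _
    set A := |∫ x, D x * h x| with hA
    have hε : 0 < (A / (2 * (W + 1))) ^ 2 := by positivity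
    have h3 := hb _ hε
    rw [Real.sqrt_sq (by positivity)] at h3
    have h4 : W * (A / (2 * (W + 1))) ≤ A / 2 := by
      rw [mul_div_assoc', div_le_div_iff₀ (by positivity) (by norm_num)]
      nlinarith
    linarith
  have hz : wsq (α - 4) D = 0 := by
    have hnn : ∀ x : E n, 0 ≤ D x * h x := by
      intro x
      have : D x * h x = ‖x‖ ^ (α - 4) * D x ^ 2 := by
        rw [hh]; ring
      rw [this]
      positivity
    have e1 := ofReal_integral_eq_lintegral_ofReal i1 (Eventually.of_forall hnn)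
    rw [key, ENNReal.ofReal_zero] at e1
    rw [wsq, e1]
    congr 1
    funext x
    congr 1
    rw [hh]
    ring
  exact ae_zero_of_wsq hn hD hz

end DUA_

open DUA_ in
theorem dua_proof (hREL : Stmt_REL) (hWEK : Stmt_WEK) (hCSP : Stmt_CSP) : Stmt_DUA := by
  intro n α v g hn h1 h2 hv hg hvw hgw hsol
  have hpm : AEMeasurable (fun x => (kap n)⁻¹ * pot g x) :=
    (pot_aestronglyMeasurable hg).aemeasurable.const_mul _
  have hrel := hREL n α g hn h1 h2 hg hgw
  have hpw : wsq (α - 4) (fun x => (kap n)⁻¹ * pot g x) < ∞ :=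
    lt_of_le_of_lt hrel (ENNReal.mul_lt_top ENNReal.ofReal_lt_top hgw)
  have hDm : AEMeasurable (fun x => v x + (kap n)⁻¹ * pot g x) := hv.add hpm
  have hDw : wsq (α - 4) (fun x => v x + (kap n)⁻¹ * pot g x) < ∞ := by
    refine lt_of_le_of_lt (wsq_add_le (α - 4) hv) ?_
    exact ENNReal.add_lt_top.2 ⟨ENNReal.mul_lt_top (by norm_num) hvw,
      ENNReal.mul_lt_top (by norm_num) hpw⟩
  have hz := zero_of_orth hn hCSP h1 h2 hDm hDw (by
    intro η hη
    have hlm : AEMeasurable (Δ η) := (lap_continuous hη.1).aemeasurable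
    obtain ⟨i1, -, -⟩ := hCSP n (α - 4) v (Δ η) hn hv hlm hvw (test_wsq_lt_top hη _)
    obtain ⟨j1, -, -, j4⟩ := hWEK n α g η hn h1 h2 hg hgw hη
    have e : (fun x => (v x + (kap n)⁻¹ * pot g x) * Δ η x) =
        fun x => v x * Δ η x + (kap n)⁻¹ * (pot g x * Δ η x) := by
      funext x; ring
    rw [e, integral_add i1 (j1.const_mul _), integral_const_mul, j4, hsol η hη]
    have := (kap_pos hn).ne'
    field_simp
    ring)
  filter_upwards [hz] with x hx
  have hx' : v x + (kap n)⁻¹ * pot g x = 0 := hx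
  linarith

end NRX
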