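import Pool.Agent.Helper52.CKN.Main

/-!
# Squad NRX (MP_d4321b_an, Q2): non-radial extremals of the weighted biharmonic
Caffarelli-Kohn-Nirenberg inequality.  Definitions.
-/

set_option autoImplicit false

namespace NRX

open MeasureTheory InnerProductSpace Laplacian Filter Topology ENNReal
open Pool.Agent.Helper52.CKN

noncomputable section

variable {n : ℕ}

/-! ## The spaces and the constants (as in the hand-in ConstantSign) -/

/-- The energy `‖φ‖²_{2,α} = ∫ |x|^α |Δφ|² dx`. -/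
def energy (α : ℝ) (φ : E n → ℝ) : ℝ≥0∞ := ∫⁻ x, ENNReal.ofReal (‖x‖ ^ α * (Δ φ x) ^ 2)

/-- `u` is the element of the completion given by the sequence `φ` of test functions. -/
structure Represents (α : ℝ) (φ : ℕ → E n → ℝ) (u : E n → ℝ) : Prop where
  test : ∀ k, TestFn (φ k)
  cauchy : ∀ ε : ℝ≥0∞, 0 < ε → ∃ N, ∀ k ≥ N, ∀ l ≥ N, energy α (φ k - φ l) < ε
  meas : AEStronglyMeasurable u volume
  lim : ∀ K : Set (E n), IsCompact K → (0 : E n) ∉ K →
    Tendsto (fun k => ∫⁻ x in K, ‖φ k x - u x‖ₑ) atTop (𝓝 0)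

/-- `u` belongs to `N²(α)` and `‖u‖²_{2,α} = e`. -/
def HasEnergy (α : ℝ) (u : E n → ℝ) (e : ℝ≥0∞) : Prop :=
  ∃ φ, Represents α φ u ∧ Tendsto (fun k => energy α (φ k)) atTop (𝓝 e)

/-- The exponent `β = n - q (n - 4 + α) / 2`. -/
def beta (n : ℕ) (α q : ℝ) : ℝ := n - q * ((n - 4 + α) / 2)

/-- `∫ |x|^{-β} |u|^q dx`. -/
def weightedInt (α q : ℝ) (u : E n → ℝ) : ℝ≥0∞ :=
  ∫⁻ x, ENNReal.ofReal (‖x‖ ^ (-beta n α q) * |u x| ^ q)

/-- The best constant `S_q(α)`. -/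
def bestConst (n : ℕ) (α q : ℝ) : ℝ≥0∞ :=
  ⨅ (v : E n → ℝ) (e : ℝ≥0∞) (_ : HasEnergy α v e) (_ : ¬ v =ᵐ[volume] 0),
    e / weightedInt α q v ^ (2 / q)

/-- `u` is an extremal for `S_q(α)`. -/
def IsExtremal (n : ℕ) (α q : ℝ) (u : E n → ℝ) : Prop :=
  ¬ u =ᵐ[volume] 0 ∧ weightedInt α q u ≠ ∞ ∧
    ∃ e : ℝ≥0∞, HasEnergy α u e ∧ e / weightedInt α q u ^ (2 / q) = bestConst n α q

/-- `u` is (almost everywhere) a function of `|x|`. -/
def IsRadial (u : E n → ℝ) : Prop := ∃ g : ℝ → ℝ, u =ᵐ[volume] fun x => g ‖x‖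

/-! ## Exponents and the homogeneous kernel -/

/-- `a = (n - 4 + α) / 2` -/
def ea (n : ℕ) (α : ℝ) : ℝ := ((n : ℝ) - 4 + α) / 2

/-- `b = (n - α) / 2`, so that `a + b = n - 2` -/
def eb (n : ℕ) (α : ℝ) : ℝ := ((n : ℝ) - α) / 2

/-- `γ = a b` -/
def gm (n : ℕ) (α : ℝ) : ℝ := ea n α * eb n α

/-- the kernel `K(x,y) = |x|^a |y|^b |x-y|^(2-n)`, homogeneous of degree `0` -/
def kk (α : ℝ) (x y : E n) : ℝ := ‖x‖ ^ ea n α * ‖y‖ ^ eb n α * ker x y

/-- the measure `|x|^(-n) dx` -/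
def mu (n : ℕ) : Measure (E n) := volume.withDensity fun x => ENNReal.ofReal (‖x‖ ^ (-(n : ℝ)))

/-- `∫_S |x|^{-β} |u|^q dx`. -/
def WS (α q : ℝ) (S : Set (E n)) (u : E n → ℝ) : ℝ≥0∞ :=
  ∫⁻ x in S, ENNReal.ofReal (‖x‖ ^ (-beta n α q) * |u x| ^ q)

open Classical in
/-- the part of the Newtonian kernel where `K ≤ m` -/
def kel (α m : ℝ) (x y : E n) : ℝ := if kk α x y ≤ m then ker x y else 0

open Classical in
/-- the part of the Newtonian kernel where `K > m` -/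
def keg (α m : ℝ) (x y : E n) : ℝ := if kk α x y ≤ m then 0 else ker x y

/-- the potential with the kernel `kel` -/
def potl (α m : ℝ) (f : E n → ℝ) (x : E n) : ℝ := ∫ y, kel α m x y * f y

/-- the potential with the kernel `keg` -/
def potg (α m : ℝ) (f : E n → ℝ) (x : E n) : ℝ := ∫ y, keg α m x y * f y

/-- the action of the similarity `x ↦ l ρ x` -/
def act (α l : ℝ) (ρ : E n ≃ₗᵢ[ℝ] E n) (f : E n → ℝ) (x : E n) : ℝ :=
  l ^ (ea n α + 2) * f (l • ρ x)

/-- weak convergence in the space `L²(|x|^α dx)` -/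
def WC (α : ℝ) (f : ℕ → E n → ℝ) (g : E n → ℝ) : Prop :=
  ∀ h : E n → ℝ, AEMeasurable h → wsq (-α) h < ∞ →
    Tendsto (fun k => ∫ x, f k x * h x) atTop (𝓝 (∫ x, g x * h x))

/-- an annulus -/
def ann (n : ℕ) (R : ℝ) : Set (E n) := {x | R⁻¹ ≤ ‖x‖ ∧ ‖x‖ ≤ R}

/-- the supremum of `∫ |x|^{-β} |pot f|^q` over the unit ball of `L²(|x|^α dx)` -/
def MM (n : ℕ) (α q : ℝ) : ℝ≥0∞ :=
  ⨆ (f : E n → ℝ) (_ : AEMeasurable f) (_ : wsq α f ≤ 1), WS α q Set.univ (pot f)

/-- the spherical harmonic `x_i / |x|` -/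
def ps (i : Fin n) (x : E n) : ℝ := x i / ‖x‖

/-- the parameters: `n ≥ 3`, `α ∈ (4-n, n)` and `2 < q < 2n/(n-4)` (the last one for `n ≥ 5`) -/
structure Adm (n : ℕ) (α q : ℝ) : Prop where
  n3 : 3 ≤ n
  a1 : 4 - (n : ℝ) < α
  a2 : α < n
  q2 : 2 < q
  q3 : q * ((n : ℝ) - 4) < 2 * n

/-! ## First consequences -/

theorem WS_univ (α q : ℝ) (u : E n → ℝ) : WS α q Set.univ u = weightedInt α q u := by
  unfold WS weightedInt
  rw [Measure.restrict_univ]

theorem ea_pos {α : ℝ} (h1 : 4 - (n : ℝ) < α) : 0 < ea n α := by unfold ea; linarith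

theorem eb_pos {α : ℝ} (h2 : α < n) : 0 < eb n α := by unfold eb; linarith

theorem ea_add_eb (α : ℝ) : ea n α + eb n α = n - 2 := by unfold ea eb; ring

theorem gm_pos {α : ℝ} (h1 : 4 - (n : ℝ) < α) (h2 : α < n) : 0 < gm n α :=
  mul_pos (ea_pos h1) (eb_pos h2)

theorem beta_eq (α q : ℝ) : -beta n α q = -(n : ℝ) + q * ea n α := by unfold beta ea; ring

theorem energy_eq (α : ℝ) (φ : E n → ℝ) : energy α φ = wsq α (Δ φ) := rfl

theorem lap_sub {φ ψ : E n → ℝ} (hφ : TestFn φ) (hψ : TestFn ψ) :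
    Δ (φ - ψ) = fun x => Δ φ x - Δ ψ x := by
  funext x
  exact hφ.1.contDiffAt.laplacian_sub hψ.1.contDiffAt

theorem ae_zero_of_wsq (hn : 3 ≤ n) {α : ℝ} {h : E n → ℝ} (hm : AEMeasurable h)
    (hw : wsq α h = 0) : h =ᵐ[volume] 0 := by
  unfold wsq at hw
  have hmm : AEMeasurable (fun x : E n => ENNReal.ofReal (‖x‖ ^ α * h x ^ 2)) := by
    apply AEMeasurable.ennreal_ofReal
    apply AEMeasurable.mul _ (hm.pow_const 2)
    apply Measurable.aemeasurable; fun_prop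
  rw [lintegral_eq_zero_iff' hmm] at hw
  filter_upwards [hw, ae_ne hn 0] with x hx hx0
  have hx1 : 0 < ‖x‖ := norm_pos_iff.mpr hx0
  have h1 : ‖x‖ ^ α * h x ^ 2 ≤ 0 := ENNReal.ofReal_eq_zero.mp hx
  have h2 : 0 < ‖x‖ ^ α := by positivity
  have h3 : h x ^ 2 ≤ 0 := by
    by_contra hcon
    push Not at hcon
    have := mul_pos h2 hcon
    linarith
  have h4 : h x ^ 2 = 0 := le_antisymm h3 (sq_nonneg _)
  simpa using h4

/-- Every element of `N²(α)` is minus a Newtonian potential. -/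
theorem repr_of_hasEnergy (hn : 3 ≤ n) {α : ℝ} (h1 : 4 - (n : ℝ) < α) (h2 : α < n)
    {u : E n → ℝ} {e : ℝ≥0∞} (h : HasEnergy α u e) :
    ∃ f : E n → ℝ, AEMeasurable f ∧ wsq α f < ∞ ∧ e = wsq α f ∧
      u =ᵐ[volume] fun x => -(kap n)⁻¹ * pot f x := by
  obtain ⟨φ, hφ, he⟩ := h
  have htest : ∀ k, TestFn (φ k) := hφ.test
  have hcau : ∀ ε : ℝ≥0∞, 0 < ε → ∃ N, ∀ k ≥ N, ∀ l ≥ N,
      wsq α (fun x => Δ (φ k) x - Δ (φ l) x) < ε := by
    intro ε hε
    obtain ⟨N, hN⟩ := hφ.cauchy ε hε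
    refine ⟨N, fun k hk l hl => ?_⟩
    have := hN k hk l hl
    rw [energy_eq, lap_sub (hφ.test k) (hφ.test l)] at this
    exact this
  obtain ⟨f, hfm, hfw, hlim, hen⟩ := exists_limit hn htest hcau
  refine ⟨f, hfm, hfw, tendsto_nhds_unique he hen, ?_⟩
  apply ae_eq_of_tendsto hn (fun k => (htest k).1.continuous) hφ.meas
  · exact (pot_aestronglyMeasurable hfm).const_mul _
  · exact hφ.lim
  · intro K hK _
    exact test_tendsto hn h1 h2 hfm hfw htest hlim hK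

/-- Every Newtonian potential of a function in the weighted `L²` space is in `N²(α)`. -/
theorem hasEnergy_pot (hn : 3 ≤ n) {α : ℝ} (h1 : 4 - (n : ℝ) < α) (h2 : α < n)
    {f : E n → ℝ} (hfm : AEMeasurable f) (hfw : wsq α f < ∞) :
    HasEnergy α (fun x => -(kap n)⁻¹ * pot f x) (wsq α f) := by
  have happ : ∀ k : ℕ, ∃ φ : E n → ℝ, TestFn φ ∧ wsq α (fun x => Δ φ x - f x) ≤
      ENNReal.ofReal (1 / ((k : ℝ) + 1)) := fun k =>
    exists_test_approx hn h1 h2 hfm hfw (by positivity)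
  choose φ hφ hle using happ
  have h0 : Tendsto (fun k : ℕ => ENNReal.ofReal (1 / ((k : ℝ) + 1))) atTop (𝓝 0) := by
    have := ENNReal.tendsto_ofReal (tendsto_one_div_add_atTop_nhds_zero_nat (𝕜 := ℝ))
    simpa using this
  have hlim : Tendsto (fun k => wsq α (fun x => Δ (φ k) x - f x)) atTop (𝓝 0) :=
    tendsto_of_tendsto_of_tendsto_of_le_of_le tendsto_const_nhds h0 (fun _ => zero_le) hle
  have hm : ∀ k, AEMeasurable (fun x => Δ (φ k) x - f x) := fun k =>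
    (lap_continuous (hφ k).1).aemeasurable.sub hfm
  have hpair : ∀ k l, wsq α (fun x => Δ (φ k) x - Δ (φ l) x) ≤
      2 * wsq α (fun x => Δ (φ k) x - f x) + 2 * wsq α (fun x => Δ (φ l) x - f x) := by
    intro k l
    have e1 := wsq_add_le α (f := fun x => Δ (φ k) x - f x) (g := fun x => -(Δ (φ l) x - f x)) (hm k)
    have e2 : wsq α (fun x => -(Δ (φ l) x - f x)) = wsq α (fun x => Δ (φ l) x - f x) := by
      unfold wsq
      congr 1
      funext x
      rw [neg_sq]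
    rw [e2] at e1
    refine le_trans (le_of_eq ?_) e1
    congr 1
    funext x
    ring
  have hcau : ∀ ε : ℝ≥0∞, 0 < ε → ∃ N, ∀ k ≥ N, ∀ l ≥ N,
      wsq α (fun x => Δ (φ k) x - Δ (φ l) x) < ε := by
    intro ε hε
    have h3 : Tendsto (fun k => 4 * wsq α (fun x => Δ (φ k) x - f x)) atTop (𝓝 0) := by
      have := ENNReal.Tendsto.const_mul (a := 4) hlim (Or.inr (by norm_num))
      simpa using this
    obtain ⟨N, hN⟩ := eventually_atTop.mp (h3.eventually_lt_const hε)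
    refine ⟨N, fun k hk l hl => lt_of_le_of_lt (hpair k l) ?_⟩
    rcases le_total (wsq α (fun x => Δ (φ k) x - f x)) (wsq α (fun x => Δ (φ l) x - f x)) with h | h
    · refine lt_of_le_of_lt ?_ (hN l hl)
      have h4 : (4 : ℝ≥0∞) = 2 + 2 := by norm_num
      rw [h4, add_mul]
      exact add_le_add (mul_le_mul' le_rfl h) le_rfl
    · refine lt_of_le_of_lt ?_ (hN k hk)
      have h4 : (4 : ℝ≥0∞) = 2 + 2 := by norm_num
      rw [h4, add_mul]
      exact add_le_add le_rfl (mul_le_mul' le_rfl h)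
  obtain ⟨f', hfm', hfw', hlim', hen'⟩ := exists_limit hn hφ hcau
  have hff : wsq α f' = wsq α f := by
    have hz : wsq α (fun x => f' x - f x) = 0 := by
      have hb : ∀ k, wsq α (fun x => f' x - f x) ≤
          2 * wsq α (fun x => Δ (φ k) x - f x) + 2 * wsq α (fun x => Δ (φ k) x - f' x) := by
        intro k
        have e1 := wsq_add_le α (f := fun x => Δ (φ k) x - f x) (g := fun x => -(Δ (φ k) x - f' x)) (hm k)
        have e2 : wsq α (fun x => -(Δ (φ k) x - f' x)) = wsq α (fun x => Δ (φ k) x - f' x) := by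
          unfold wsq
          congr 1
          funext x
          rw [neg_sq]
        rw [e2] at e1
        refine le_trans (le_of_eq ?_) e1
        congr 1
        funext x
        ring
      have h3 : Tendsto (fun k => 2 * wsq α (fun x => Δ (φ k) x - f x) +
          2 * wsq α (fun x => Δ (φ k) x - f' x)) atTop (𝓝 (2 * 0 + 2 * 0)) :=
        (ENNReal.Tendsto.const_mul hlim (Or.inr (by norm_num))).add
          (ENNReal.Tendsto.const_mul hlim' (Or.inr (by norm_num)))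
      have h4 := ge_of_tendsto' h3 hb
      simpa using h4
    have hae := ae_zero_of_wsq hn (hfm'.sub hfm) hz
    unfold wsq
    apply lintegral_congr_ae
    filter_upwards [hae] with x hx
    have : f' x - f x = 0 := hx
    have h5 : f' x = f x := by linarith
    rw [h5]
  refine ⟨φ, ⟨hφ, ?_, ?_, ?_⟩, ?_⟩
  · intro ε hε
    obtain ⟨N, hN⟩ := hcau ε hε
    refine ⟨N, fun k hk l hl => ?_⟩
    rw [energy_eq, lap_sub (hφ k) (hφ l)]
    exact hN k hk l hl
  · exact (pot_aestronglyMeasurable hfm).const_mul _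
  · intro K hK _
    exact test_tendsto hn h1 h2 hfm hfw hφ hlim hK
  · rw [← hff]
    exact hen'

theorem aem_weight {α q : ℝ} {u : E n → ℝ} (hu : AEMeasurable u) :
    AEMeasurable (fun x : E n => ENNReal.ofReal (‖x‖ ^ (-beta n α q) * |u x| ^ q)) := by
  apply AEMeasurable.ennreal_ofReal
  apply AEMeasurable.mul
  · apply Measurable.aemeasurable; fun_prop
  · exact hu.abs.pow_const q


end

end NRX
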