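import Pool.Agent.NRX.Stmts

/-!
# Squad NRX, module ENE: the energies of `(x_i/|x|) u`
-/

set_option autoImplicit false

namespace NRX

open MeasureTheory InnerProductSpace Laplacian Topology ENNReal
open Filter hiding ker
open Pool.Agent.Helper52.CKN

namespace ENE_

noncomputable section

variable {n : ℕ}

theorem sum_ps_sq {x : E n} (hx : x ≠ 0) : ∑ i, ps i x ^ 2 = 1 := by
  have h0 : ‖x‖ ≠ 0 := norm_ne_zero_iff.mpr hx
  unfold ps
  have h1 : ‖x‖ ^ 2 = ∑ i, x i ^ 2 := by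
    rw [EuclideanSpace.norm_sq_eq]; simp
  simp_rw [div_pow]
  rw [← Finset.sum_div, ← h1, div_self (pow_ne_zero 2 h0)]

theorem ps_sq_le {x : E n} (hx : x ≠ 0) (i : Fin n) : ps i x ^ 2 ≤ 1 := by
  rw [← sum_ps_sq hx]
  exact Finset.single_le_sum (f := fun i => ps i x ^ 2) (fun j _ => sq_nonneg _) (Finset.mem_univ i)

theorem ps_meas (i : Fin n) : Measurable (fun x : E n => ps i x) := by
  unfold ps
  fun_prop

theorem pow_meas (a : ℝ) : Measurable (fun x : E n => ‖x‖ ^ a) := by fun_prop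

theorem wsq_ae_mono (hn : 3 ≤ n) {α α' : ℝ} {f g : E n → ℝ}
    (h : ∀ x : E n, x ≠ 0 → ‖x‖ ^ α * f x ^ 2 ≤ ‖x‖ ^ α' * g x ^ 2) : wsq α f ≤ wsq α' g := by
  unfold wsq
  apply lintegral_mono_ae
  filter_upwards [ae_ne hn 0] with x hx
  exact ENNReal.ofReal_le_ofReal (h x hx)

/-- the two sided Young inequality in integrated form -/
theorem wsq_young (hn : 3 ≤ n) {α s l : ℝ} (hs : 0 < s) {f u : E n → ℝ} (hf : AEMeasurable f)
    (hu : AEMeasurable u) :
    wsq α (fun x => f x - l * ‖x‖ ^ (-2 : ℝ) * u x) ≤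
      ENNReal.ofReal (1 + s) * wsq α f + ENNReal.ofReal ((1 + 1 / s) * l ^ 2) * wsq (α - 4) u := by
  have hmf : AEMeasurable (fun x : E n => ENNReal.ofReal (‖x‖ ^ α * f x ^ 2)) :=
    AEMeasurable.ennreal_ofReal ((pow_meas α).aemeasurable.mul (hf.pow_const 2))
  have hmu : AEMeasurable (fun x : E n => ENNReal.ofReal (‖x‖ ^ (α - 4) * u x ^ 2)) :=
    AEMeasurable.ennreal_ofReal ((pow_meas (α - 4)).aemeasurable.mul (hu.pow_const 2))
  unfold wsq
  rw [← lintegral_const_mul'' _ hmf, ← lintegral_const_mul'' _ hmu,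
    ← lintegral_add_left' (hmf.const_mul _)]
  apply lintegral_mono_ae
  filter_upwards [ae_ne hn 0] with x hx
  have hx0 : 0 < ‖x‖ := norm_pos_iff.mpr hx
  have e1 : ‖x‖ ^ (α - 4) = ‖x‖ ^ α * (‖x‖ ^ (-2 : ℝ)) ^ 2 := by
    rw [← Real.rpow_natCast (‖x‖ ^ (-2 : ℝ)) 2, ← Real.rpow_mul hx0.le, ← Real.rpow_add hx0]
    congr 1
    push_cast
    ring
  have hp : 0 < ‖x‖ ^ α := by positivity
  have hs1 : 0 < 1 + 1 / s := by positivity
  rw [← ENNReal.ofReal_mul (by positivity), ← ENNReal.ofReal_mul (by positivity),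
    ← ENNReal.ofReal_add (by positivity) (by positivity)]
  apply ENNReal.ofReal_le_ofReal
  rw [e1]
  set t := ‖x‖ ^ (-2 : ℝ)
  have key : (f x - l * t * u x) ^ 2 ≤ (1 + s) * f x ^ 2 + (1 + 1 / s) * (l * t * u x) ^ 2 := by
    have h1 : (1 + s) * f x ^ 2 + (1 + 1 / s) * (l * t * u x) ^ 2 - (f x - l * t * u x) ^ 2
        = (s * f x + l * t * u x) ^ 2 / s := by
      field_simp
      ring
    have h2 : 0 ≤ (s * f x + l * t * u x) ^ 2 / s := by positivity
    linarith
  have := mul_le_mul_of_nonneg_left key hp.le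
  refine le_trans this (le_of_eq ?_)
  ring

theorem sum_wsq (hn : 3 ≤ n) {α : ℝ} {G : E n → ℝ} (hG : AEMeasurable G) :
    ∑ i, wsq α (fun x => ps i x * G x) = wsq α G := by
  unfold wsq
  rw [← lintegral_finsetSum']
  · apply lintegral_congr_ae
    filter_upwards [ae_ne hn 0] with x hx
    rw [← ENNReal.ofReal_sum_of_nonneg (fun i _ => by positivity)]
    congr 1
    calc ∑ i, ‖x‖ ^ α * (ps i x * G x) ^ 2 = (∑ i, ps i x ^ 2) * (‖x‖ ^ α * G x ^ 2) := by
          rw [Finset.sum_mul]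
          apply Finset.sum_congr rfl
          intro i _
          ring
      _ = ‖x‖ ^ α * G x ^ 2 := by rw [sum_ps_sq hx, one_mul]
  · intro i _
    exact AEMeasurable.ennreal_ofReal ((pow_meas α).aemeasurable.mul
      (((ps_meas i).aemeasurable.mul hG).pow_const 2))

end

end ENE_

open ENE_ in
theorem ene_proof (hREL : Stmt_REL) (hPRD : Stmt_PRD) (hDUA : Stmt_DUA) : Stmt_ENE := by
  intro n α f u hn h1 h2 hfm hfw hu hrad
  have hn3 : (3 : ℝ) ≤ n := by exact_mod_cast hn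
  have hgm : 0 < gm n α := gm_pos h1 h2
  have hl : 0 < (n : ℝ) - 1 := by linarith
  set s : ℝ := ((n : ℝ) - 1) / gm n α with hsdef
  have hs : 0 < s := div_pos hl hgm
  have hum : AEMeasurable u := by
    rw [hu]
    exact (pot_aestronglyMeasurable hfm).aemeasurable.const_mul _
  have hwu : wsq (α - 4) u ≤ ENNReal.ofReal ((gm n α)⁻¹ ^ 2) * wsq α f := by
    have h3 := hREL n α f hn h1 h2 hfm hfw
    refine le_trans (le_of_eq ?_) h3
    unfold wsq
    congr 1
    funext x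
    rw [hu]
    congr 2
    ring
  have hwu' : wsq (α - 4) u < ∞ := lt_of_le_of_lt hwu (ENNReal.mul_lt_top ENNReal.ofReal_lt_top hfw)
  set G : E n → ℝ := fun x => f x - ((n : ℝ) - 1) * ‖x‖ ^ (-2 : ℝ) * u x with hG
  have hGm : AEMeasurable G :=
    hfm.sub (((pow_meas (-2 : ℝ)).aemeasurable.const_mul _).mul hum)
  have hGw : wsq α G ≤ ENNReal.ofReal ((1 + s) ^ 2) * wsq α f := by
    refine le_trans (wsq_young hn hs hfm hum) ?_
    refine le_trans (add_le_add_right (mul_le_mul' le_rfl hwu) _) ?_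
    rw [← mul_assoc, ← add_mul, ← ENNReal.ofReal_mul (by positivity),
      ← ENNReal.ofReal_add (by positivity) (by positivity)]
    refine mul_le_mul' (ENNReal.ofReal_le_ofReal (le_of_eq ?_)) le_rfl
    have e1 : (gm n α)⁻¹ ^ 2 * ((n : ℝ) - 1) ^ 2 = s ^ 2 := by
      rw [hsdef]; field_simp
    have e2 : (1 + 1 / s) * ((n : ℝ) - 1) ^ 2 * (gm n α)⁻¹ ^ 2 = (1 + 1 / s) * s ^ 2 := by
      rw [← e1]; ring
    rw [e2]
    field_simp
    ring
  have hgw : ∀ i, wsq α (fun x => ps i x * G x) < ∞ := by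
    intro i
    refine lt_of_le_of_lt ?_ (lt_of_le_of_lt hGw (ENNReal.mul_lt_top ENNReal.ofReal_lt_top hfw))
    rw [← sum_wsq hn hGm]
    exact Finset.single_le_sum (f := fun i => wsq α (fun x => ps i x * G x)) (fun j _ => zero_le)
      (Finset.mem_univ i)
  have hgm' : ∀ i : Fin n, AEMeasurable (fun x => ps i x * G x) := fun i =>
    (ps_meas i).aemeasurable.mul hGm
  refine ⟨fun i x => ps i x * G x, hgm', hgw, ?_, ?_⟩
  · intro i
    apply hDUA n α (fun x => ps i x * u x) (fun x => ps i x * G x) hn h1 h2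
      ((ps_meas i).aemeasurable.mul hum) (hgm' i) ?_ (hgw i)
    · intro η hη
      exact hPRD n α f u η i hn h1 h2 hfm hfw hu hrad hη
    · refine lt_of_le_of_lt (wsq_ae_mono hn ?_) hwu'
      intro x hx
      have h4 := ps_sq_le hx i
      have h5 : 0 ≤ ‖x‖ ^ (α - 4) := by positivity
      apply mul_le_mul_of_nonneg_left _ h5
      rw [mul_pow]
      nlinarith [sq_nonneg (u x)]
  · rw [sum_wsq hn hGm]
    exact hGw

end NRX
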