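import Pool.Agent.NRX.Stmts

/-!
# Squad NRX, module EXM: existence of a maximiser
-/

set_option autoImplicit false

namespace NRX

open MeasureTheory InnerProductSpace Laplacian Topology ENNReal
open Filter hiding ker
open Pool.Agent.Helper52.CKN

namespace EXM_

theorem exists_seq (n : ℕ) (α q : ℝ) : ∃ f : ℕ → E n → ℝ, (∀ k, AEMeasurable (f k)) ∧
    (∀ k, wsq α (f k) ≤ 1) ∧
    Tendsto (fun k => WS α q Set.univ (pot (f k))) atTop (𝓝 (MM n α q)) := by
  set S : Set ℝ≥0∞ := {w | ∃ f : E n → ℝ, AEMeasurable f ∧ wsq α f ≤ 1 ∧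
    w = WS α q Set.univ (pot f)} with hS
  have hMS : MM n α q = sSup S := by
    apply le_antisymm
    · unfold MM
      exact iSup_le fun f => iSup_le fun hf => iSup_le fun hw => le_sSup ⟨f, hf, hw, rfl⟩
    · apply sSup_le
      rintro w ⟨f, hf, hw, rfl⟩
      unfold MM
      exact le_iSup_of_le f (le_iSup_of_le hf (le_iSup_of_le hw le_rfl))
  have hne : S.Nonempty := ⟨_, fun _ => 0, aemeasurable_const, by unfold wsq; simp, rfl⟩
  obtain ⟨u, -, hu, hmem⟩ := exists_seq_tendsto_sSup hne (OrderTop.bddAbove S)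
  choose f hf hw hfu using hmem
  refine ⟨f, hf, hw, ?_⟩
  rw [hMS]
  have : (fun k => WS α q Set.univ (pot (f k))) = u := by
    funext k
    exact (hfu k).symm
  rw [this]
  exact hu

theorem lt_one_aux (θ q : ℝ) (hq : 2 < q) (h0 : 0 < θ) (h1 : θ < 1) :
    θ ^ (q / 2) + (1 - θ) ^ (q / 2) < 1 := by
  have hq2 : 1 < q / 2 := by linarith
  have e1 : θ ^ (q / 2) < θ := by
    have := Real.rpow_lt_rpow_of_exponent_gt h0 h1 hq2
    rwa [Real.rpow_one] at this
  have e2 : (1 - θ) ^ (q / 2) ≤ 1 - θ := by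
    have := Real.rpow_le_rpow_of_exponent_ge (by linarith : 0 < 1 - θ) (by linarith) hq2.le
    rwa [Real.rpow_one] at this
  linarith

end EXM_

open EXM_

theorem exm_proof (hINA : Stmt_INA) (hINB : Stmt_INB) (hHKL : Stmt_HKL) (hCSP : Stmt_CSP)
    (hHOM : Stmt_HOM) (hNVN : Stmt_NVN) (hWCP : Stmt_WCP) (hSPL : Stmt_SPL) : Stmt_EXM := by
  intro n α q h
  obtain ⟨hM0, hMt, hHom⟩ := hHOM n α q h
  have hn := h.n3
  obtain ⟨f0, hf0m, hf0w, hf0t⟩ := exists_seq n α q
  set M := MM n α q with hM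
  have hMr : 0 < M.toReal := ENNReal.toReal_pos hM0.ne' hMt.ne
  have hlt : ENNReal.ofReal (M.toReal / 2) < M := by
    conv_rhs => rw [← ENNReal.ofReal_toReal hMt.ne]
    apply (ENNReal.ofReal_lt_ofReal_iff hMr).mpr
    linarith
  obtain ⟨N, hN⟩ := eventually_atTop.mp (hf0t.eventually_const_lt hlt)
  obtain ⟨m, c, hm, hc, hpt⟩ := hNVN n α q (M.toReal / 2) h (by linarith)
  have hpt' : ∀ k : ℕ, ∃ x : E n, x ≠ 0 ∧ c ≤ ‖x‖ ^ ea n α * |potl α m (f0 (k + N)) x| :=
    fun k => hpt _ (hf0m _) (hf0w _) (hN (k + N) (by omega)).le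
  choose x hx0 hxc using hpt'
  -- a unit vector
  set e : E n := EuclideanSpace.single (⟨0, by omega⟩ : Fin n) (1 : ℝ) with he
  have he1 : ‖e‖ = 1 := by rw [he]; simp
  have he0 : e ≠ 0 := by
    intro h0
    rw [h0, norm_zero] at he1
    norm_num at he1
  have htr := (hINA n α 1 (LinearIsometryEquiv.refl ℝ (E n)) hn one_pos).2.2
  have htr' : ∀ k : ℕ, ∃ (l : ℝ) (ρ : E n ≃ₗᵢ[ℝ] E n), 0 < l ∧ l • ρ e = x k :=
    fun k => htr (x k) e (hx0 k) he1
  choose l ρ hl hle using htr'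
  set g : ℕ → E n → ℝ := fun k => act α (l k) (ρ k) (f0 (k + N)) with hg
  have hinb := fun k => hINB n α (l k) (ρ k) (f0 (k + N)) hn h.a1 h.a2 (hl k) (hf0m _)
  have hgm : ∀ k, AEMeasurable (g k) := fun k => (hinb k).1
  have hgw : ∀ k, wsq α (g k) ≤ 1 := fun k => by
    have := (hinb k).2.1
    show wsq α (act α (l k) (ρ k) (f0 (k + N))) ≤ 1
    rw [this]
    exact hf0w _
  have hgp : ∀ k, c ≤ |potl α m (g k) e| := by
    intro k
    have h1 := (hinb k).2.2.1 m e
    rw [hle, he1, Real.one_rpow, one_mul] at h1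
    show c ≤ |potl α m (act α (l k) (ρ k) (f0 (k + N))) e|
    rw [h1, abs_mul, abs_of_nonneg (Real.rpow_nonneg (norm_nonneg _) _)]
    exact hxc k
  have hgW : ∀ k, WS α q Set.univ (pot (g k)) = WS α q Set.univ (pot (f0 (k + N))) :=
    fun k => (hinb k).2.2.2 q
  -- weak limit
  obtain ⟨σ, f, hσ, hfm, hfw, hWC⟩ := hWCP n α g hn hgm hgw
  obtain ⟨C, hC, hHK⟩ := hHKL n α m hn h.a1 h.a2 (by linarith)
  obtain ⟨hkm, hkw⟩ := hHK e he0
  have hkt : wsq (-α) (kel α m e) < ∞ := lt_of_le_of_lt hkw ENNReal.ofReal_lt_top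
  have hlim := hWC (kel α m e) hkm.aemeasurable hkt
  have hpl : ∀ u : E n → ℝ, ∫ y, u y * kel α m e y = potl α m u e := by
    intro u
    unfold potl
    congr 1
    funext y
    rw [mul_comm]
  simp only [hpl] at hlim
  have hfc : c ≤ |potl α m f e| := by
    refine ge_of_tendsto hlim.abs (Eventually.of_forall fun k => ?_)
    exact hgp (σ k)
  have hfwt : wsq α f < ∞ := lt_of_le_of_lt hfw ENNReal.one_lt_top
  have hfw0 : wsq α f ≠ 0 := by
    intro h0
    have h1 := (hCSP n α f (kel α m e) hn hfm hkm.aemeasurable hfwt hkt).2.1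
    rw [hpl, h0] at h1
    simp at h1
    rw [h1, abs_zero] at hfc
    linarith
  set θ : ℝ := (wsq α f).toReal with hθ
  have hθ0 : 0 < θ := ENNReal.toReal_pos hfw0 hfwt.ne
  have hθ1 : θ ≤ 1 := by
    have := ENNReal.toReal_mono ENNReal.one_ne_top hfw
    simpa using this
  have hθw : wsq α f = ENNReal.ofReal θ := (ENNReal.ofReal_toReal hfwt.ne).symm
  have htend : Tendsto (fun k => WS α q Set.univ (pot (g (σ k)))) atTop (𝓝 M) := by
    simp only [hgW]
    have h1 : Tendsto (fun k => σ k + N) atTop atTop :=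
      (tendsto_add_atTop_nat N).comp hσ.tendsto_atTop
    exact hf0t.comp h1
  have hspl := hSPL n α q (fun k => g (σ k)) f h (fun k => hgm _) (fun k => hgw _) hfm hfw hWC
    htend
  have hhom := hHom f hfm hfwt
  rw [hθw, ENNReal.ofReal_rpow_of_pos hθ0] at hhom
  rw [← hθ, ← hM] at hspl
  have hθ1' : θ = 1 := by
    by_contra hne
    have hlt1 : θ < 1 := lt_of_le_of_ne hθ1 hne
    have h1 := hspl.trans (add_le_add_left hhom _)
    rw [← mul_add, ← ENNReal.ofReal_add (by positivity)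
      (Real.rpow_nonneg (by linarith) _)] at h1
    have h2 := lt_one_aux θ q h.q2 hθ0 hlt1
    have h3 : M * ENNReal.ofReal (θ ^ (q / 2) + (1 - θ) ^ (q / 2)) < M * 1 := by
      apply (ENNReal.mul_lt_mul_iff_right hM0.ne' hMt.ne).mpr
      rw [← ENNReal.ofReal_one]
      exact (ENNReal.ofReal_lt_ofReal_iff one_pos).mpr h2
    rw [mul_one] at h3
    exact absurd h1 (not_le.mpr h3)
  refine ⟨f, hfm, by rw [hθw, hθ1', ENNReal.ofReal_one], le_antisymm ?_ ?_⟩
  · rw [hθ1'] at hhom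
    simpa using hhom
  · rw [hθ1'] at hspl
    have hq : 0 < q := by linarith [h.q2]
    simpa [Real.zero_rpow (by positivity : q / 2 ≠ 0)] using hspl

end NRX
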