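import Pool.Agent.NRX.Stmts

/-!
# Squad NRX: existence of extremals from the existence of a maximiser
-/

set_option autoImplicit false

namespace NRX

open MeasureTheory InnerProductSpace Laplacian Topology ENNReal
open Filter hiding ker
open Pool.Agent.Helper52.CKN

theorem weightedInt_congr {n : ℕ} {α q : ℝ} {u v : E n → ℝ} (h : u =ᵐ[volume] v) :
    weightedInt α q u = weightedInt α q v := by
  unfold weightedInt
  apply lintegral_congr_ae
  filter_upwards [h] with x hx
  rw [hx]

theorem pot_zero_of_ae {n : ℕ} {f : E n → ℝ} (h : f =ᵐ[volume] 0) (x : E n) : pot f x = 0 := by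
  unfold pot
  rw [integral_eq_zero_of_ae]
  filter_upwards [h] with y hy
  rw [hy]
  simp

theorem exists_extremal (hEXM : Stmt_EXM) (hHOM : Stmt_HOM) (hMNK : Stmt_MNK) {n : ℕ} {α q : ℝ}
    (h : Adm n α q) : ∃ u : E n → ℝ, IsExtremal n α q u := by
  obtain ⟨f, hfm, hf1, hfM⟩ := hEXM n α q h
  obtain ⟨hM0, hMt, hHom⟩ := hHOM n α q h
  have hn := h.n3
  have hq : 0 < q := by linarith [h.q2]
  have hκ := kap_pos hn
  have hmnk := (hMNK n α q Set.univ (by linarith [h.q2]) MeasurableSet.univ).2.1
  set c : ℝ≥0∞ := ENNReal.ofReal (|(-(kap n)⁻¹)| ^ q) with hc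
  have hc0 : c ≠ 0 := by
    rw [hc]
    have : 0 < |(-(kap n)⁻¹)| ^ q := by
      have : 0 < |(-(kap n)⁻¹)| := abs_pos.mpr (neg_ne_zero.mpr (inv_ne_zero hκ.ne'))
      positivity
    simpa using this
  have hct : c ≠ ∞ := ENNReal.ofReal_ne_top
  have hW : ∀ g : E n → ℝ, weightedInt α q (fun x => -(kap n)⁻¹ * pot g x) =
      c * WS α q Set.univ (pot g) := by
    intro g
    rw [← WS_univ, hmnk]
  refine ⟨fun x => -(kap n)⁻¹ * pot f x, ?_, ?_, 1, ?_, ?_⟩
  · intro h0
    have h1 : weightedInt α q (fun x => -(kap n)⁻¹ * pot f x) = 0 := by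
      rw [weightedInt_congr h0]
      unfold weightedInt
      simp [Real.zero_rpow hq.ne']
    rw [hW, hfM] at h1
    rcases mul_eq_zero.mp h1 with h2 | h2
    · exact hc0 h2
    · exact hM0.ne' h2
  · rw [hW, hfM]
    exact ENNReal.mul_ne_top hct hMt.ne
  · have := hasEnergy_pot hn h.a1 h.a2 hfm (by rw [hf1]; exact ENNReal.one_lt_top)
    rw [hf1] at this
    exact this
  · apply le_antisymm
    · unfold bestConst
      refine le_iInf fun v => le_iInf fun e => le_iInf fun he => le_iInf fun hv => ?_
      obtain ⟨g, hgm, hgw, heg, hvg⟩ := repr_of_hasEnergy hn h.a1 h.a2 he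
      have he0 : e ≠ 0 := by
        intro h0
        apply hv
        have hg0 := ae_zero_of_wsq hn hgm (heg.symm.trans h0)
        filter_upwards [hvg] with x hx
        rw [hx, pot_zero_of_ae hg0]
        simp
      have het : e ≠ ∞ := by rw [heg]; exact hgw.ne
      have hWv : weightedInt α q v ≤ c * MM n α q * e ^ (q / 2) := by
        rw [weightedInt_congr hvg, hW, mul_assoc, heg]
        exact mul_le_mul_right (hHom g hgm hgw) c
      rw [hW, hfM]
      have hA0 : c * MM n α q ≠ 0 := mul_ne_zero hc0 hM0.ne'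
      have hAt : c * MM n α q ≠ ∞ := ENNReal.mul_ne_top hct hMt.ne
      have h2q : 0 < 2 / q := by positivity
      have h3 : weightedInt α q v ^ (2 / q) ≤ (c * MM n α q) ^ (2 / q) * e := by
        have h4 := ENNReal.rpow_le_rpow hWv h2q.le
        refine h4.trans (le_of_eq ?_)
        rw [ENNReal.mul_rpow_of_nonneg _ _ h2q.le, ← ENNReal.rpow_mul]
        have : q / 2 * (2 / q) = 1 := by field_simp
        rw [this, ENNReal.rpow_one]
      have hB0 : (c * MM n α q) ^ (2 / q) ≠ 0 := by
        rw [Ne, ENNReal.rpow_eq_zero_iff_of_pos h2q]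
        exact hA0
      have hBt : (c * MM n α q) ^ (2 / q) ≠ ∞ := ENNReal.rpow_ne_top_of_nonneg h2q.le hAt
      rw [ENNReal.div_le_iff hB0 hBt]
      generalize (c * MM n α q) ^ (2 / q) = B at *
      generalize weightedInt α q v ^ (2 / q) = V at *
      by_cases hV0 : V = 0
      · rw [hV0, ENNReal.div_zero he0, ENNReal.top_mul hB0]
        exact le_top
      · have hVt : V ≠ ∞ := ne_top_of_le_ne_top (ENNReal.mul_ne_top hBt het) h3
        calc (1 : ℝ≥0∞) = V / V := (ENNReal.div_self hV0 hVt).symm
          _ ≤ B * e / V := ENNReal.div_le_div_right h3 V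
          _ = e / V * B := by rw [mul_comm B e, ENNReal.mul_div_right_comm]
    · unfold bestConst
      refine iInf_le_of_le (fun x => -(kap n)⁻¹ * pot f x) (iInf_le_of_le 1
        (iInf_le_of_le ?_ (iInf_le_of_le ?_ le_rfl)))
      · have := hasEnergy_pot hn h.a1 h.a2 hfm (by rw [hf1]; exact ENNReal.one_lt_top)
        rw [hf1] at this
        exact this
      · intro h0
        have h1 : weightedInt α q (fun x => -(kap n)⁻¹ * pot f x) = 0 := by
          rw [weightedInt_congr h0]
          unfold weightedInt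
          simp [Real.zero_rpow hq.ne']
        rw [hW, hfM] at h1
        rcases mul_eq_zero.mp h1 with h2 | h2
        · exact hc0 h2
        · exact hM0.ne' h2

end NRX
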