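import Pool.Agent.NRX.Stmts

/-!
# NRX.HKL: the truncated kernel
-/

set_option autoImplicit false

namespace NRX

open MeasureTheory InnerProductSpace Laplacian Topology ENNReal
open Filter hiding ker
open Pool.Agent.Helper52.CKN

namespace HKL_

variable {n : ℕ}

lemma meas_ker (x : E n) : Measurable (fun y : E n => ker x y) := by
  unfold ker
  fun_prop

lemma meas_kk (α : ℝ) (x : E n) : Measurable (fun y : E n => kk α x y) := by
  have h := meas_ker x
  unfold kk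
  fun_prop

lemma meas_kel (α m : ℝ) (x : E n) : Measurable (kel α m x) := by
  unfold kel
  exact Measurable.ite (measurableSet_le (meas_kk α x) measurable_const) (meas_ker x)
    measurable_const

lemma ker_nonneg (x y : E n) : 0 ≤ ker x y := by
  unfold ker
  positivity

lemma kk_nonneg (α : ℝ) (x y : E n) : 0 ≤ kk α x y := by
  unfold kk
  have := ker_nonneg x y
  positivity

lemma point (α : ℝ) {m : ℝ} (hm : 0 < m) {x y : E n} (hx : x ≠ 0) (hy : y ≠ 0) :
    ‖y‖ ^ (-α) * kel α m x y ^ 2 ≤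
      m * ‖x‖ ^ (-(2 * ea n α)) * (‖y‖ ^ (-(n : ℝ)) * kk α x y) := by
  have hx0 : 0 < ‖x‖ := norm_pos_iff.mpr hx
  have hy0 : 0 < ‖y‖ := norm_pos_iff.mpr hy
  have hk := kk_nonneg α x y
  have h0 := ker_nonneg x y
  by_cases h : kk α x y ≤ m
  · have e1 : kel α m x y = ker x y := by unfold kel; rw [if_pos h]
    rw [e1]
    have e2 : ‖y‖ ^ (-α) * ker x y ^ 2 =
        ‖x‖ ^ (-(2 * ea n α)) * (‖y‖ ^ (-(n : ℝ)) * (kk α x y * kk α x y)) := by
      unfold kk
      have e3 : ‖x‖ ^ (-(2 * ea n α)) * (‖x‖ ^ ea n α * ‖x‖ ^ ea n α) = 1 := by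
        rw [← Real.rpow_add hx0, ← Real.rpow_add hx0]
        have : -(2 * ea n α) + (ea n α + ea n α) = 0 := by ring
        rw [this, Real.rpow_zero]
      have e4 : ‖y‖ ^ (-(n : ℝ)) * (‖y‖ ^ eb n α * ‖y‖ ^ eb n α) = ‖y‖ ^ (-α) := by
        rw [← Real.rpow_add hy0, ← Real.rpow_add hy0]
        have : -(n : ℝ) + (eb n α + eb n α) = -α := by unfold eb; ring
        rw [this]
      calc ‖y‖ ^ (-α) * ker x y ^ 2
          = (‖x‖ ^ (-(2 * ea n α)) * (‖x‖ ^ ea n α * ‖x‖ ^ ea n α)) *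
            ((‖y‖ ^ (-(n : ℝ)) * (‖y‖ ^ eb n α * ‖y‖ ^ eb n α)) * ker x y ^ 2) := by
              rw [e3, e4, one_mul]
        _ = _ := by ring
    rw [e2]
    have h1 : 0 ≤ ‖x‖ ^ (-(2 * ea n α)) := by positivity
    have h2 : 0 ≤ ‖y‖ ^ (-(n : ℝ)) := by positivity
    calc ‖x‖ ^ (-(2 * ea n α)) * (‖y‖ ^ (-(n : ℝ)) * (kk α x y * kk α x y))
        ≤ ‖x‖ ^ (-(2 * ea n α)) * (‖y‖ ^ (-(n : ℝ)) * (m * kk α x y)) := by gcongr
      _ = _ := by ring
  · have e1 : kel α m x y = 0 := by unfold kel; rw [if_neg h]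
    rw [e1]
    push Not at h
    have h3 : ‖y‖ ^ (-α) * (0 : ℝ) ^ 2 = 0 := by ring
    rw [h3]
    positivity

end HKL_

open HKL_

theorem hkl_proof (hKIN : Stmt_KIN) : Stmt_HKL := by
  intro n α m hn h1 h2 hm
  have hn' : (3 : ℝ) ≤ n := by exact_mod_cast hn
  obtain ⟨C, hC, hC1, -⟩ := hKIN n α 1 hn h1 h2 le_rfl (by linarith)
  refine ⟨m * C.toReal, by positivity, fun x hx => ⟨meas_kel α m x, ?_⟩⟩
  have hc : 0 ≤ m * ‖x‖ ^ (-(2 * ea n α)) := by positivity
  have hmk : Measurable fun y : E n => ENNReal.ofReal (kk α x y) := (meas_kk α x).ennreal_ofReal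
  have hmd : Measurable fun y : E n => ENNReal.ofReal (‖y‖ ^ (-(n : ℝ))) := by
    apply Measurable.ennreal_ofReal
    fun_prop
  calc wsq (-α) (kel α m x)
      ≤ ∫⁻ y, ENNReal.ofReal (m * ‖x‖ ^ (-(2 * ea n α))) *
          (ENNReal.ofReal (‖y‖ ^ (-(n : ℝ))) * ENNReal.ofReal (kk α x y)) := by
        unfold wsq
        apply lintegral_mono_ae
        filter_upwards [ae_ne hn 0] with y hy
        rw [← ENNReal.ofReal_mul (by positivity), ← ENNReal.ofReal_mul hc]
        exact ENNReal.ofReal_le_ofReal (point α hm hx hy)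
    _ = ENNReal.ofReal (m * ‖x‖ ^ (-(2 * ea n α))) *
          ∫⁻ y, ENNReal.ofReal (‖y‖ ^ (-(n : ℝ))) * ENNReal.ofReal (kk α x y) := by
        exact lintegral_const_mul _ (hmd.mul hmk)
    _ = ENNReal.ofReal (m * ‖x‖ ^ (-(2 * ea n α))) *
          ∫⁻ y, ENNReal.ofReal (kk α x y) ^ (1 : ℝ) ∂(mu n) := by
        congr 1
        unfold mu
        rw [lintegral_withDensity_eq_lintegral_mul _ hmd (hmk.pow_const _)]
        simp only [ENNReal.rpow_one, Pi.mul_apply]
    _ ≤ ENNReal.ofReal (m * ‖x‖ ^ (-(2 * ea n α))) * C := by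
        gcongr
        exact hC1 x hx
    _ = ENNReal.ofReal (m * C.toReal * ‖x‖ ^ (-(2 * ea n α))) := by
        conv_lhs => rw [← ENNReal.ofReal_toReal hC.ne]
        rw [← ENNReal.ofReal_mul hc]
        congr 1
        ring

end NRX
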