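import Pool.Agent.NRX.Stmts

/-!
# Squad NRX, module HOM: homogeneity and the supremum
-/

set_option autoImplicit false

namespace NRX

open MeasureTheory InnerProductSpace Laplacian Topology ENNReal
open Filter hiding ker
open Pool.Agent.Helper52.CKN

namespace HOM_

variable {n : ℕ}

theorem enorm_pot_le (f : E n → ℝ) (x : E n) :
    ENNReal.ofReal |pot f x| ≤ ∫⁻ y, ENNReal.ofReal (ker x y * |f y|) := by
  have h1 : ENNReal.ofReal |pot f x| = ‖pot f x‖ₑ := by
    rw [← ofReal_norm, Real.norm_eq_abs]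
  rw [h1]
  unfold pot
  refine le_trans (enorm_integral_le_lintegral_enorm _) ?_
  apply le_of_eq
  apply lintegral_congr
  intro y
  rw [← ofReal_norm, Real.norm_eq_abs, abs_mul, abs_of_nonneg (ker_nonneg x y)]

theorem ws_pot_le (α q : ℝ) (hq : 0 ≤ q) (f : E n → ℝ) :
    WS α q Set.univ (pot f) ≤ ∫⁻ x, ENNReal.ofReal (‖x‖ ^ (-beta n α q)) *
      (∫⁻ y, ENNReal.ofReal (ker x y * |f y|)) ^ q := by
  unfold WS
  rw [Measure.restrict_univ]
  apply lintegral_mono
  intro x
  show ENNReal.ofReal (‖x‖ ^ (-beta n α q) * |pot f x| ^ q) ≤ _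
  rw [ENNReal.ofReal_mul (by positivity), ← ENNReal.ofReal_rpow_of_nonneg (abs_nonneg _) hq]
  exact mul_le_mul' le_rfl (ENNReal.rpow_le_rpow (enorm_pot_le f x) hq)

theorem pot_smul (s : ℝ) (g : E n → ℝ) : pot (fun y => s * g y) = fun x => s * pot g x := by
  funext x
  unfold pot
  rw [← integral_const_mul]
  congr 1
  funext y
  ring

theorem wsq_smul (α s : ℝ) (g : E n → ℝ) :
    wsq α (fun y => s * g y) = ENNReal.ofReal (s ^ 2) * wsq α g := by
  unfold wsq
  rw [← lintegral_const_mul' _ _ ENNReal.ofReal_ne_top]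
  apply lintegral_congr
  intro y
  rw [← ENNReal.ofReal_mul (sq_nonneg s)]
  congr 1
  ring

theorem pot_zero_ae {f : E n → ℝ} (hf : f =ᵐ[volume] 0) (x : E n) : pot f x = 0 := by
  unfold pot
  rw [integral_eq_zero_of_ae]
  filter_upwards [hf] with y hy
  rw [hy]
  simp

theorem ws_le (hMNK : Stmt_MNK) {α q : ℝ} (h : Adm n α q) (f : E n → ℝ) (hf : AEMeasurable f)
    (hw : wsq α f < ∞) : WS α q Set.univ (pot f) ≤ MM n α q * wsq α f ^ (q / 2) := by
  have hq : 0 < q := by have := h.q2; linarith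
  by_cases h0 : wsq α f = 0
  · have hae := ae_zero_of_wsq h.n3 hf h0
    have : WS α q Set.univ (pot f) = 0 := by
      unfold WS
      simp only [pot_zero_ae hae, abs_zero, Real.zero_rpow hq.ne', mul_zero, ENNReal.ofReal_zero,
        lintegral_zero]
    rw [this]
    exact zero_le
  · set e : ℝ := (wsq α f).toReal with he
    have hepos : 0 < e := ENNReal.toReal_pos h0 hw.ne
    have hee : wsq α f = ENNReal.ofReal e := (ENNReal.ofReal_toReal hw.ne).symm
    set s : ℝ := √e with hs
    have hspos : 0 < s := Real.sqrt_pos.mpr hepos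
    have hs2 : s ^ 2 = e := Real.sq_sqrt hepos.le
    set g : E n → ℝ := fun y => s⁻¹ * f y with hg
    have hgm : AEMeasurable g := hf.const_mul _
    have hgw : wsq α g ≤ 1 := by
      rw [hg, wsq_smul, hee, ← ENNReal.ofReal_mul (by positivity), inv_pow, hs2,
        inv_mul_cancel₀ hepos.ne', ENNReal.ofReal_one]
    have hfg : f = fun y => s * g y := by
      funext y
      rw [hg]
      simp only
      rw [← mul_assoc, mul_inv_cancel₀ hspos.ne', one_mul]
    have h1 : WS α q Set.univ (pot g) ≤ MM n α q := by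
      unfold MM
      exact le_iSup_of_le g (le_iSup_of_le hgm (le_iSup_of_le hgw le_rfl))
    have h2 : WS α q Set.univ (pot f) = ENNReal.ofReal (|s| ^ q) * WS α q Set.univ (pot g) := by
      rw [hfg, pot_smul]
      exact (hMNK n α q Set.univ (by have := h.q2; linarith) MeasurableSet.univ).2.1 s (pot g)
    rw [h2, mul_comm]
    have h3 : ENNReal.ofReal (|s| ^ q) = wsq α f ^ (q / 2) := by
      rw [hee, ENNReal.ofReal_rpow_of_pos hepos, abs_of_pos hspos]
      congr 1
      rw [← hs2, ← Real.rpow_natCast, ← Real.rpow_mul hspos.le]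
      congr 1
      push_cast
      ring
    rw [h3]
    exact mul_le_mul' h1 le_rfl

theorem mm_lt_top (hBND : Stmt_BND) {α q : ℝ} (h : Adm n α q) : MM n α q < ∞ := by
  obtain ⟨C, hC, hb⟩ := hBND n α q h
  have hq : 0 < q := by have := h.q2; linarith
  refine lt_of_le_of_lt ?_ hC
  unfold MM
  refine iSup_le fun f => iSup_le fun hf => iSup_le fun hw => ?_
  refine le_trans (ws_pot_le α q hq.le f) (le_trans (hb f hf (lt_of_le_of_lt hw one_lt_top)).1 ?_)
  calc C * wsq α f ^ (q / 2) ≤ C * 1 ^ (q / 2) :=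
        mul_le_mul' le_rfl (ENNReal.rpow_le_rpow hw (by positivity))
    _ = C := by rw [ENNReal.one_rpow, mul_one]

/-- the annulus `1 < ‖x‖ < 2` -/
def An (n : ℕ) : Set (E n) := {x | 1 < ‖x‖ ∧ ‖x‖ < 2}

theorem an_open : IsOpen (An n) := by
  unfold An
  exact (isOpen_lt continuous_const continuous_norm).inter
    (isOpen_lt continuous_norm continuous_const)

theorem an_pos (hn : 3 ≤ n) : 0 < (volume : Measure (E n)) (An n) := by
  apply an_open.measure_pos volume
  have := nontrivial_E hn
  obtain ⟨x, hx⟩ := exists_norm_eq (E n) (c := 3 / 2) (by norm_num)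
  exact ⟨x, by rw [An, Set.mem_ofPred_eq, hx]; norm_num⟩

theorem an_fin : (volume : Measure (E n)) (An n) < ∞ := by
  refine lt_of_le_of_lt (measure_mono (t := Metric.ball (0 : E n) 2) ?_) measure_ball_lt_top
  intro x hx
  simpa using hx.2

theorem rpow_le {t α : ℝ} (h1 : 1 < t) (h2 : t < 2) : t ^ α ≤ 2 ^ |α| := by
  calc t ^ α ≤ t ^ |α| := Real.rpow_le_rpow_of_exponent_le h1.le (le_abs_self α)
    _ ≤ 2 ^ |α| := Real.rpow_le_rpow (by linarith) h2.le (abs_nonneg _)

theorem wsq_an (α : ℝ) : wsq α ((An n).indicator fun _ => (1 : ℝ)) < ∞ := by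
  have hle : wsq α ((An n).indicator fun _ => (1 : ℝ)) ≤
      ∫⁻ x : E n, (An n).indicator (fun _ => ENNReal.ofReal (2 ^ |α|)) x := by
    unfold wsq
    apply lintegral_mono
    intro x
    by_cases hx : x ∈ An n
    · simp only [Set.indicator_of_mem hx]
      apply ENNReal.ofReal_le_ofReal
      rw [one_pow, mul_one]
      exact rpow_le hx.1 hx.2
    · simp only [Set.indicator_of_notMem hx]
      simp
  refine lt_of_le_of_lt hle ?_
  rw [lintegral_indicator an_open.measurableSet, setLIntegral_const]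
  exact ENNReal.mul_lt_top ENNReal.ofReal_lt_top an_fin

theorem mm_pos (hMNK : Stmt_MNK) {α q : ℝ} (h : Adm n α q) : 0 < MM n α q := by
  have hq : 0 < q := by have := h.q2; linarith
  by_contra hcon
  have hM : MM n α q = 0 := by simpa using hcon
  set f : E n → ℝ := (An n).indicator fun _ => (1 : ℝ) with hf
  have hfm : Measurable f := measurable_const.indicator an_open.measurableSet
  have hfw : wsq α f < ∞ := wsq_an α
  have h1 := ws_le hMNK h f hfm.aemeasurable hfw
  rw [hM, zero_mul] at h1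
  have h2 : WS α q Set.univ (pot f) = 0 := by simpa using h1
  unfold WS at h2
  rw [Measure.restrict_univ] at h2
  have hpm : AEMeasurable (pot f) := (pot_aestronglyMeasurable hfm.aemeasurable).aemeasurable
  rw [lintegral_eq_zero_iff' (aem_weight hpm)] at h2
  have hne : ∃ x : E n, (Integrable fun y => ker x y * f y) ∧ x ≠ 0 ∧
      ENNReal.ofReal (‖x‖ ^ (-beta n α q) * |pot f x| ^ q) = 0 := by
    have := nontrivial_E h.n3
    have hev : ∀ᵐ x : E n, (Integrable fun y => ker x y * f y) ∧ x ≠ 0 ∧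
      ENNReal.ofReal (‖x‖ ^ (-beta n α q) * |pot f x| ^ q) = 0 := by
      filter_upwards [ae_lintegral_lt_top h.n3 h.a1 h.a2 hfm.aemeasurable hfw, ae_ne h.n3 0, h2]
        with x a b c
      exact ⟨a, b, c⟩
    exact hev.exists
  obtain ⟨x, hx1, hx2, hx3⟩ := hne
  have hnn : ∀ y, 0 ≤ ker x y * f y := by
    intro y
    apply mul_nonneg (ker_nonneg x y)
    rw [hf]
    exact Set.indicator_nonneg (fun _ _ => zero_le_one) y
  have hx4 : pot f x = 0 := by
    have h3 : ‖x‖ ^ (-beta n α q) * |pot f x| ^ q ≤ 0 := ENNReal.ofReal_eq_zero.mp hx3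
    have h4 : 0 < ‖x‖ ^ (-beta n α q) := by
      have := norm_pos_iff.mpr hx2
      positivity
    by_contra hne
    have h5 : 0 < |pot f x| ^ q := Real.rpow_pos_of_pos (abs_pos.mpr hne) q
    have := mul_pos h4 h5
    linarith
  unfold pot at hx4
  rw [integral_eq_zero_iff_of_nonneg hnn hx1] at hx4
  have hz : (volume : Measure (E n)) (An n) = 0 := by
    have hall : ∀ᵐ y : E n, y ∉ An n := by
      filter_upwards [hx4, ae_ne h.n3 x] with y hy hyx hmem
      have h6 : ker x y * f y = 0 := hy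
      have h7 : f y = 1 := by rw [hf]; exact Set.indicator_of_mem hmem _
      rw [h7, mul_one] at h6
      have h8 : 0 < ker x y := by
        unfold ker
        have : 0 < ‖x - y‖ := norm_pos_iff.mpr (sub_ne_zero.mpr (Ne.symm hyx))
        positivity
      linarith
    have := ae_iff.mp hall
    simpa using this
  exact absurd hz (an_pos h.n3).ne'

end HOM_

theorem hom_proof (hBND : Stmt_BND) (hMNK : Stmt_MNK) : Stmt_HOM := by
  intro n α q h
  exact ⟨HOM_.mm_pos hMNK h, HOM_.mm_lt_top hBND h, fun f hf hw => HOM_.ws_le hMNK h f hf hw⟩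

end NRX
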