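import Pool.Agent.NRX.Stmts

/-!
# Squad NRX, module INA: similarities
-/

set_option autoImplicit false

namespace NRX

open MeasureTheory InnerProductSpace Laplacian Topology ENNReal
open Filter hiding ker
open Pool.Agent.Helper52.CKN

namespace INA_

variable {n : ℕ}

theorem lint {l : ℝ} (hl : 0 < l) (ρ : E n ≃ₗᵢ[ℝ] E n) (F : E n → ℝ≥0∞) (hF : Measurable F) :
    ∫⁻ x, F (l • ρ x) = ENNReal.ofReal |(l ^ n)⁻¹| * ∫⁻ z, F z := by
  have hm : Measurable (fun y : E n => F (l • y)) := hF.comp (measurable_const_smul l)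
  have h1 : ∫⁻ x, F (l • ρ x) = ∫⁻ y, F (l • y) :=
    ρ.measurePreserving.lintegral_comp hm
  have h2 : ∫⁻ y, F (l • y) = ∫⁻ z, F z ∂(Measure.map (fun y : E n => l • y) volume) :=
    (lintegral_map hF (measurable_const_smul l)).symm
  rw [h1, h2, Measure.map_addHaar_smul _ hl.ne', lintegral_smul_measure,
    finrank_euclideanSpace_fin]
  rfl

theorem norm_sim {l : ℝ} (hl : 0 < l) (ρ : E n ≃ₗᵢ[ℝ] E n) (x : E n) : ‖l • ρ x‖ = l * ‖x‖ := by
  rw [norm_smul, Real.norm_eq_abs, abs_of_pos hl, LinearIsometryEquiv.norm_map]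

theorem meas_dens : Measurable (fun x : E n => ENNReal.ofReal (‖x‖ ^ (-(n : ℝ)))) := by
  fun_prop

theorem mp {l : ℝ} (hl : 0 < l) (ρ : E n ≃ₗᵢ[ℝ] E n) :
    MeasurePreserving (fun x : E n => l • ρ x) (mu n) (mu n) := by
  have hT : Measurable (fun x : E n => l • ρ x) :=
    (ρ.continuous.const_smul l).measurable
  refine ⟨hT, ?_⟩
  ext S hS
  rw [Measure.map_apply hT hS]
  unfold mu
  rw [withDensity_apply _ (hT hS), withDensity_apply _ hS, ← lintegral_indicator (hT hS),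
    ← lintegral_indicator hS]
  set F : E n → ℝ≥0∞ := S.indicator (fun x : E n => ENNReal.ofReal (‖x‖ ^ (-(n : ℝ)))) with hF
  have hFm : Measurable F := meas_dens.indicator hS
  have hk := lint hl ρ F hFm
  have hln : 0 < l ^ (-(n : ℝ)) := Real.rpow_pos_of_pos hl _
  have habs : |(l ^ n)⁻¹| = l ^ (-(n : ℝ)) := by
    rw [Real.rpow_neg hl.le, Real.rpow_natCast, abs_of_pos (by positivity)]
  have hpt : ∀ x : E n, F (l • ρ x) = ENNReal.ofReal (l ^ (-(n : ℝ))) *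
      ((fun x : E n => l • ρ x) ⁻¹' S).indicator
        (fun x : E n => ENNReal.ofReal (‖x‖ ^ (-(n : ℝ)))) x := by
    intro x
    by_cases hx : l • ρ x ∈ S
    · have hx' : x ∈ (fun x : E n => l • ρ x) ⁻¹' S := hx
      rw [hF, Set.indicator_of_mem hx, Set.indicator_of_mem hx', norm_sim hl,
        Real.mul_rpow hl.le (norm_nonneg _), ENNReal.ofReal_mul hln.le]
    · have hx' : x ∉ (fun x : E n => l • ρ x) ⁻¹' S := hx
      rw [hF, Set.indicator_of_notMem hx, Set.indicator_of_notMem hx', mul_zero]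
  simp_rw [hpt] at hk
  rw [lintegral_const_mul _ (meas_dens.indicator (hT hS)), habs] at hk
  exact (ENNReal.mul_right_inj (by
    rw [Ne, ENNReal.ofReal_eq_zero, not_le]
    exact hln) ENNReal.ofReal_ne_top).1 hk

theorem kk_inv {α l : ℝ} (hl : 0 < l) (ρ : E n ≃ₗᵢ[ℝ] E n) (x y : E n) :
    kk α (l • ρ x) (l • ρ y) = kk α x y := by
  unfold kk ker
  have h1 : l • ρ x - l • ρ y = l • ρ (x - y) := by
    rw [map_sub, smul_sub]
  rw [h1, norm_sim hl, norm_sim hl, norm_sim hl, Real.mul_rpow hl.le (norm_nonneg _),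
    Real.mul_rpow hl.le (norm_nonneg _), Real.mul_rpow hl.le (norm_nonneg _)]
  have h2 : l ^ ea n α * l ^ eb n α * l ^ (2 - (n : ℝ)) = 1 := by
    rw [← Real.rpow_add hl, ← Real.rpow_add hl, ea_add_eb]
    have : ((n : ℝ) - 2 + (2 - n)) = 0 := by ring
    rw [this, Real.rpow_zero]
  calc l ^ ea n α * ‖x‖ ^ ea n α * (l ^ eb n α * ‖y‖ ^ eb n α) *
        (l ^ (2 - (n : ℝ)) * ‖x - y‖ ^ (2 - (n : ℝ)))
      = (l ^ ea n α * l ^ eb n α * l ^ (2 - (n : ℝ))) *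
        (‖x‖ ^ ea n α * ‖y‖ ^ eb n α * ‖x - y‖ ^ (2 - (n : ℝ))) := by ring
    _ = _ := by rw [h2, one_mul]

theorem trans (x e : E n) (hx : x ≠ 0) (he : ‖e‖ = 1) :
    ∃ (l' : ℝ) (ρ' : E n ≃ₗᵢ[ℝ] E n), 0 < l' ∧ l' • ρ' e = x := by
  have hx0 : ‖x‖ ≠ 0 := norm_ne_zero_iff.2 hx
  refine ⟨‖x‖, (ℝ ∙ (e - ‖x‖⁻¹ • x))ᗮ.reflection, norm_pos_iff.2 hx, ?_⟩
  rw [Submodule.reflection_sub]
  · rw [smul_smul, mul_inv_cancel₀ hx0, one_smul]
  · rw [he, norm_smul, norm_inv, norm_norm, inv_mul_cancel₀ hx0]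

end INA_

theorem ina_proof : Stmt_INA := by
  intro n α l ρ _ hl
  exact ⟨INA_.mp hl ρ, fun x y => INA_.kk_inv hl ρ x y, fun x e hx he => INA_.trans x e hx he⟩

end NRX
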