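import Pool.Agent.NRX.Stmts

/-!
# Squad NRX, module INB: the action of similarities on densities
-/

set_option autoImplicit false

namespace NRX

open MeasureTheory InnerProductSpace Laplacian Topology ENNReal
open Filter hiding ker
open Pool.Agent.Helper52.CKN

namespace INB_

variable {n : ℕ}

/-- the similarity as a measurable equivalence -/
noncomputable def T (l : ℝ) (hl : l ≠ 0) (ρ : E n ≃ₗᵢ[ℝ] E n) : E n ≃ᵐ E n :=
  (ρ.toHomeomorph.trans (Homeomorph.smulOfNeZero l hl)).toMeasurableEquiv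

theorem T_apply (l : ℝ) (hl : l ≠ 0) (ρ : E n ≃ₗᵢ[ℝ] E n) (x : E n) :
    T l hl ρ x = l • ρ x := rfl

theorem norm_sim {l : ℝ} (hl : 0 < l) (ρ : E n ≃ₗᵢ[ℝ] E n) (x : E n) : ‖l • ρ x‖ = l * ‖x‖ := by
  rw [norm_smul, Real.norm_eq_abs, abs_of_pos hl, LinearIsometryEquiv.norm_map]

theorem map_T {l : ℝ} (hl : 0 < l) (ρ : E n ≃ₗᵢ[ℝ] E n) :
    Measure.map (T l hl.ne' ρ) volume = ENNReal.ofReal (l ^ (-(n : ℝ))) • volume := by
  have hm : Measurable (fun y : E n => l • y) := measurable_const_smul l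
  have h0 : (T l hl.ne' ρ : E n → E n) = (fun y : E n => l • y) ∘ ρ := rfl
  rw [h0, ← Measure.map_map hm ρ.measurePreserving.measurable, ρ.measurePreserving.map_eq,
    Measure.map_addHaar_smul _ hl.ne', finrank_euclideanSpace_fin]
  congr 2
  rw [Real.rpow_neg hl.le, Real.rpow_natCast, abs_of_pos (by positivity)]

theorem lint {l : ℝ} (hl : 0 < l) (ρ : E n ≃ₗᵢ[ℝ] E n) (F : E n → ℝ≥0∞) :
    ∫⁻ x, F (l • ρ x) = ENNReal.ofReal (l ^ (-(n : ℝ))) * ∫⁻ z, F z := by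
  have h := lintegral_map_equiv (μ := (volume : Measure (E n))) F (T l hl.ne' ρ)
  rw [map_T hl, lintegral_smul_measure] at h
  simp only [T_apply] at h
  rw [← h]
  rfl

theorem bint {l : ℝ} (hl : 0 < l) (ρ : E n ≃ₗᵢ[ℝ] E n) (F : E n → ℝ) :
    ∫ x, F (l • ρ x) = l ^ (-(n : ℝ)) * ∫ z, F z := by
  have h := integral_map_equiv (μ := (volume : Measure (E n))) (T l hl.ne' ρ) F
  rw [map_T hl, integral_smul_measure] at h
  simp only [T_apply] at h
  rw [← h, ENNReal.toReal_ofReal (Real.rpow_nonneg hl.le _)]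
  rfl

theorem act_aem {α l : ℝ} (hl : 0 < l) (ρ : E n ≃ₗᵢ[ℝ] E n) {f : E n → ℝ}
    (hf : AEMeasurable f) : AEMeasurable (act α l ρ f) := by
  have hq : Measure.QuasiMeasurePreserving (T l hl.ne' ρ) volume volume := by
    refine ⟨(T l hl.ne' ρ).measurable, ?_⟩
    rw [map_T hl]
    exact Measure.smul_absolutelyContinuous
  have h := hf.comp_quasiMeasurePreserving hq
  unfold act
  exact h.const_mul _

theorem wsq_act {α l : ℝ} (hl : 0 < l) (ρ : E n ≃ₗᵢ[ℝ] E n) (f : E n → ℝ) :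
    wsq α (act α l ρ f) = wsq α f := by
  unfold wsq
  have hpt : ∀ x : E n, ENNReal.ofReal (‖x‖ ^ α * (act α l ρ f x) ^ 2) =
      ENNReal.ofReal (l ^ (n : ℝ)) *
        (fun z : E n => ENNReal.ofReal (‖z‖ ^ α * f z ^ 2)) (l • ρ x) := by
    intro x
    simp only
    rw [← ENNReal.ofReal_mul (Real.rpow_nonneg hl.le _)]
    congr 1
    unfold act
    rw [norm_sim hl, Real.mul_rpow hl.le (norm_nonneg _), mul_pow, ← Real.rpow_natCast
      (l ^ (ea n α + 2)) 2, ← Real.rpow_mul hl.le]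
    have h1 : l ^ ((ea n α + 2) * ((2 : ℕ) : ℝ)) = l ^ (n : ℝ) * l ^ α := by
      rw [← Real.rpow_add hl]
      congr 1
      unfold ea
      push_cast
      ring
    rw [h1]
    ring
  simp_rw [hpt]
  rw [lintegral_const_mul' _ _ ENNReal.ofReal_ne_top,
    lint hl ρ (fun z : E n => ENNReal.ofReal (‖z‖ ^ α * f z ^ 2)), ← mul_assoc,
    ← ENNReal.ofReal_mul (Real.rpow_nonneg hl.le _), ← Real.rpow_add hl]
  simp

theorem ker_sim {l : ℝ} (hl : 0 < l) (ρ : E n ≃ₗᵢ[ℝ] E n) (x y : E n) :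
    ker x y = l ^ ((n : ℝ) - 2) * ker (l • ρ x) (l • ρ y) := by
  unfold ker
  have h1 : l • ρ x - l • ρ y = l • ρ (x - y) := by
    rw [map_sub, smul_sub]
  rw [h1, norm_sim hl, Real.mul_rpow hl.le (norm_nonneg _), ← mul_assoc, ← Real.rpow_add hl]
  have : ((n : ℝ) - 2 + (2 - n)) = 0 := by ring
  rw [this, Real.rpow_zero, one_mul]

theorem kel_sim {α m l : ℝ} (hl : 0 < l) (ρ : E n ≃ₗᵢ[ℝ] E n)
    (hk : ∀ x y : E n, kk α (l • ρ x) (l • ρ y) = kk α x y) (x y : E n) :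
    kel α m x y = l ^ ((n : ℝ) - 2) * kel α m (l • ρ x) (l • ρ y) := by
  unfold kel
  rw [hk]
  split_ifs
  · exact ker_sim hl ρ x y
  · simp

theorem gen_act {α l : ℝ} (hl : 0 < l) (ρ : E n ≃ₗᵢ[ℝ] E n) (k : E n → E n → ℝ)
    (hk : ∀ x y : E n, k x y = l ^ ((n : ℝ) - 2) * k (l • ρ x) (l • ρ y)) (f : E n → ℝ)
    (x : E n) :
    ∫ y, k x y * act α l ρ f y = l ^ ea n α * ∫ y, k (l • ρ x) y * f y := by
  have hpt : ∀ y : E n, k x y * act α l ρ f y = (l ^ (ea n α + n)) *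
      (fun z : E n => k (l • ρ x) z * f z) (l • ρ y) := by
    intro y
    simp only
    rw [hk x y]
    unfold act
    have h1 : l ^ (ea n α + n) = l ^ ((n : ℝ) - 2) * l ^ (ea n α + 2) := by
      rw [← Real.rpow_add hl]
      congr 1
      ring
    rw [h1]
    ring
  simp_rw [hpt]
  rw [integral_const_mul, bint hl ρ (fun z : E n => k (l • ρ x) z * f z), ← mul_assoc,
    ← Real.rpow_add hl]
  congr 2
  ring

theorem ws_act {α l q : ℝ} (hl : 0 < l) (ρ : E n ≃ₗᵢ[ℝ] E n) (u v : E n → ℝ)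
    (h : ∀ x, u x = l ^ ea n α * v (l • ρ x)) :
    WS α q Set.univ u = WS α q Set.univ v := by
  rw [WS_univ, WS_univ]
  unfold weightedInt
  have hpt : ∀ x : E n, ENNReal.ofReal (‖x‖ ^ (-beta n α q) * |u x| ^ q) =
      ENNReal.ofReal (l ^ (n : ℝ)) *
        (fun z : E n => ENNReal.ofReal (‖z‖ ^ (-beta n α q) * |v z| ^ q)) (l • ρ x) := by
    intro x
    simp only
    rw [← ENNReal.ofReal_mul (Real.rpow_nonneg hl.le _)]
    congr 1
    rw [h x, norm_sim hl, Real.mul_rpow hl.le (norm_nonneg _), abs_mul,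
      abs_of_pos (Real.rpow_pos_of_pos hl _),
      Real.mul_rpow (Real.rpow_nonneg hl.le _) (abs_nonneg _), ← Real.rpow_mul hl.le]
    have h1 : l ^ (ea n α * q) = l ^ (n : ℝ) * l ^ (-beta n α q) := by
      rw [← Real.rpow_add hl]
      congr 1
      unfold beta ea
      ring
    rw [h1]
    ring
  simp_rw [hpt]
  rw [lintegral_const_mul' _ _ ENNReal.ofReal_ne_top,
    lint hl ρ (fun z : E n => ENNReal.ofReal (‖z‖ ^ (-beta n α q) * |v z| ^ q)), ← mul_assoc,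
    ← ENNReal.ofReal_mul (Real.rpow_nonneg hl.le _), ← Real.rpow_add hl]
  simp

end INB_

theorem inb_proof (hINA : Stmt_INA) : Stmt_INB := by
  intro n α l ρ f hn h1 h2 hl hf
  have hk := (hINA n α l ρ hn hl).2.1
  refine ⟨INB_.act_aem hl ρ hf, INB_.wsq_act hl ρ f, fun m x => ?_, fun q => ?_⟩
  · have h := INB_.gen_act (α := α) hl ρ (kel α m) (INB_.kel_sim hl ρ hk) f x
    unfold potl
    rw [h, INB_.norm_sim hl, Real.mul_rpow hl.le (norm_nonneg _)]
    ring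
  · apply INB_.ws_act hl ρ
    intro x
    exact INB_.gen_act (α := α) hl ρ ker (INB_.ker_sim hl ρ) f x

end NRX
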