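import Pool.Agent.NRX.Stmts

/-!
# Squad NRX (MP_d4321b_an), module KIN: integrals of powers of the kernel
-/

set_option autoImplicit false

namespace NRX

open MeasureTheory InnerProductSpace Laplacian Topology ENNReal
open Filter hiding ker
open Pool.Agent.Helper52.CKN

noncomputable section

namespace KIN_

variable {n : ℕ}

theorem finrank_E : Module.finrank ℝ (E n) = n := by simp

/-- comparison of powers -/
theorem rpow_cmp {t u p c : ℝ} (hc : 1 ≤ c) (ht : 0 < t) (h1 : t ≤ u) (h2 : u ≤ c * t) :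
    t ^ p ≤ c ^ |p| * u ^ p := by
  have hu : 0 < u := lt_of_lt_of_le ht h1
  have hc0 : 0 < c := by linarith
  rcases le_or_gt 0 p with hp | hp
  · have g1 : (1 : ℝ) ≤ c ^ |p| := Real.one_le_rpow hc (abs_nonneg _)
    have g2 : t ^ p ≤ u ^ p := Real.rpow_le_rpow ht.le h1 hp
    have g3 : 0 < u ^ p := Real.rpow_pos_of_pos hu p
    nlinarith
  · rw [abs_of_neg hp]
    have h3 : u / c ≤ t := by
      rw [div_le_iff₀ hc0]
      linarith
    have h4 : t ^ p ≤ (u / c) ^ p := Real.rpow_le_rpow_of_nonpos (by positivity) h3 hp.le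
    rw [Real.div_rpow hu.le hc0.le, div_eq_mul_inv, ← Real.rpow_neg hc0.le] at h4
    linarith

/-- integrability of a negative power of the norm in a ball -/
theorem ball_fin (hn : 3 ≤ n) {p : ℝ} (hp : -(n : ℝ) < p) (c : ℝ) :
    ∫⁻ y : E n, (Metric.ball (0 : E n) (1 / 2)).indicator
      (fun y => ENNReal.ofReal (c * ‖y‖ ^ p)) y < ∞ := by
  rw [lintegral_indicator Metric.isOpen_ball.measurableSet]
  have h1 : IntegrableOn (fun y : E n => c * ‖y‖ ^ p) (Metric.ball 0 (1 / 2)) := by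
    refine integrableOn_ball_of_norm_le_rpow (C := |c|) (α := -p) ?_ ?_ ?_ ?_
    · rw [finrank_E]
      omega
    · rw [finrank_E]
      linarith
    · filter_upwards with y
      rw [norm_mul, Real.norm_of_nonneg (Real.rpow_nonneg (norm_nonneg _) _), neg_neg,
        Real.norm_eq_abs]
    · apply Measurable.aestronglyMeasurable
      fun_prop
  refine lt_of_le_of_lt (lintegral_mono fun y => ?_) h1.hasFiniteIntegral
  exact Real.ofReal_le_enorm _

/-- the dominating function -/
theorem bound (hn : 3 ≤ n) {b s a : ℝ} (hs : 0 ≤ s) (ha : 0 < a) (hb : -(n : ℝ) < b)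
    (hsn : s < n) (he : b - s = -((n : ℝ) + a)) {e : E n} (h1 : ‖e‖ = 1) :
    ∫⁻ y : E n, ENNReal.ofReal (‖y‖ ^ b * ‖e - y‖ ^ (-s)) < ∞ := by
  set f1 : E n → ℝ≥0∞ := (Metric.ball (0 : E n) (1 / 2)).indicator
      (fun y => ENNReal.ofReal (2 ^ |(-s)| * ‖y‖ ^ b)) with hf1
  set f2' : E n → ℝ≥0∞ := (Metric.ball (0 : E n) (1 / 2)).indicator
      (fun y => ENNReal.ofReal ((4 ^ |b| * 2 ^ b) * ‖y‖ ^ (-s))) with hf2
  set f3 : E n → ℝ≥0∞ := fun y =>
      ENNReal.ofReal ((3 ^ |b| * 5 ^ |(-s)|) * (1 + ‖y‖) ^ (-((n : ℝ) + a))) with hf3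
  have i1 : ∫⁻ y, f1 y < ∞ := ball_fin hn hb _
  have i2 : ∫⁻ y, f2' (y - e) < ∞ := by
    rw [lintegral_sub_right_eq_self (fun y => f2' y) e]
    exact ball_fin hn (by linarith) _
  have i3 : ∫⁻ y, f3 y < ∞ := by
    have hint : Integrable (fun y : E n =>
        (3 ^ |b| * 5 ^ |(-s)|) * (1 + ‖y‖) ^ (-((n : ℝ) + a))) := by
      apply Integrable.const_mul
      apply integrable_one_add_norm
      rw [finrank_E]
      linarith
    refine lt_of_le_of_lt (lintegral_mono fun y => ?_) hint.hasFiniteIntegral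
    exact Real.ofReal_le_enorm _
  have m1 : Measurable f1 := by
    apply Measurable.indicator _ Metric.isOpen_ball.measurableSet
    fun_prop
  have m2 : Measurable f2' := by
    apply Measurable.indicator _ Metric.isOpen_ball.measurableSet
    fun_prop
  have m2' : Measurable fun y => f2' (y - e) := m2.comp (by fun_prop)
  have key : ∀ y : E n, y ≠ 0 → y ≠ e →
      ENNReal.ofReal (‖y‖ ^ b * ‖e - y‖ ^ (-s)) ≤ f1 y + f2' (y - e) + f3 y := by
    intro y hy0 hye
    have hy : 0 < ‖y‖ := norm_pos_iff.mpr hy0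
    have hd : 0 < ‖e - y‖ := norm_pos_iff.mpr (sub_ne_zero.mpr (Ne.symm hye))
    have t1 : ‖y‖ ≤ ‖e - y‖ + 1 := by
      have := norm_sub_norm_le y e
      rw [h1, norm_sub_rev y e] at this
      linarith
    have t2 : 1 ≤ ‖e - y‖ + ‖y‖ := by
      have := norm_add_le (e - y) y
      rw [sub_add_cancel, h1] at this
      linarith
    by_cases c1 : ‖y‖ < 1 / 2
    · have e1 : f1 y = ENNReal.ofReal (2 ^ |(-s)| * ‖y‖ ^ b) := by
        rw [hf1, Set.indicator_of_mem]
        simpa using c1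
      have : ENNReal.ofReal (‖y‖ ^ b * ‖e - y‖ ^ (-s)) ≤ f1 y := by
        rw [e1]
        apply ENNReal.ofReal_le_ofReal
        rw [mul_comm]
        apply mul_le_mul_of_nonneg_right _ (by positivity)
        have h3 : (1 / 2 : ℝ) ≤ ‖e - y‖ := by linarith
        have h4 : ‖e - y‖ ^ (-s) ≤ (1 / 2 : ℝ) ^ (-s) :=
          Real.rpow_le_rpow_of_nonpos (by norm_num) h3 (by linarith)
        rw [one_div, Real.inv_rpow (by norm_num), ← Real.rpow_neg (by norm_num), neg_neg] at h4
        rw [abs_neg, abs_of_nonneg hs]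
        exact h4
      exact le_trans this (le_trans le_self_add le_self_add)
    · by_cases c2 : ‖y - e‖ < 1 / 2
      · have e1 : f2' (y - e) = ENNReal.ofReal ((4 ^ |b| * 2 ^ b) * ‖y - e‖ ^ (-s)) := by
          rw [hf2, Set.indicator_of_mem]
          simpa using c2
        have : ENNReal.ofReal (‖y‖ ^ b * ‖e - y‖ ^ (-s)) ≤ f2' (y - e) := by
          rw [e1]
          apply ENNReal.ofReal_le_ofReal
          rw [norm_sub_rev e y]
          apply mul_le_mul_of_nonneg_right _ (by positivity)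
          rw [norm_sub_rev] at c2
          push Not at c1
          exact rpow_cmp (by norm_num) hy (by linarith) (by linarith)
        exact le_trans this (le_trans (le_add_self) le_self_add)
      · have : ENNReal.ofReal (‖y‖ ^ b * ‖e - y‖ ^ (-s)) ≤ f3 y := by
          rw [hf3]
          apply ENNReal.ofReal_le_ofReal
          push Not at c1 c2
          rw [norm_sub_rev] at c2
          have g0 : 0 < 1 + ‖y‖ := by linarith
          have g1 : ‖y‖ ^ b ≤ 3 ^ |b| * (1 + ‖y‖) ^ b :=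
            rpow_cmp (by norm_num) hy (by linarith) (by linarith)
          have g2 : ‖e - y‖ ^ (-s) ≤ 5 ^ |(-s)| * (1 + ‖y‖) ^ (-s) := by
            have h3 : (1 + ‖y‖) / 5 ≤ ‖e - y‖ := by linarith
            have h4 : ‖e - y‖ ^ (-s) ≤ ((1 + ‖y‖) / 5) ^ (-s) :=
              Real.rpow_le_rpow_of_nonpos (by positivity) h3 (by linarith)
            rw [Real.div_rpow g0.le (by norm_num), div_eq_mul_inv,
              ← Real.rpow_neg (by norm_num), neg_neg] at h4
            rw [abs_neg, abs_of_nonneg hs]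
            linarith
          have g3 : (1 + ‖y‖) ^ (-((n : ℝ) + a)) = (1 + ‖y‖) ^ b * (1 + ‖y‖) ^ (-s) := by
            rw [← Real.rpow_add g0]
            congr 1
            linarith
          calc ‖y‖ ^ b * ‖e - y‖ ^ (-s)
              ≤ (3 ^ |b| * (1 + ‖y‖) ^ b) * (5 ^ |(-s)| * (1 + ‖y‖) ^ (-s)) :=
                mul_le_mul g1 g2 (by positivity) (by positivity)
            _ = (3 ^ |b| * 5 ^ |(-s)|) * (1 + ‖y‖) ^ (-((n : ℝ) + a)) := by
                rw [g3]
                ring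
        exact le_trans this le_add_self
  calc ∫⁻ y : E n, ENNReal.ofReal (‖y‖ ^ b * ‖e - y‖ ^ (-s))
      ≤ ∫⁻ y : E n, (f1 y + f2' (y - e) + f3 y) := by
        apply lintegral_mono_ae
        filter_upwards [ae_ne hn 0, ae_ne hn e] with y hy0 hye
        exact key y hy0 hye
    _ = (∫⁻ y, f1 y) + (∫⁻ y, f2' (y - e)) + ∫⁻ y, f3 y := by
        have m12 : Measurable fun y => f1 y + f2' (y - e) := m1.add m2'
        rw [lintegral_add_left m12, lintegral_add_left m1]
    _ < ∞ := ENNReal.add_lt_top.mpr ⟨ENNReal.add_lt_top.mpr ⟨i1, i2⟩, i3⟩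

theorem kk_nonneg (α : ℝ) (x y : E n) : 0 ≤ kk α x y := by
  unfold kk
  have := ker_nonneg x y
  positivity

theorem kk_meas (α : ℝ) (x : E n) : Measurable (fun y : E n => kk α x y) := by
  unfold kk ker
  fun_prop

/-- the bound for one unit vector -/
theorem unit_bound {α r : ℝ} (hn : 3 ≤ n) (h1 : 4 - (n : ℝ) < α) (h2 : α < n) (hr : 1 ≤ r)
    (hr2 : r * ((n : ℝ) - 2) < n) {e : E n} (he : ‖e‖ = 1) :
    ∫⁻ y, ENNReal.ofReal (kk α e y) ^ r ∂(mu n) < ∞ := by
  have hn' : (3 : ℝ) ≤ n := by exact_mod_cast hn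
  have hm : Measurable fun y : E n => ENNReal.ofReal (‖y‖ ^ (-(n : ℝ))) := by fun_prop
  have hk : Measurable fun y : E n => ENNReal.ofReal (kk α e y) ^ r :=
    ((kk_meas α e).ennreal_ofReal).pow_const r
  unfold mu
  rw [lintegral_withDensity_eq_lintegral_mul _ hm hk]
  have ha := ea_pos h1
  have hb := eb_pos h2
  have hab := ea_add_eb (n := n) α
  have main := bound (n := n) hn (b := eb n α * r - n) (s := r * ((n : ℝ) - 2)) (a := ea n α * r)
    (by nlinarith) (by positivity) (by nlinarith) hr2 (by linear_combination r * hab) he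
  refine lt_of_le_of_lt (lintegral_mono_ae ?_) main
  filter_upwards [ae_ne hn 0] with y hy
  have hy0 : 0 < ‖y‖ := norm_pos_iff.mpr hy
  rw [Pi.mul_apply, ENNReal.ofReal_rpow_of_nonneg (kk_nonneg α e y) (by linarith),
    ← ENNReal.ofReal_mul (by positivity)]
  apply ENNReal.ofReal_le_ofReal
  apply le_of_eq
  unfold kk ker
  rw [he, Real.one_rpow, one_mul, Real.mul_rpow (by positivity) (by positivity),
    ← Real.rpow_mul hy0.le, ← Real.rpow_mul (norm_nonneg _), ← mul_assoc, ← Real.rpow_add hy0]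
  congr 2
  · ring
  · ring

/-- the first bound -/
theorem first (hINA : Stmt_INA) {α r : ℝ} (hn : 3 ≤ n) (h1 : 4 - (n : ℝ) < α) (h2 : α < n)
    (hr : 1 ≤ r) (hr2 : r * ((n : ℝ) - 2) < n) :
    ∃ C : ℝ≥0∞, C < ∞ ∧
      ∀ x : E n, x ≠ 0 → ∫⁻ y, ENNReal.ofReal (kk α x y) ^ r ∂(mu n) ≤ C := by
  have hpos : 0 < n := by omega
  set e : E n := EuclideanSpace.single ⟨0, hpos⟩ 1 with he
  have he1 : ‖e‖ = 1 := by
    rw [he]
    simp
  refine ⟨_, unit_bound hn h1 h2 hr hr2 he1, fun x hx => ?_⟩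
  obtain ⟨l, ρ, hl, hx'⟩ := (hINA n α 1 (LinearIsometryEquiv.refl ℝ (E n)) hn one_pos).2.2 x e hx he1
  obtain ⟨hmp, hkk, -⟩ := hINA n α l ρ hn hl
  have hk : Measurable fun y : E n => ENNReal.ofReal (kk α x y) ^ r :=
    ((kk_meas α x).ennreal_ofReal).pow_const r
  rw [← hmp.lintegral_comp hk]
  apply le_of_eq
  congr 1
  funext y
  rw [← hx', hkk]

theorem kk_swap (α : ℝ) (x y : E n) : kk α x y = kk (4 - α) y x := by
  have e1 : ea n (4 - α) = eb n α := by unfold ea eb; ring
  have e2 : eb n (4 - α) = ea n α := by unfold ea eb; ring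
  unfold kk
  rw [e1, e2, ker_comm x y]
  ring

end KIN_

theorem kin_proof (hINA : Stmt_INA) : Stmt_KIN := by
  intro n α r hn h1 h2 hr hr2
  obtain ⟨C1, hC1, H1⟩ := KIN_.first hINA hn h1 h2 hr hr2
  obtain ⟨C2, hC2, H2⟩ := KIN_.first hINA (α := 4 - α) hn (by linarith) (by linarith) hr hr2
  refine ⟨C1 + C2, ENNReal.add_lt_top.mpr ⟨hC1, hC2⟩, fun x hx => ?_, fun y hy => ?_⟩
  · exact le_trans (H1 x hx) le_self_add
  · refine le_trans ?_ (le_trans (H2 y hy) le_add_self)
    apply le_of_eq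
    congr 1
    funext x
    rw [KIN_.kk_swap]

end

end NRX
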