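import Pool.Agent.NRX.Stmts

/-!
# Squad NRX (MP_d4321b_an), module LOC: local strong convergence of the potentials
-/

set_option autoImplicit false

namespace NRX

open MeasureTheory InnerProductSpace Laplacian Topology ENNReal
open Filter hiding ker
open Pool.Agent.Helper52.CKN

namespace LOC_

variable {n : ℕ}

theorem kk_measurable (α : ℝ) : Measurable (fun p : E n × E n => kk α p.1 p.2) := by
  unfold kk
  apply Measurable.mul _ ker_measurable
  fun_prop

theorem kel_measurable (α m : ℝ) : Measurable (fun p : E n × E n => kel α m p.1 p.2) := by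
  unfold kel
  apply Measurable.ite _ ker_measurable measurable_const
  exact measurableSet_le (kk_measurable α) measurable_const

theorem keg_measurable (α m : ℝ) : Measurable (fun p : E n × E n => keg α m p.1 p.2) := by
  unfold keg
  apply Measurable.ite _ measurable_const ker_measurable
  exact measurableSet_le (kk_measurable α) measurable_const

theorem kel_add_keg (α m : ℝ) (x y : E n) : kel α m x y + keg α m x y = ker x y := by
  unfold kel keg
  split_ifs <;> ring

theorem kel_nonneg (α m : ℝ) (x y : E n) : 0 ≤ kel α m x y := by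
  unfold kel
  split_ifs
  · exact ker_nonneg x y
  · exact le_rfl

theorem keg_nonneg (α m : ℝ) (x y : E n) : 0 ≤ keg α m x y := by
  unfold keg
  split_ifs
  · exact le_rfl
  · exact ker_nonneg x y

theorem potl_meas (α m : ℝ) {f : E n → ℝ} (hf : AEMeasurable f) :
    AEStronglyMeasurable (potl α m f) (volume : Measure (E n)) := by
  unfold potl
  apply AEStronglyMeasurable.integral_prod_right' (f := fun p : E n × E n => kel α m p.1 p.2 * f p.2)
  apply AEMeasurable.aestronglyMeasurable
  apply AEMeasurable.mul
  · exact (kel_measurable α m).aemeasurable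
  · exact hf.comp_snd

theorem potg_meas (α m : ℝ) {f : E n → ℝ} (hf : AEMeasurable f) :
    AEStronglyMeasurable (potg α m f) (volume : Measure (E n)) := by
  unfold potg
  apply AEStronglyMeasurable.integral_prod_right' (f := fun p : E n × E n => keg α m p.1 p.2 * f p.2)
  apply AEMeasurable.aestronglyMeasurable
  apply AEMeasurable.mul
  · exact (keg_measurable α m).aemeasurable
  · exact hf.comp_snd

/-- the splitting of the potential -/
theorem pot_split (hn : 3 ≤ n) {α : ℝ} (h1 : 4 - (n : ℝ) < α) (h2 : α < n) (m : ℝ) {f : E n → ℝ}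
    (hf : AEMeasurable f) (hfw : wsq α f < ∞) :
    ∀ᵐ x : E n, pot f x = potl α m f x + potg α m f x := by
  filter_upwards [ae_lintegral_lt_top hn h1 h2 hf hfw] with x hx
  have hkl : AEStronglyMeasurable (fun y => kel α m x y * f y) (volume : Measure (E n)) := by
    apply AEMeasurable.aestronglyMeasurable
    exact ((kel_measurable α m).comp measurable_prodMk_left).aemeasurable.mul hf
  have hkg : AEStronglyMeasurable (fun y => keg α m x y * f y) (volume : Measure (E n)) := by
    apply AEMeasurable.aestronglyMeasurable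
    exact ((keg_measurable α m).comp measurable_prodMk_left).aemeasurable.mul hf
  have i1 : Integrable (fun y => kel α m x y * f y) := by
    refine hx.mono hkl (Eventually.of_forall fun y => ?_)
    rw [norm_mul, norm_mul, Real.norm_of_nonneg (kel_nonneg α m x y),
      Real.norm_of_nonneg (ker_nonneg x y)]
    refine mul_le_mul_of_nonneg_right ?_ (norm_nonneg _)
    have := kel_add_keg α m x y
    have := keg_nonneg α m x y
    linarith
  have i2 : Integrable (fun y => keg α m x y * f y) := by
    refine hx.mono hkg (Eventually.of_forall fun y => ?_)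
    rw [norm_mul, norm_mul, Real.norm_of_nonneg (keg_nonneg α m x y),
      Real.norm_of_nonneg (ker_nonneg x y)]
    refine mul_le_mul_of_nonneg_right ?_ (norm_nonneg _)
    have := kel_add_keg α m x y
    have := kel_nonneg α m x y
    linarith
  unfold pot potl potg
  rw [← integral_add i1 i2]
  congr 1
  funext y
  rw [← add_mul, kel_add_keg]

/-- the singular part -/
theorem WS_potg_le {α q : ℝ} (hq : 0 ≤ q) (m : ℝ) (f : E n → ℝ) (S : Set (E n)) :
    WS α q S (potg α m f) ≤ ∫⁻ x, ENNReal.ofReal (‖x‖ ^ (-beta n α q)) *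
        (∫⁻ y, ENNReal.ofReal (keg α m x y * |f y|)) ^ q := by
  unfold WS
  refine (setLIntegral_le_lintegral _ _).trans (lintegral_mono fun x => ?_)
  rw [ENNReal.ofReal_mul (by positivity), ← ENNReal.ofReal_rpow_of_nonneg (abs_nonneg _) hq]
  refine mul_le_mul' le_rfl (ENNReal.rpow_le_rpow ?_ hq)
  unfold potg
  rw [← Real.norm_eq_abs, ofReal_norm]
  refine (enorm_integral_le_lintegral_enorm _).trans (le_of_eq ?_)
  congr 1
  funext y
  rw [← ofReal_norm, norm_mul, Real.norm_of_nonneg (keg_nonneg α m x y),
    Real.norm_eq_abs]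

theorem ann_meas (R : ℝ) : MeasurableSet (ann n R) := by
  unfold ann
  exact (measurableSet_le measurable_const measurable_norm).inter
    (measurableSet_le measurable_norm measurable_const)

theorem ann_lt_top (R : ℝ) : volume (ann n R) < ∞ := by
  refine lt_of_le_of_lt (measure_mono ?_) (measure_closedBall_lt_top (x := (0 : E n)) (r := R))
  intro x hx
  rw [mem_closedBall_zero_iff]
  exact hx.2

/-- powers on the annulus -/
theorem rpow_le_ann {R t s : ℝ} (hR : 1 ≤ R) (h1 : R⁻¹ ≤ t) (h2 : t ≤ R) : t ^ s ≤ R ^ |s| := by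
  have hR0 : 0 < R := by linarith
  have ht : 0 < t := lt_of_lt_of_le (inv_pos.2 hR0) h1
  rcases le_total 0 s with hs | hs
  · rw [abs_of_nonneg hs]
    exact Real.rpow_le_rpow ht.le h2 hs
  · rw [abs_of_nonpos hs]
    have h3 : t ^ s = (t⁻¹) ^ (-s) := by
      rw [Real.inv_rpow ht.le, Real.rpow_neg ht.le, inv_inv]
    rw [h3]
    refine Real.rpow_le_rpow (inv_nonneg.2 ht.le) ?_ (by linarith)
    rw [inv_le_comm₀ ht hR0]
    exact h1

end LOC_

open LOC_

theorem loc_proof (hTAI : Stmt_TAI) (hHKL : Stmt_HKL) (hCSP : Stmt_CSP) (hMNK : Stmt_MNK) :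
    Stmt_LOC := by
  intro n α q f g hA hfm hfw hgm hgw hWC R hR
  have hn := hA.n3
  have ha1 := hA.a1
  have ha2 := hA.a2
  have hq0 : 0 < q := by linarith [hA.q2]
  have hq1 : 1 ≤ q := by linarith [hA.q2]
  have hfw' : ∀ k, wsq α (f k) < ∞ := fun k => lt_of_le_of_lt (hfw k) ENNReal.one_lt_top
  have hgw' : wsq α g < ∞ := lt_of_le_of_lt hgw ENNReal.one_lt_top
  set S := ann n R with hS
  have hSm : MeasurableSet S := ann_meas R
  have hR0 : 0 < R := by linarith
  have hx0 : ∀ x ∈ S, x ≠ 0 := by
    intro x hx h0
    have h3 : R⁻¹ ≤ ‖x‖ := hx.1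
    rw [h0, norm_zero] at h3
    have := inv_pos.2 hR0
    linarith
  obtain ⟨M1, M2, M3, -⟩ := hMNK n α q S hq1 hSm
  -- the regular part
  have hreg : ∀ m : ℝ, 1 ≤ m → Tendsto (fun k => WS α q S (fun x => potl α m (f k) x - potl α m g x))
      atTop (𝓝 0) := by
    intro m hm
    obtain ⟨C, hC0, hC⟩ := hHKL n α m hn ha1 ha2 (by linarith)
    set B : ℝ := √(C * R ^ |(-(2 * ea n α))|) with hB
    have hB0 : 0 ≤ B := Real.sqrt_nonneg _
    have hbd : ∀ h : E n → ℝ, AEMeasurable h → wsq α h ≤ 1 → ∀ x ∈ S, |potl α m h x| ≤ B := by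
      intro h hh hw x hx
      have hw' : wsq α h < ∞ := lt_of_le_of_lt hw ENNReal.one_lt_top
      obtain ⟨k1, k2⟩ := hC x (hx0 x hx)
      have k3 : wsq (-α) (kel α m x) < ∞ := lt_of_le_of_lt k2 ENNReal.ofReal_lt_top
      obtain ⟨-, c2, -⟩ := hCSP n α h (kel α m x) hn hh k1.aemeasurable hw' k3
      have e1 : potl α m h x = ∫ y, h y * kel α m x y := by
        unfold potl
        congr 1
        funext y
        ring
      rw [e1]
      refine c2.trans ?_
      have e2 : √(wsq α h).toReal ≤ 1 := by
        have h7 := ENNReal.toReal_mono ENNReal.one_ne_top hw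
        rw [Real.sqrt_le_iff]
        refine ⟨zero_le_one, ?_⟩
        simpa using h7
      have e3 : √(wsq (-α) (kel α m x)).toReal ≤ B := by
        refine Real.sqrt_le_sqrt ?_
        have h4 := ENNReal.toReal_mono ENNReal.ofReal_ne_top k2
        rw [ENNReal.toReal_ofReal (by positivity)] at h4
        refine h4.trans (mul_le_mul_of_nonneg_left ?_ hC0)
        exact rpow_le_ann hR hx.1 hx.2
      calc √(wsq α h).toReal * √(wsq (-α) (kel α m x)).toReal ≤ 1 * B :=
            mul_le_mul e2 e3 (Real.sqrt_nonneg _) zero_le_one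
        _ = B := one_mul B
    have hpt : ∀ x ∈ S, Tendsto (fun k => potl α m (f k) x) atTop (𝓝 (potl α m g x)) := by
      intro x hx
      obtain ⟨k1, k2⟩ := hC x (hx0 x hx)
      have k3 : wsq (-α) (kel α m x) < ∞ := lt_of_le_of_lt k2 ENNReal.ofReal_lt_top
      have h5 := hWC (kel α m x) k1.aemeasurable k3
      have e1 : ∀ h : E n → ℝ, potl α m h x = ∫ y, h y * kel α m x y := by
        intro h
        unfold potl
        congr 1
        funext y
        ring
      simp only [e1]
      exact h5
    set D : ℝ≥0∞ := ENNReal.ofReal (R ^ |(-beta n α q)| * (2 * B) ^ q) with hD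
    have hlim := tendsto_lintegral_of_dominated_convergence' (μ := volume.restrict S)
      (F := fun k x => ENNReal.ofReal (‖x‖ ^ (-beta n α q) * |potl α m (f k) x - potl α m g x| ^ q))
      (f := fun _ => (0 : ℝ≥0∞)) (fun _ => D)
      (by
        intro k
        apply AEMeasurable.restrict
        exact aem_weight (((potl_meas α m (hfm k)).aemeasurable).sub
          ((potl_meas α m hgm).aemeasurable)))
      (by
        intro k
        filter_upwards [ae_restrict_mem hSm] with x hx
        refine ENNReal.ofReal_le_ofReal ?_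
        refine mul_le_mul (rpow_le_ann hR hx.1 hx.2) ?_ (by positivity) (by positivity)
        refine Real.rpow_le_rpow (abs_nonneg _) ?_ hq0.le
        have b1 := hbd (f k) (hfm k) (hfw k) x hx
        have b2 := hbd g hgm hgw x hx
        have b3 := abs_sub (potl α m (f k) x) (potl α m g x)
        linarith)
      (by
        rw [lintegral_const, Measure.restrict_apply_univ]
        exact ENNReal.mul_ne_top ENNReal.ofReal_ne_top (ann_lt_top R).ne)
      (by
        filter_upwards [ae_restrict_mem hSm] with x hx
        have h6 : Tendsto (fun k => ‖x‖ ^ (-beta n α q) *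
            |potl α m (f k) x - potl α m g x| ^ q) atTop
            (𝓝 (‖x‖ ^ (-beta n α q) * |potl α m g x - potl α m g x| ^ q)) := by
          refine Tendsto.const_mul _ ?_
          refine Tendsto.rpow_const ?_ (Or.inr hq0.le)
          exact ((hpt x hx).sub_const _).abs
        rw [sub_self, abs_zero, Real.zero_rpow hq0.ne', mul_zero] at h6
        have h7 := ENNReal.tendsto_ofReal h6
        rwa [ENNReal.ofReal_zero] at h7)
    rw [lintegral_zero] at hlim
    exact hlim
  -- the q-norms
  have hnorm : Tendsto (fun k => WS α q S (fun x => pot (f k) x - pot g x) ^ (1 / q)) atTop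
      (𝓝 0) := by
    rw [ENNReal.tendsto_nhds_zero]
    intro ε hε
    rcases eq_or_ne ε ∞ with rfl | hεt
    · exact Eventually.of_forall fun _ => le_top
    set e : ℝ := ε.toReal / 3 with he
    have he0 : 0 < e := div_pos (ENNReal.toReal_pos hε.ne' hεt) (by norm_num)
    have hee : ENNReal.ofReal e + (ENNReal.ofReal e + ENNReal.ofReal e) = ε := by
      rw [← ENNReal.ofReal_add he0.le he0.le, ← ENNReal.ofReal_add he0.le (by linarith)]
      have : e + (e + e) = ε.toReal := by rw [he]; ring
      rw [this, ENNReal.ofReal_toReal hεt]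
    obtain ⟨m, hm, hTm⟩ := hTAI n α q (e ^ q) hA (by positivity)
    have hsing : ∀ h : E n → ℝ, AEMeasurable h → wsq α h ≤ 1 →
        WS α q S (potg α m h) ^ (1 / q) ≤ ENNReal.ofReal e := by
      intro h hh hw
      have h1 := (WS_potg_le (α := α) (q := q) hq0.le m h S).trans
        (hTm h hh (lt_of_le_of_lt hw ENNReal.one_lt_top))
      have h2 : WS α q S (potg α m h) ≤ ENNReal.ofReal (e ^ q) := by
        refine h1.trans ?_
        calc ENNReal.ofReal (e ^ q) * wsq α h ^ (q / 2) ≤ ENNReal.ofReal (e ^ q) * 1 := by
              refine mul_le_mul' le_rfl ?_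
              exact ENNReal.rpow_le_one hw (by positivity)
          _ = _ := mul_one _
      calc WS α q S (potg α m h) ^ (1 / q) ≤ ENNReal.ofReal (e ^ q) ^ (1 / q) :=
            ENNReal.rpow_le_rpow h2 (by positivity)
        _ = ENNReal.ofReal e := by
            rw [ENNReal.ofReal_rpow_of_nonneg (by positivity) (by positivity), ← Real.rpow_mul he0.le,
              mul_one_div_cancel hq0.ne', Real.rpow_one]
    have h8 : Tendsto (fun k => WS α q S (fun x => potl α m (f k) x - potl α m g x) ^ (1 / q))
        atTop (𝓝 0) := by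
      have := (hreg m hm).ennrpow_const (1 / q)
      rwa [ENNReal.zero_rpow_of_pos (by positivity)] at this
    have h9 := (ENNReal.tendsto_nhds_zero.1 h8) (ENNReal.ofReal e) (by simpa using he0)
    filter_upwards [h9] with k hk
    have p1 := pot_split hn ha1 ha2 m (hfm k) (hfw' k)
    have p2 := pot_split hn ha1 ha2 m hgm hgw'
    have m1 := (potl_meas α m (hfm k)).sub (potl_meas α m hgm)
    have m2 := (potg_meas α m (hfm k))
    have m3 := (potg_meas α m hgm)
    have hle1 : WS α q S (fun x => pot (f k) x - pot g x) ≤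
        WS α q S (fun x => (potl α m (f k) x - potl α m g x) +
          (potg α m (f k) x + (-1) * potg α m g x)) := by
      refine M3 _ _ ?_
      filter_upwards [p1, p2] with x h1 h2
      rw [h1, h2]
      refine le_of_eq (congrArg _ ?_)
      ring
    have hneg : WS α q S (fun x => (-1) * potg α m g x) = WS α q S (potg α m g) := by
      rw [M2 (-1)]
      simp
    calc WS α q S (fun x => pot (f k) x - pot g x) ^ (1 / q)
        ≤ WS α q S (fun x => (potl α m (f k) x - potl α m g x) +
          (potg α m (f k) x + (-1) * potg α m g x)) ^ (1 / q) :=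
          ENNReal.rpow_le_rpow hle1 (by positivity)
      _ ≤ WS α q S (fun x => potl α m (f k) x - potl α m g x) ^ (1 / q) +
          WS α q S (fun x => potg α m (f k) x + (-1) * potg α m g x) ^ (1 / q) :=
          M1 _ _ m1 (m2.add (m3.const_mul (-1)))
      _ ≤ WS α q S (fun x => potl α m (f k) x - potl α m g x) ^ (1 / q) +
          (WS α q S (potg α m (f k)) ^ (1 / q) +
            WS α q S (fun x => (-1) * potg α m g x) ^ (1 / q)) :=
          add_le_add le_rfl (M1 _ _ m2 (m3.const_mul (-1)))
      _ ≤ ENNReal.ofReal e + (ENNReal.ofReal e + ENNReal.ofReal e) := by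
          rw [hneg]
          exact add_le_add hk (add_le_add (hsing _ (hfm k) (hfw k)) (hsing _ hgm hgw))
      _ = ε := hee
  have h10 := hnorm.ennrpow_const q
  rw [ENNReal.zero_rpow_of_pos hq0] at h10
  refine h10.congr fun k => ?_
  rw [← ENNReal.rpow_mul, one_div, inv_mul_cancel₀ hq0.ne', ENNReal.rpow_one]

end NRX
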