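import Pool.Agent.NRX.Stmts

set_option autoImplicit false

namespace NRX

open MeasureTheory InnerProductSpace Laplacian Topology ENNReal
open Filter hiding ker
open Pool.Agent.Helper52.CKN

namespace MNK_

variable {n : ℕ}

/-- the weighted function, `WS` is its `L^q` norm to the power `q` -/
noncomputable def wf (α q : ℝ) (u : E n → ℝ) (x : E n) : ℝ≥0∞ :=
  ENNReal.ofReal (‖x‖ ^ (-beta n α q / q) * |u x|)

theorem wf_rpow {α q : ℝ} (hq : 1 ≤ q) (u : E n → ℝ) (x : E n) :
    wf α q u x ^ q = ENNReal.ofReal (‖x‖ ^ (-beta n α q) * |u x| ^ q) := by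
  have hq0 : (0 : ℝ) < q := by linarith
  unfold wf
  rw [ENNReal.ofReal_rpow_of_nonneg (by positivity) hq0.le,
    Real.mul_rpow (by positivity) (abs_nonneg _), ← Real.rpow_mul (norm_nonneg _),
    div_mul_cancel₀ _ hq0.ne']

theorem wf_aem {α q : ℝ} {u : E n → ℝ} {μ : Measure (E n)} (hu : AEMeasurable u μ) :
    AEMeasurable (wf α q u) μ := by
  unfold wf
  apply AEMeasurable.ennreal_ofReal
  apply AEMeasurable.mul
  · apply Measurable.aemeasurable; fun_prop
  · exact hu.abs

theorem WS_eq {α q : ℝ} (hq : 1 ≤ q) (S : Set (E n)) (u : E n → ℝ) :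
    WS α q S u = ∫⁻ x in S, wf α q u x ^ q := by
  unfold WS
  simp_rw [wf_rpow hq]

theorem wf_add_le (α q : ℝ) (u v : E n → ℝ) (x : E n) :
    wf α q (fun x => u x + v x) x ≤ wf α q u x + wf α q v x := by
  unfold wf
  rw [← ENNReal.ofReal_add (by positivity) (by positivity), ← mul_add]
  exact ENNReal.ofReal_le_ofReal
    (mul_le_mul_of_nonneg_left (abs_add_le _ _) (by positivity))

end MNK_

open MNK_

theorem mnk_proof : Stmt_MNK := by
  intro n α q S hq hS
  have hq0 : (0 : ℝ) < q := by linarith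
  refine ⟨?_, ?_, ?_, ?_⟩
  · intro u v hu hv
    rw [WS_eq hq, WS_eq hq, WS_eq hq]
    have h1 := ENNReal.lintegral_Lp_add_le (μ := volume.restrict S) (p := q)
      (wf_aem (α := α) (q := q) hu.aemeasurable.restrict)
      (wf_aem (α := α) (q := q) hv.aemeasurable.restrict) hq
    refine le_trans (ENNReal.rpow_le_rpow (lintegral_mono fun x => ?_) (by positivity)) h1
    exact ENNReal.rpow_le_rpow (wf_add_le α q u v x) hq0.le
  · intro c u
    unfold WS
    rw [← lintegral_const_mul' _ _ ENNReal.ofReal_ne_top]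
    apply lintegral_congr
    intro x
    rw [← ENNReal.ofReal_mul (by positivity)]
    congr 1
    rw [abs_mul, Real.mul_rpow (abs_nonneg _) (abs_nonneg _)]
    ring
  · intro u v huv
    unfold WS
    apply lintegral_mono_ae
    filter_upwards [ae_restrict_of_ae huv] with x hx
    exact ENNReal.ofReal_le_ofReal
      (mul_le_mul_of_nonneg_left (Real.rpow_le_rpow (abs_nonneg _) hx hq0.le) (by positivity))
  · intro u hu
    rw [WS_univ]
    unfold WS weightedInt
    exact (lintegral_add_compl _ hS).symm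

end NRX
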