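import Pool.Agent.NRX.LOC

/-!
# Squad NRX (MP_d4321b_an), module NVN: a point where the bounded part of the potential is large
-/

set_option autoImplicit false

namespace NRX

open MeasureTheory InnerProductSpace Laplacian Topology ENNReal
open Filter hiding ker
open Pool.Agent.Helper52.CKN

namespace NVN_

open LOC_

variable {n : ℕ}

theorem kel_le (α m : ℝ) (x y : E n) : kel α m x y ≤ ker x y := by
  have h1 := kel_add_keg α m x y
  have h2 := keg_nonneg α m x y
  linarith

theorem potl_le (α m : ℝ) (f : E n → ℝ) (x : E n) :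
    ENNReal.ofReal |potl α m f x| ≤ ∫⁻ y, ENNReal.ofReal (ker x y * |f y|) := by
  unfold potl
  rw [← Real.norm_eq_abs, ofReal_norm]
  refine (enorm_integral_le_lintegral_enorm _).trans (lintegral_mono fun y => ?_)
  rw [← ofReal_norm, norm_mul, Real.norm_of_nonneg (kel_nonneg α m x y), Real.norm_eq_abs]
  exact ENNReal.ofReal_le_ofReal (mul_le_mul_of_nonneg_right (kel_le α m x y) (abs_nonneg _))

/-- the pointwise interpolation -/
theorem point_le {α q c : ℝ} (hq : 2 < q) (x : E n) (hx : x ≠ 0) (p : ℝ)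
    (h : ‖x‖ ^ ea n α * |p| < c) :
    ‖x‖ ^ (-beta n α q) * |p| ^ q ≤ c ^ (q - 2) * (‖x‖ ^ (-beta n α 2) * |p| ^ (2 : ℝ)) := by
  have hx0 : 0 < ‖x‖ := norm_pos_iff.mpr hx
  have hT0 : 0 ≤ ‖x‖ ^ ea n α * |p| := by positivity
  have e1 : ∀ s : ℝ, ‖x‖ ^ (-beta n α s) * |p| ^ s =
      ‖x‖ ^ (-(n : ℝ)) * (‖x‖ ^ ea n α * |p|) ^ s := by
    intro s
    rw [beta_eq, Real.rpow_add hx0, Real.mul_rpow (by positivity) (abs_nonneg _),
      ← Real.rpow_mul hx0.le, mul_comm (ea n α) s]
    ring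
  rw [e1 q, e1 2]
  have e2 : (‖x‖ ^ ea n α * |p|) ^ q ≤ c ^ (q - 2) * (‖x‖ ^ ea n α * |p|) ^ (2 : ℝ) := by
    have e3 : (‖x‖ ^ ea n α * |p|) ^ q =
        (‖x‖ ^ ea n α * |p|) ^ (q - 2) * (‖x‖ ^ ea n α * |p|) ^ (2 : ℝ) := by
      rw [← Real.rpow_add' hT0 (by linarith)]
      congr 1
      ring
    rw [e3]
    refine mul_le_mul_of_nonneg_right ?_ (by positivity)
    exact Real.rpow_le_rpow hT0 h.le (by linarith)
  calc ‖x‖ ^ (-(n : ℝ)) * (‖x‖ ^ ea n α * |p|) ^ q
      ≤ ‖x‖ ^ (-(n : ℝ)) * (c ^ (q - 2) * (‖x‖ ^ ea n α * |p|) ^ (2 : ℝ)) :=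
        mul_le_mul_of_nonneg_left e2 (by positivity)
    _ = _ := by ring

end NVN_

open LOC_ NVN_

theorem nvn_proof (hBND : Stmt_BND) (hTAI : Stmt_TAI) (hMNK : Stmt_MNK) : Stmt_NVN := by
  intro n α q M0 hA hM0
  have hn := hA.n3
  have ha1 := hA.a1
  have ha2 := hA.a2
  have hq2 := hA.q2
  have hq0 : 0 < q := by linarith
  obtain ⟨CB, hCB, hB⟩ := hBND n α q hA
  set d : ℝ := M0 ^ (1 / q) / 2 with hd
  have hd0 : 0 < d := by positivity
  obtain ⟨m, hm, hT⟩ := hTAI n α q (d ^ q) hA (by positivity)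
  set c : ℝ := (d ^ q / (CB.toReal + 1)) ^ (1 / (q - 2)) with hc
  have hC1 : 0 < CB.toReal + 1 := by
    have := ENNReal.toReal_nonneg (a := CB)
    linarith
  have hc0 : 0 < c := by positivity
  have hcq : c ^ (q - 2) = d ^ q / (CB.toReal + 1) := by
    rw [hc, ← Real.rpow_mul (by positivity), one_div, inv_mul_cancel₀ (by linarith), Real.rpow_one]
  refine ⟨m, c, hm, hc0, fun f hf hw hM => ?_⟩
  by_contra hcon
  push Not at hcon
  have hfw : wsq α f < ∞ := lt_of_le_of_lt hw ENNReal.one_lt_top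
  obtain ⟨M1, -, M3, -⟩ := hMNK n α q Set.univ (by linarith) MeasurableSet.univ
  -- the singular part
  have h1 : WS α q Set.univ (potg α m f) ≤ ENNReal.ofReal (d ^ q) := by
    refine ((WS_potg_le (α := α) (q := q) hq0.le m f Set.univ).trans (hT f hf hfw)).trans ?_
    calc ENNReal.ofReal (d ^ q) * wsq α f ^ (q / 2) ≤ ENNReal.ofReal (d ^ q) * 1 := by
          refine mul_le_mul' le_rfl ?_
          exact ENNReal.rpow_le_one hw (by positivity)
      _ = _ := mul_one _
  -- the bounded part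
  have h2 : WS α q Set.univ (potl α m f) < ENNReal.ofReal (d ^ q) := by
    have h3 : WS α q Set.univ (potl α m f) ≤ ENNReal.ofReal (c ^ (q - 2)) * CB := by
      unfold WS
      rw [Measure.restrict_univ]
      calc ∫⁻ x, ENNReal.ofReal (‖x‖ ^ (-beta n α q) * |potl α m f x| ^ q)
          ≤ ∫⁻ x, ENNReal.ofReal (c ^ (q - 2)) * (ENNReal.ofReal (‖x‖ ^ (-beta n α 2)) *
            (∫⁻ y, ENNReal.ofReal (ker x y * |f y|)) ^ (2 : ℝ)) := by
            apply lintegral_mono_ae
            filter_upwards [ae_ne hn 0] with x hx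
            refine (ENNReal.ofReal_le_ofReal (point_le hq2 x hx _ (hcon x hx))).trans ?_
            rw [ENNReal.ofReal_mul (by positivity), ENNReal.ofReal_mul (by positivity),
              ← ENNReal.ofReal_rpow_of_nonneg (abs_nonneg _) (by norm_num : (0 : ℝ) ≤ 2)]
            refine mul_le_mul' le_rfl (mul_le_mul' le_rfl ?_)
            exact ENNReal.rpow_le_rpow (potl_le α m f x) (by norm_num)
        _ = ENNReal.ofReal (c ^ (q - 2)) * ∫⁻ x, (ENNReal.ofReal (‖x‖ ^ (-beta n α 2)) *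
            (∫⁻ y, ENNReal.ofReal (ker x y * |f y|)) ^ (2 : ℝ)) :=
            lintegral_const_mul' _ _ ENNReal.ofReal_ne_top
        _ ≤ ENNReal.ofReal (c ^ (q - 2)) * (CB * wsq α f) := mul_le_mul' le_rfl (hB f hf hfw).2
        _ ≤ ENNReal.ofReal (c ^ (q - 2)) * (CB * 1) :=
            mul_le_mul' le_rfl (mul_le_mul' le_rfl hw)
        _ = ENNReal.ofReal (c ^ (q - 2)) * CB := by rw [mul_one]
    refine lt_of_le_of_lt h3 ?_
    have h4 : CB = ENNReal.ofReal CB.toReal := (ENNReal.ofReal_toReal hCB.ne).symm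
    rw [h4, ← ENNReal.ofReal_mul (by positivity)]
    refine (ENNReal.ofReal_lt_ofReal_iff (by positivity)).2 ?_
    rw [hcq]
    have h5 : d ^ q / (CB.toReal + 1) * CB.toReal < d ^ q / (CB.toReal + 1) * (CB.toReal + 1) :=
      mul_lt_mul_of_pos_left (by linarith) (by positivity)
    rwa [div_mul_cancel₀ _ hC1.ne'] at h5
  -- the contradiction
  have hroot : ENNReal.ofReal (d ^ q) ^ (1 / q) = ENNReal.ofReal d := by
    rw [ENNReal.ofReal_rpow_of_nonneg (by positivity) (by positivity), ← Real.rpow_mul hd0.le,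
      mul_one_div_cancel hq0.ne', Real.rpow_one]
  have h6 : WS α q Set.univ (pot f) ≤
      WS α q Set.univ (fun x => potl α m f x + potg α m f x) := by
    refine M3 _ _ ?_
    filter_upwards [pot_split hn ha1 ha2 m hf hfw] with x hx
    rw [hx]
  have h7 : WS α q Set.univ (pot f) ^ (1 / q) < ENNReal.ofReal (M0 ^ (1 / q)) := by
    calc WS α q Set.univ (pot f) ^ (1 / q)
        ≤ WS α q Set.univ (fun x => potl α m f x + potg α m f x) ^ (1 / q) :=
          ENNReal.rpow_le_rpow h6 (by positivity)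
      _ ≤ WS α q Set.univ (potl α m f) ^ (1 / q) + WS α q Set.univ (potg α m f) ^ (1 / q) :=
          M1 _ _ (potl_meas α m hf) (potg_meas α m hf)
      _ < ENNReal.ofReal d + ENNReal.ofReal d := by
          have k1 : WS α q Set.univ (potl α m f) ^ (1 / q) < ENNReal.ofReal d := by
            rw [← hroot]
            exact ENNReal.rpow_lt_rpow h2 (by positivity)
          have k2 : WS α q Set.univ (potg α m f) ^ (1 / q) ≤ ENNReal.ofReal d := by
            rw [← hroot]
            exact ENNReal.rpow_le_rpow h1 (by positivity)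
          exact ENNReal.add_lt_add_of_lt_of_le (lt_of_le_of_lt k2 ENNReal.ofReal_lt_top).ne k1 k2
      _ = ENNReal.ofReal (M0 ^ (1 / q)) := by
          rw [← ENNReal.ofReal_add hd0.le hd0.le, hd, add_halves]
  have h8 : ENNReal.ofReal (M0 ^ (1 / q)) ≤ WS α q Set.univ (pot f) ^ (1 / q) := by
    rw [← ENNReal.ofReal_rpow_of_nonneg hM0.le (by positivity)]
    exact ENNReal.rpow_le_rpow hM (by positivity)
  exact absurd h7 (not_lt.mpr h8)

end NRX
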