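import Pool.Agent.NRX.Stmts

/-!
# Squad NRX (MP_d4321b_an), module PRD: the equation for `(x_i/|x|) u`
-/

set_option autoImplicit false

namespace NRX

open MeasureTheory InnerProductSpace Laplacian Topology ENNReal
open Filter hiding ker
open Pool.Agent.Helper52.CKN

noncomputable section

namespace PRD_

variable {n : ℕ}

theorem co_contDiff (i : Fin n) : ContDiff ℝ 2 (fun y : E n => y i) := by fun_prop

theorem co_diff (i : Fin n) : Differentiable ℝ (fun y : E n => y i) := by fun_prop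

theorem pd_co (i j : Fin n) (y : E n) :
    pd j (fun y : E n => y i) y = if i = j then 1 else 0 := by
  unfold pd
  have h1 : HasFDerivAt (fun y : E n => y i) (EuclideanSpace.proj (𝕜 := ℝ) i : E n →L[ℝ] ℝ) y :=
    (EuclideanSpace.proj (𝕜 := ℝ) i : E n →L[ℝ] ℝ).hasFDerivAt
  rw [h1.fderiv]
  simp

theorem lap_co (i : Fin n) (y : E n) : Δ (fun y : E n => y i) y = 0 := by
  rw [lap_eq (co_contDiff i)]
  apply Finset.sum_eq_zero
  intro j _
  have h1 : pd j (fun y : E n => y i) = fun _ => if i = j then (1 : ℝ) else 0 :=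
    funext fun y => pd_co i j y
  rw [h1]
  unfold pd
  simp

theorem pd_reg0 {c : ℝ} (hc : 0 < c) (s : ℝ) (i : Fin n) (y : E n) :
    pd i (reg 0 c s) y = 2 * s * (y i * reg 0 c (s - 1) y) := by
  rw [pd_reg 0 hc]
  simp

theorem reg_sub_one {c : ℝ} (hc : 0 < c) (s : ℝ) (y : E n) :
    reg 0 c s y = (‖y‖ ^ 2 + c) * reg 0 c (s - 1) y := by
  unfold reg
  have hpos := reg_pos (0 : E n) hc y
  rw [sub_zero] at hpos ⊢
  conv_lhs => rw [show s = 1 + (s - 1) by ring]
  rw [Real.rpow_add hpos, Real.rpow_one]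

theorem reg_diff {c : ℝ} (hc : 0 < c) (s : ℝ) : Differentiable ℝ (reg (0 : E n) c s) :=
  (reg_contDiff 0 hc s (m := 1)).differentiable (by norm_num)

/-- the regularised function `x_i / |x|` -/
def psc (i : Fin n) (c : ℝ) (y : E n) : ℝ := y i * reg 0 c (-1 / 2) y

theorem psc_contDiff (i : Fin n) {c : ℝ} (hc : 0 < c) : ContDiff ℝ 2 (psc (n := n) i c) :=
  (co_contDiff i).mul (reg_contDiff 0 hc (-1 / 2) (m := 2))

/-- the test functions for ROT -/
def zt (η : E n → ℝ) (j : Fin n) (c : ℝ) (y : E n) : ℝ := reg 0 c (-3 / 2) y * (y j * η y)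

/-- the main part of the Laplacian -/
def G (η : E n → ℝ) (i : Fin n) (c : ℝ) (x : E n) : ℝ :=
  psc i c x * Δ η x + ((n : ℝ) - 1) * (x i * reg 0 c (-3 / 2) x) * η x +
    2 * c * reg 0 c (-3 / 2) x * pd i η x - 3 * c * (x i * reg 0 c (-5 / 2) x) * η x

theorem key {η : E n → ℝ} (hη : ContDiff ℝ 2 η) {c : ℝ} (hc : 0 < c) (i : Fin n) (x : E n) :
    Δ (fun y => psc i c y * η y) x = G η i c x +
      2 * ∑ j, (x j * pd i (zt η j c) x - x i * pd j (zt η j c) x) := by
  set R1 := reg 0 c (-1 / 2) x with hR1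
  set R3 := reg 0 c (-3 / 2) x with hR3
  set R5 := reg 0 c (-5 / 2) x with hR5
  set S := ∑ j, x j * pd j η x with hS
  have e1 : R1 = (‖x‖ ^ 2 + c) * R3 := by
    rw [hR1, hR3, reg_sub_one hc]
    norm_num
  have e3 : R3 = (‖x‖ ^ 2 + c) * R5 := by
    rw [hR3, hR5, reg_sub_one hc]
    norm_num
  have hηd : Differentiable ℝ η := hη.differentiable (by norm_num)
  have p1 : ∀ j, pd j (reg 0 c (-1 / 2)) x = -(x j * R3) := by
    intro j
    rw [pd_reg0 hc, hR3]
    norm_num
  have p3 : ∀ j, pd j (reg 0 c (-3 / 2)) x = -3 * (x j * R5) := by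
    intro j
    rw [pd_reg0 hc, hR5]
    norm_num
  have h1 := lap_mul (psc_contDiff i hc) hη x
  have h2 : ∀ j, pd j (psc i c) x = x i * -(x j * R3) + (if i = j then 1 else 0) * R1 := by
    intro j
    unfold psc
    rw [pd_mul (co_diff i x) (reg_diff hc _ x), p1, pd_co]
  have h3 : ∑ j, pd j (psc i c) x * pd j η x = -(x i * R3 * S) + R1 * pd i η x := by
    have h31 : ∀ j, pd j (psc i c) x * pd j η x =
        -(x i * R3) * (x j * pd j η x) + (if i = j then R1 * pd j η x else 0) := by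
      intro j
      rw [h2]
      split_ifs <;> ring
    rw [Finset.sum_congr rfl fun j _ => h31 j, Finset.sum_add_distrib, ← Finset.mul_sum, ← hS,
      Finset.sum_ite_eq]
    simp
  have h4 : Δ (psc i c) x = x i * (-(n : ℝ) * R3 + 3 * ‖x‖ ^ 2 * R5) + 2 * -(x i * R3) := by
    have h41 := lap_mul (co_contDiff i) (reg_contDiff (0 : E n) hc (-1 / 2) (m := 2)) x
    have h42 : Δ (reg 0 c (-1 / 2)) x = -(n : ℝ) * R3 + 3 * ‖x‖ ^ 2 * R5 := by
      rw [lap_reg 0 hc, sub_zero, hR3, hR5]
      norm_num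
    have h43 : ∑ j, pd j (fun y : E n => y i) x * pd j (reg 0 c (-1 / 2)) x = -(x i * R3) := by
      have h44 : ∀ j, pd j (fun y : E n => y i) x * pd j (reg 0 c (-1 / 2)) x =
          if i = j then -(x j * R3) else 0 := by
        intro j
        rw [pd_co, p1]
        split_ifs <;> ring
      rw [Finset.sum_congr rfl fun j _ => h44 j, Finset.sum_ite_eq]
      simp
    have h45 : Δ (psc i c) x = Δ (fun y : E n => y i * reg 0 c (-1 / 2) y) x := rfl
    rw [h45, h41, h42, h43, lap_co]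
    ring
  have h5 : ∀ j k, pd k (zt η j c) x = R3 * (x j * pd k η x + (if j = k then 1 else 0) * η x) +
      -3 * (x k * R5) * (x j * η x) := by
    intro j k
    unfold zt
    have hd : DifferentiableAt ℝ (fun y : E n => y j * η y) x := (co_diff j x).mul (hηd x)
    rw [pd_mul (reg_diff hc _ x) hd, pd_mul (co_diff j x) (hηd x), p3, pd_co]
  have h6 : ∑ j, (x j * pd i (zt η j c) x - x i * pd j (zt η j c) x) =
      R3 * ‖x‖ ^ 2 * pd i η x + R3 * x i * η x - x i * R3 * S - n * x i * R3 * η x := by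
    have h61 : ∀ j, x j * pd i (zt η j c) x - x i * pd j (zt η j c) x =
        R3 * pd i η x * x j ^ 2 + (if i = j then R3 * x j * η x else 0) -
          x i * R3 * (x j * pd j η x) - x i * R3 * η x := by
      intro j
      rw [h5, h5, if_pos rfl]
      by_cases hij : i = j
      · rw [if_pos hij, if_pos hij.symm]
        ring
      · rw [if_neg hij, if_neg fun h => hij h.symm]
        ring
    rw [Finset.sum_congr rfl fun j _ => h61 j, Finset.sum_sub_distrib, Finset.sum_sub_distrib,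
      Finset.sum_add_distrib, ← Finset.mul_sum, ← Finset.mul_sum, ← hS, Finset.sum_ite_eq]
    have h62 : ‖x‖ ^ 2 = ∑ j, x j ^ 2 := by
      rw [EuclideanSpace.norm_sq_eq]
      simp
    rw [h62]
    simp
    ring
  rw [h1, h3, h4, h6]
  unfold G
  have h7 : psc i c x = x i * R1 := rfl
  rw [h7, ← hR3, ← hR5, e1, e3]
  ring

/-- products with continuous functions of compact support -/
theorem integrable_mul {u g : E n → ℝ} (hu : ∀ r : ℝ, IntegrableOn u (Metric.ball 0 r))
    (hg : Continuous g) (hc : HasCompactSupport g) : Integrable (fun x => u x * g x) := by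
  obtain ⟨r, hr⟩ := hc.isCompact.isBounded.subset_ball (0 : E n)
  obtain ⟨C, -, hC⟩ := bounded_of_compact hg hc
  have h1 : IntegrableOn (fun x => u x * g x) (Metric.ball 0 r) := by
    refine Integrable.mul_bdd (c := C) (hu r) hg.aestronglyMeasurable ?_
    exact Eventually.of_forall fun x => by simpa using hC x
  refine (integrableOn_iff_integrable_of_support_subset ?_).1 h1
  intro x hx
  apply hr
  apply subset_tsupport
  intro h0
  apply hx
  show u x * g x = 0
  rw [h0, mul_zero]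

theorem abs_co_le (i : Fin n) (x : E n) : |x i| ≤ ‖x‖ := by
  have h := PiLp.norm_apply_le x i
  simpa using h

theorem psc_eq (i : Fin n) {c : ℝ} (hc : 0 < c) (x : E n) :
    psc i c x = x i / √(‖x‖ ^ 2 + c) := by
  have hpos : 0 < ‖x‖ ^ 2 + c := by positivity
  unfold psc reg
  rw [sub_zero, show (-1 / 2 : ℝ) = -(1 / 2) by norm_num, Real.rpow_neg hpos.le,
    Real.sqrt_eq_rpow]
  exact (div_eq_mul_inv _ _).symm

theorem psc_le (i : Fin n) {c : ℝ} (hc : 0 < c) (x : E n) : |psc i c x| ≤ 1 := by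
  have hpos : 0 < ‖x‖ ^ 2 + c := by positivity
  rw [psc_eq i hc, abs_div, abs_of_nonneg (Real.sqrt_nonneg _), div_le_one (Real.sqrt_pos.2 hpos)]
  refine (abs_co_le i x).trans ?_
  apply Real.le_sqrt_of_sq_le
  linarith

theorem bounds (i : Fin n) {c δ : ℝ} (hc : 0 < c) (hδ : 0 < δ) {x : E n} (hx : δ ≤ ‖x‖) :
    |x i * reg 0 c (-3 / 2) x| ≤ 1 / δ ^ 2 ∧ |c * reg 0 c (-3 / 2) x| ≤ 1 / δ ∧
      |c * (x i * reg 0 c (-5 / 2) x)| ≤ 1 / δ ^ 2 := by
  set X : ℝ := ‖x‖ ^ 2 + c with hX
  have hXδ : δ ^ 2 ≤ X := by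
    have := pow_le_pow_left₀ hδ.le hx 2
    linarith
  have hXc : c ≤ X := by
    have := sq_nonneg ‖x‖
    linarith
  have hpos : 0 < X := lt_of_lt_of_le (by positivity) hXδ
  have e1 : reg 0 c (-1 / 2) x = X * reg 0 c (-3 / 2) x := by
    rw [reg_sub_one hc]
    norm_num
    exact Or.inl hX.symm
  have e3 : reg 0 c (-3 / 2) x = X * reg 0 c (-5 / 2) x := by
    rw [reg_sub_one hc]
    norm_num
    exact Or.inl hX.symm
  have n3 : 0 ≤ reg 0 c (-3 / 2) x := reg_nonneg 0 hc.le _ x
  have n5 : 0 ≤ reg 0 c (-5 / 2) x := reg_nonneg 0 hc.le _ x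
  have b1 : |x i * reg 0 c (-3 / 2) x| ≤ 1 / δ ^ 2 := by
    have h1 := psc_le i hc x
    unfold psc at h1
    rw [e1] at h1
    have h2 : x i * (X * reg 0 c (-3 / 2) x) = X * (x i * reg 0 c (-3 / 2) x) := by ring
    rw [h2, abs_mul, abs_of_pos hpos] at h1
    rw [le_div_iff₀ (by positivity)]
    have h3 := mul_le_mul_of_nonneg_right hXδ (abs_nonneg (x i * reg 0 c (-3 / 2) x))
    linarith
  refine ⟨b1, ?_, ?_⟩
  · rw [abs_of_nonneg (mul_nonneg hc.le n3)]
    have h1 : reg 0 c (-1 / 2) x * √X = 1 := by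
      unfold reg
      rw [sub_zero, ← hX, show (-1 / 2 : ℝ) = -(1 / 2) by norm_num, Real.rpow_neg hpos.le,
        Real.sqrt_eq_rpow]
      exact inv_mul_cancel₀ (Real.rpow_pos_of_pos hpos _).ne'
    have h2 : δ ≤ √X := Real.le_sqrt_of_sq_le hXδ
    have h3 : c * reg 0 c (-3 / 2) x ≤ reg 0 c (-1 / 2) x := by
      rw [e1]
      exact mul_le_mul_of_nonneg_right hXc n3
    refine h3.trans ?_
    have h4 := mul_le_mul_of_nonneg_left h2 (reg_nonneg 0 hc.le (-1 / 2) x)
    rw [h1] at h4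
    rw [le_div_iff₀ hδ]
    exact h4
  · refine le_trans ?_ b1
    rw [e3, abs_mul, abs_mul, abs_mul, abs_mul, abs_of_pos hc, abs_of_pos hpos]
    have h1 := mul_le_mul_of_nonneg_right hXc
      (mul_nonneg (abs_nonneg (x i)) (abs_nonneg (reg 0 c (-5 / 2) x)))
    linarith

theorem ps_le (i : Fin n) (x : E n) : |ps i x| ≤ 1 := by
  unfold ps
  rw [abs_div, abs_of_nonneg (norm_nonneg x)]
  exact div_le_one_of_le₀ (abs_co_le i x) (norm_nonneg x)

theorem reg_tendsto {x : E n} (hx : x ≠ 0) (s : ℝ) :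
    Tendsto (fun k : ℕ => reg 0 (1 / ((k : ℝ) + 1)) s x) atTop (𝓝 (‖x‖ ^ (2 * s))) := by
  have hp : 0 < ‖x‖ := norm_pos_iff.2 hx
  have h1 : Tendsto (fun k : ℕ => ‖x‖ ^ 2 + 1 / ((k : ℝ) + 1)) atTop (𝓝 (‖x‖ ^ 2 + 0)) :=
    tendsto_const_nhds.add tendsto_one_div_add_atTop_nhds_zero_nat
  rw [add_zero] at h1
  have h2 := h1.rpow_const (p := s) (Or.inl (by positivity))
  have h3 : (‖x‖ ^ 2) ^ s = ‖x‖ ^ (2 * s) := by
    rw [← Real.rpow_natCast, ← Real.rpow_mul hp.le]
    norm_num
  rw [h3] at h2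
  refine h2.congr fun k => ?_
  unfold reg
  rw [sub_zero]

/-- the limit -/
def Gi (η : E n → ℝ) (i : Fin n) (x : E n) : ℝ :=
  ps i x * Δ η x + ((n : ℝ) - 1) * (ps i x * ‖x‖ ^ (-2 : ℝ)) * η x

theorem psc_tendsto (i : Fin n) {x : E n} (hx : x ≠ 0) :
    Tendsto (fun k : ℕ => psc i (1 / ((k : ℝ) + 1)) x) atTop (𝓝 (ps i x)) := by
  have h1 := (reg_tendsto hx (-1 / 2)).const_mul (x i)
  have h2 : x i * ‖x‖ ^ (2 * (-1 / 2) : ℝ) = ps i x := by
    unfold ps
    rw [show (2 * (-1 / 2) : ℝ) = -1 by norm_num, Real.rpow_neg_one, div_eq_mul_inv]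
  rw [h2] at h1
  exact h1

theorem G_tendsto (η : E n → ℝ) (i : Fin n) {x : E n} (hx : x ≠ 0) :
    Tendsto (fun k : ℕ => G η i (1 / ((k : ℝ) + 1)) x) atTop (𝓝 (Gi η i x)) := by
  have hp : 0 < ‖x‖ := norm_pos_iff.2 hx
  have h0 : Tendsto (fun k : ℕ => 1 / ((k : ℝ) + 1)) atTop (𝓝 0) :=
    tendsto_one_div_add_atTop_nhds_zero_nat
  have a1 := (psc_tendsto i hx).mul_const (Δ η x)
  have a2 := (((reg_tendsto hx (-3 / 2)).const_mul (x i)).const_mul ((n : ℝ) - 1)).mul_const (η x)
  have a3 := ((h0.const_mul 2).mul (reg_tendsto hx (-3 / 2))).mul_const (pd i η x)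
  have a4 := ((h0.const_mul 3).mul ((reg_tendsto hx (-5 / 2)).const_mul (x i))).mul_const (η x)
  have h1 := ((a1.add a2).add a3).sub a4
  have h2 : x i * ‖x‖ ^ (2 * (-3 / 2) : ℝ) = ps i x * ‖x‖ ^ (-2 : ℝ) := by
    unfold ps
    rw [show (2 * (-3 / 2) : ℝ) = -1 + -2 by norm_num, Real.rpow_add hp, Real.rpow_neg_one]
    ring
  rw [h2] at h1
  have h3 : ps i x * Δ η x + ((n : ℝ) - 1) * (ps i x * ‖x‖ ^ (-2 : ℝ)) * η x +
      2 * 0 * ‖x‖ ^ (2 * (-3 / 2) : ℝ) * pd i η x -
      3 * 0 * (x i * ‖x‖ ^ (2 * (-5 / 2) : ℝ)) * η x = Gi η i x := by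
    unfold Gi
    ring
  rw [h3] at h1
  exact h1

theorem zt_facts {η : E n → ℝ} (hη : TestFn η) (j : Fin n) {c : ℝ} (hc : 0 < c) :
    ContDiff ℝ 1 (zt η j c) ∧ HasCompactSupport (zt η j c) ∧ (0 : E n) ∉ tsupport (zt η j c) := by
  obtain ⟨h1, h2, h3⟩ := hη
  refine ⟨?_, ?_, ?_⟩
  · have h4 : ContDiff ℝ 2 (zt η j c) :=
      (reg_contDiff 0 hc (-3 / 2) (m := 2)).mul ((co_contDiff j).mul h1)
    exact h4.of_le (by norm_num)
  · exact (h2.mul_left (f := fun y : E n => y j)).mul_left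
  · intro h4
    apply h3
    have h5 : tsupport (zt η j c) ⊆ tsupport (fun y : E n => y j * η y) :=
      tsupport_mul_subset_right
    have h6 : tsupport (fun y : E n => y j * η y) ⊆ tsupport η := tsupport_mul_subset_right
    exact h6 (h5 h4)

theorem xi_test {η : E n → ℝ} (hη : TestFn η) (i : Fin n) {c : ℝ} (hc : 0 < c) :
    TestFn (fun y => psc i c y * η y) := by
  obtain ⟨h1, h2, h3⟩ := hη
  refine ⟨(psc_contDiff i hc).mul h1, h2.mul_left, fun h4 => h3 ?_⟩
  have h5 : tsupport (fun y : E n => psc i c y * η y) ⊆ tsupport η := tsupport_mul_subset_right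
  exact h5 h4

end PRD_

open PRD_ in
theorem prd_proof (hWEK : Stmt_WEK) (hROT : Stmt_ROT) : Stmt_PRD := by
  intro n α f u η i hn h1 h2 hfm hfw hu hrad hη
  have hum : AEStronglyMeasurable u volume := by
    rw [hu]
    exact (pot_aestronglyMeasurable hfm).const_mul _
  have hub : ∀ r : ℝ, IntegrableOn u (Metric.ball 0 r) := by
    intro r
    rw [hu]
    exact ((hWEK n α f η hn h1 h2 hfm hfw hη).2.2.1 r).const_mul _
  have hT : ∀ ξ : E n → ℝ, TestFn ξ → Integrable (fun x => u x * Δ ξ x) ∧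
      Integrable (fun x => f x * ξ x) ∧ ∫ x, u x * Δ ξ x = ∫ x, f x * ξ x := by
    intro ξ hξ
    obtain ⟨a1, a2, -, a4⟩ := hWEK n α f ξ hn h1 h2 hfm hfw hξ
    have e1 : (fun x => u x * Δ ξ x) = fun x => -(kap n)⁻¹ * (pot f x * Δ ξ x) := by
      funext x
      rw [hu]
      ring
    refine ⟨?_, a2, ?_⟩
    · rw [e1]
      exact a1.const_mul _
    · rw [e1, integral_const_mul, a4]
      have := (kap_pos hn).ne'
      field_simp
  obtain ⟨c1, c2, c3⟩ := hη
  have hη : TestFn η := ⟨c1, c2, c3⟩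
  obtain ⟨δ, hδ, hball⟩ : ∃ δ : ℝ, 0 < δ ∧ ∀ x ∈ tsupport η, δ ≤ ‖x‖ := by
    have ho : IsOpen (tsupport η)ᶜ := (isClosed_tsupport η).isOpen_compl
    obtain ⟨δ, hδ, hb⟩ := Metric.isOpen_iff.1 ho 0 c3
    refine ⟨δ, hδ, fun x hx => ?_⟩
    by_contra hlt
    have h3 : x ∈ Metric.ball (0 : E n) δ := by
      rw [mem_ball_zero_iff]
      linarith
    exact hb h3 hx
  set F : ℕ → E n → ℝ := fun k x => f x * (psc i (1 / ((k : ℝ) + 1)) x * η x) -
    u x * G η i (1 / ((k : ℝ) + 1)) x with hF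
  set Fi : E n → ℝ := fun x => f x * (ps i x * η x) - u x * Gi η i x with hFi
  have hck : ∀ k : ℕ, (0 : ℝ) < 1 / ((k : ℝ) + 1) := fun k => by positivity
  have hFI : ∀ k, Integrable (F k) ∧ ∫ x, F k x = 0 := by
    intro k
    set c : ℝ := 1 / ((k : ℝ) + 1) with hc
    have hcp : 0 < c := hck k
    obtain ⟨b1, b2, b3⟩ := hT _ (xi_test hη i hcp)
    have hR : ∀ j, Integrable (fun x => u x * (x j * pd i (zt η j c) x - x i * pd j (zt η j c) x)) ∧
        ∫ x, u x * (x j * pd i (zt η j c) x - x i * pd j (zt η j c) x) = 0 := by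
      intro j
      obtain ⟨d1, d2, d3⟩ := zt_facts hη j hcp
      exact hROT n u (zt η j c) i j hn hum hrad hub d1 d2 d3
    have e1 : F k = fun x => (f x * (psc i c x * η x) -
        u x * Δ (fun y => psc i c y * η y) x) +
        2 * ∑ j, u x * (x j * pd i (zt η j c) x - x i * pd j (zt η j c) x) := by
      funext x
      rw [key c1 hcp i x, ← Finset.mul_sum]
      simp only [hF, ← hc]
      ring
    have i1 : Integrable (fun x => f x * (psc i c x * η x) -
        u x * Δ (fun y => psc i c y * η y) x) := b2.sub b1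
    have i2 : Integrable (fun x => ∑ j, u x * (x j * pd i (zt η j c) x -
        x i * pd j (zt η j c) x)) := integrable_finsetSum _ fun j _ => (hR j).1
    rw [e1]
    refine ⟨i1.add (i2.const_mul 2), ?_⟩
    rw [integral_add i1 (i2.const_mul 2), integral_sub b2 b1, integral_const_mul,
      integral_finsetSum _ fun j _ => (hR j).1, Finset.sum_eq_zero fun j _ => (hR j).2, b3]
    ring
  set bd : E n → ℝ := fun x => |f x * η x| + |u x * Δ η x| +
    (((n : ℝ) - 1) / δ ^ 2 + 3 / δ ^ 2) * |u x * η x| + 2 / δ * |u x * pd i η x| with hbd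
  have hn1 : (0 : ℝ) ≤ (n : ℝ) - 1 := by
    have : (3 : ℝ) ≤ n := by exact_mod_cast hn
    linarith
  have hbdI : Integrable bd := by
    have g1 : Integrable (fun x => u x * η x) := integrable_mul hub c1.continuous c2
    have g2 : Integrable (fun x => u x * pd i η x) :=
      integrable_mul hub (pd_contDiff (m := 1) c1 i).continuous (pd_hasCompactSupport c2 i)
    obtain ⟨b1, b2, -⟩ := hT η hη
    exact ((b2.abs.add b1.abs).add (g1.abs.const_mul _)).add (g2.abs.const_mul _)
  have hFb : ∀ k x, ‖F k x‖ ≤ bd x := by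
    intro k x
    set c : ℝ := 1 / ((k : ℝ) + 1) with hc
    have hcp : 0 < c := hck k
    have hps := psc_le i hcp x
    rw [Real.norm_eq_abs]
    by_cases hx : x ∈ tsupport η
    · obtain ⟨q1, q2, q3⟩ := bounds i hcp hδ (hball x hx)
      have e1 : F k x = psc i c x * (f x * η x) - psc i c x * (u x * Δ η x) -
          ((n : ℝ) - 1) * (x i * reg 0 c (-3 / 2) x) * (u x * η x) -
          2 * (c * reg 0 c (-3 / 2) x) * (u x * pd i η x) +
          3 * (c * (x i * reg 0 c (-5 / 2) x)) * (u x * η x) := by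
        simp only [hF, ← hc]
        unfold G
        ring
      have r1 : |psc i c x * (f x * η x)| ≤ |f x * η x| := by
        rw [abs_mul]
        exact mul_le_of_le_one_left (abs_nonneg _) hps
      have r2 : |psc i c x * (u x * Δ η x)| ≤ |u x * Δ η x| := by
        rw [abs_mul]
        exact mul_le_of_le_one_left (abs_nonneg _) hps
      have r3 : |((n : ℝ) - 1) * (x i * reg 0 c (-3 / 2) x) * (u x * η x)| ≤
          ((n : ℝ) - 1) / δ ^ 2 * |u x * η x| := by
        rw [abs_mul, abs_mul, abs_of_nonneg hn1]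
        refine mul_le_mul_of_nonneg_right ?_ (abs_nonneg _)
        have := mul_le_mul_of_nonneg_left q1 hn1
        rw [mul_one_div] at this
        exact this
      have r4 : |2 * (c * reg 0 c (-3 / 2) x) * (u x * pd i η x)| ≤
          2 / δ * |u x * pd i η x| := by
        rw [abs_mul, abs_mul, abs_of_pos (two_pos : (0 : ℝ) < 2)]
        refine mul_le_mul_of_nonneg_right ?_ (abs_nonneg _)
        have := mul_le_mul_of_nonneg_left q2 (two_pos : (0 : ℝ) < 2).le
        rw [mul_one_div] at this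
        exact this
      have r5 : |3 * (c * (x i * reg 0 c (-5 / 2) x)) * (u x * η x)| ≤
          3 / δ ^ 2 * |u x * η x| := by
        rw [abs_mul, abs_mul, abs_of_pos (three_pos : (0 : ℝ) < 3)]
        refine mul_le_mul_of_nonneg_right ?_ (abs_nonneg _)
        have := mul_le_mul_of_nonneg_left q3 (three_pos : (0 : ℝ) < 3).le
        rw [mul_one_div] at this
        exact this
      rw [e1]
      have t1 := abs_add_le (psc i c x * (f x * η x) - psc i c x * (u x * Δ η x) -
          ((n : ℝ) - 1) * (x i * reg 0 c (-3 / 2) x) * (u x * η x) -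
          2 * (c * reg 0 c (-3 / 2) x) * (u x * pd i η x))
          (3 * (c * (x i * reg 0 c (-5 / 2) x)) * (u x * η x))
      have t2 := abs_sub (psc i c x * (f x * η x) - psc i c x * (u x * Δ η x) -
          ((n : ℝ) - 1) * (x i * reg 0 c (-3 / 2) x) * (u x * η x))
          (2 * (c * reg 0 c (-3 / 2) x) * (u x * pd i η x))
      have t3 := abs_sub (psc i c x * (f x * η x) - psc i c x * (u x * Δ η x))
          (((n : ℝ) - 1) * (x i * reg 0 c (-3 / 2) x) * (u x * η x))
      have t4 := abs_sub (psc i c x * (f x * η x)) (psc i c x * (u x * Δ η x))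
      simp only [hbd]
      linarith
    · have z1 : η x = 0 := image_eq_zero_of_notMem_tsupport hx
      have z2 : pd i η x = 0 := by
        have h3 : x ∉ tsupport (fderiv ℝ η) := fun h4 => hx (tsupport_fderiv_subset ℝ h4)
        have h5 : fderiv ℝ η x = 0 := image_eq_zero_of_notMem_tsupport h3
        unfold pd
        rw [h5]
        rfl
      have e1 : F k x = -(psc i c x * (u x * Δ η x)) := by
        simp only [hF, ← hc]
        unfold G
        rw [z1, z2]
        ring
      have r2 : |psc i c x * (u x * Δ η x)| ≤ |u x * Δ η x| := by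
        rw [abs_mul]
        exact mul_le_of_le_one_left (abs_nonneg _) hps
      rw [e1, abs_neg]
      simp only [hbd, z1, z2, mul_zero, abs_zero, add_zero, zero_add]
      exact r2
  have hFl : ∀ᵐ x : E n, Tendsto (fun k => F k x) atTop (𝓝 (Fi x)) := by
    filter_upwards [ae_ne hn 0] with x hx
    exact (((psc_tendsto i hx).mul_const (η x)).const_mul (f x)).sub
      ((G_tendsto η i hx).const_mul (u x))
  have hlim := tendsto_integral_of_dominated_convergence bd
    (fun k => (hFI k).1.aestronglyMeasurable) hbdI (fun k => Eventually.of_forall (hFb k)) hFl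
  have hFi0 : ∫ x, Fi x = 0 := by
    refine tendsto_nhds_unique hlim ?_
    have h3 : (fun k => ∫ x, F k x) = fun _ => (0 : ℝ) := funext fun k => (hFI k).2
    rw [h3]
    exact tendsto_const_nhds
  have hFiI : Integrable Fi := by
    refine Integrable.mono' hbdI
      (aestronglyMeasurable_of_tendsto_ae _ (fun k => (hFI k).1.aestronglyMeasurable) hFl) ?_
    filter_upwards [hFl] with x hx
    exact le_of_tendsto hx.norm (Eventually.of_forall fun k => hFb k x)
  have hJ : Integrable (fun x => ps i x * u x * Δ η x) := by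
    have h3 : (fun x => ps i x * u x * Δ η x) = fun x => ps i x * (u x * Δ η x) := by
      funext x
      ring
    rw [h3]
    refine Integrable.bdd_mul (c := 1) (hT η hη).1 ?_ ?_
    · apply Measurable.aestronglyMeasurable
      unfold ps
      fun_prop
    · exact Eventually.of_forall fun x => by
        rw [Real.norm_eq_abs]
        exact ps_le i x
  have hsum : ∫ x, ps i x * (f x - ((n : ℝ) - 1) * ‖x‖ ^ (-2 : ℝ) * u x) * η x =
      ∫ x, (Fi x + ps i x * u x * Δ η x) := by
    congr 1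
    funext x
    simp only [hFi]
    unfold Gi
    ring
  rw [hsum, integral_add hFiI hJ, hFi0, zero_add]

end

end NRX
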