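import Pool.Agent.NRX.Stmts

/-!
# NRX, module PWR: the Newtonian potential of a power
-/

set_option autoImplicit false

namespace NRX

open MeasureTheory InnerProductSpace Laplacian Topology ENNReal
open Filter hiding ker
open Pool.Agent.Helper52.CKN

namespace PWR_

variable {n : ℕ}

/-- minus the Laplacian of the regularised power -/
theorem lap_h {a c : ℝ} (hc : 0 < c) (y : E n) :
    Δ (reg (0 : E n) c (-a / 2)) y =
      -((a * (n - 2 - a) * ‖y‖ ^ 2 + a * n * c) * (‖y‖ ^ 2 + c) ^ (-a / 2 - 2)) := by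
  rw [lap_reg _ hc]
  have hpos := reg_pos (0 : E n) hc y
  have e1 : reg (0 : E n) c (-a / 2 - 1) y =
      (‖y - 0‖ ^ 2 + c) * reg (0 : E n) c (-a / 2 - 2) y := by
    unfold reg
    have : -a / 2 - 1 = 1 + (-a / 2 - 2) := by ring
    rw [this, Real.rpow_add hpos, Real.rpow_one]
  rw [e1]
  unfold reg
  rw [sub_zero]
  ring

theorem lap_lower {a c : ℝ} (ha : 0 < a) (hc : 0 < c) (y : E n) :
    a * (n - 2 - a) * ‖y‖ ^ 2 * (‖y‖ ^ 2 + c) ^ (-a / 2 - 2) ≤
      -Δ (reg (0 : E n) c (-a / 2)) y := by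
  rw [lap_h hc, neg_neg]
  have h1 : 0 ≤ (‖y‖ ^ 2 + c) ^ (-a / 2 - 2) := by positivity
  have h2 : 0 ≤ a * n * c := by positivity
  nlinarith [mul_nonneg h2 h1]

/-- decay of the regularised power -/
theorem h_le {a c R : ℝ} (ha : 0 < a) (hc : 0 < c) (hR : 0 < R) {y : E n} (hy : R ≤ ‖y‖) :
    |reg (0 : E n) c (-a / 2) y| ≤ R ^ (-a) := by
  have hpos := reg_pos (0 : E n) hc y
  rw [abs_of_nonneg (reg_nonneg _ hc.le _ _)]
  unfold reg
  rw [sub_zero]
  have e : R ^ (-a) = (R ^ 2) ^ (-a / 2) := by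
    rw [← Real.rpow_natCast R 2, ← Real.rpow_mul hR.le]
    congr 1
    push_cast
    ring
  rw [e]
  apply Real.rpow_le_rpow_of_nonpos (by positivity) _ (by linarith)
  nlinarith

theorem pd_h_le {a c R : ℝ} (ha : 0 < a) (hc : 0 < c) (hR : 0 < R) {y : E n} (hy : R ≤ ‖y‖)
    (i : Fin n) : |pd i (reg (0 : E n) c (-a / 2)) y| ≤ a * R ^ (-a - 1) := by
  rw [pd_reg _ hc]
  have hy0 : 0 < ‖y‖ := lt_of_lt_of_le hR hy
  have h1 : |y i| ≤ ‖y‖ := by
    have := PiLp.norm_apply_le y i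
    simpa using this
  have h2 : reg (0 : E n) c (-a / 2 - 1) y ≤ ‖y‖ ^ (-a - 2) := by
    unfold reg
    rw [sub_zero]
    have e : ‖y‖ ^ (-a - 2) = (‖y‖ ^ 2) ^ (-a / 2 - 1) := by
      rw [← Real.rpow_natCast ‖y‖ 2, ← Real.rpow_mul hy0.le]
      congr 1
      push_cast
      ring
    rw [e]
    apply Real.rpow_le_rpow_of_nonpos (by positivity) _ (by linarith)
    linarith
  have h3 : 0 ≤ reg (0 : E n) c (-a / 2 - 1) y := reg_nonneg _ hc.le _ _
  have h4 : ‖y‖ * ‖y‖ ^ (-a - 2) = ‖y‖ ^ (-a - 1) := by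
    nth_rewrite 1 [← Real.rpow_one ‖y‖]
    rw [← Real.rpow_add hy0]
    congr 1
    ring
  have h5 : ‖y‖ ^ (-a - 1) ≤ R ^ (-a - 1) :=
    Real.rpow_le_rpow_of_nonpos hR hy (by linarith)
  have e0 : (0 : E n) i = 0 := rfl
  have e1 : |2 * (-a / 2)| = a := by
    rw [show 2 * (-a / 2) = -a by ring, abs_neg, abs_of_pos ha]
  rw [e0, sub_zero, abs_mul (2 * (-a / 2)), abs_mul (y i), abs_of_nonneg h3, e1]
  apply mul_le_mul_of_nonneg_left _ ha.le
  calc |y i| * reg (0 : E n) c (-a / 2 - 1) y ≤ ‖y‖ * ‖y‖ ^ (-a - 2) :=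
        mul_le_mul h1 h2 h3 hy0.le
    _ = ‖y‖ ^ (-a - 1) := h4
    _ ≤ R ^ (-a - 1) := h5

/-- the cut-off function -/
theorem exists_cut : ∃ (χ : E n → ℝ) (D1 D2 : ℝ), ContDiff ℝ 2 χ ∧
    HasCompactSupport χ ∧ (∀ y, 0 ≤ χ y) ∧ (∀ y : E n, ‖y‖ ≤ 1 → χ y = 1) ∧
    (∀ y : E n, 2 ≤ ‖y‖ → χ y = 0) ∧ 0 ≤ D1 ∧ 0 ≤ D2 ∧ (∀ (i : Fin n) (y : E n), |pd i χ y| ≤ D1) ∧
    ∀ y, |Δ χ y| ≤ D2 := by
  obtain ⟨χ, hχC, hχc, hχ0, hχ1, hχ2⟩ : ∃ χ : E n → ℝ, ContDiff ℝ 2 χ ∧ HasCompactSupport χ ∧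
      (∀ y, 0 ≤ χ y) ∧ (∀ x : E n, ‖x‖ ≤ 1 → χ x = 1) ∧ (∀ x : E n, 2 ≤ ‖x‖ → χ x = 0) := by
    let χ : ContDiffBump (0 : E n) := ⟨1, 2, by norm_num, by norm_num⟩
    refine ⟨χ, χ.contDiff, χ.hasCompactSupport, fun y => χ.nonneg, ?_, ?_⟩
    · intro x hx
      apply χ.one_of_mem_closedBall
      simpa using hx
    · intro x hx
      apply χ.zero_of_le_dist
      simpa using hx
  obtain ⟨D2, hD20, hD2⟩ := bounded_of_compact (lap_continuous hχC) (lap_hasCompactSupport hχC hχc)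
  have h1 : ∀ i : Fin n, ∃ C : ℝ, 0 ≤ C ∧ ∀ x, |pd i χ x| ≤ C := fun i =>
    bounded_of_compact (pd_contDiff (m := 1) hχC i).continuous (pd_hasCompactSupport hχc i)
  choose C hC0 hC using h1
  exact ⟨χ, ∑ i, C i, D2, hχC, hχc, hχ0, hχ1, hχ2, Finset.sum_nonneg (fun i _ => hC0 i), hD20,
    fun i x => le_trans (hC i x) (Finset.single_le_sum (fun i _ => hC0 i) (Finset.mem_univ i)), hD2⟩

/-- the error of the cut-off -/
noncomputable def err (χ : E n → ℝ) (a c R : ℝ) (y : E n) : ℝ :=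
  2 * (∑ i, pd i (fun y : E n => χ (R⁻¹ • y)) y * pd i (reg (0 : E n) c (-a / 2)) y) +
    Δ (fun y : E n => χ (R⁻¹ • y)) y * reg (0 : E n) c (-a / 2) y

theorem norm_inv_smul {R : ℝ} (hR : 0 < R) (y : E n) : ‖R⁻¹ • y‖ = ‖y‖ / R := by
  rw [norm_smul, Real.norm_of_nonneg (by positivity)]
  ring

theorem err_zero_in {χ : E n → ℝ} (h1 : ∀ y : E n, ‖y‖ ≤ 1 → χ y = 1) {a c R : ℝ} (hR : 0 < R)
    {y : E n} (hy : ‖y‖ < R) : err χ a c R y = 0 := by
  have hev : (fun y : E n => χ (R⁻¹ • y)) =ᶠ[𝓝 y] fun _ => 1 := by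
    filter_upwards [(isOpen_lt continuous_norm continuous_const).mem_nhds hy] with z hz
    apply h1
    rw [norm_inv_smul hR, div_le_one hR]
    exact le_of_lt hz
  unfold err
  have hl : Δ (fun y : E n => χ (R⁻¹ • y)) y = 0 := by
    rw [(laplacian_congr_nhds hev).self_of_nhds, lap_eq contDiff_const]
    apply Finset.sum_eq_zero
    intro i _
    have : pd i (fun _ : E n => (1 : ℝ)) = fun _ => 0 := by
      funext y; unfold pd; simp
    rw [this]; unfold pd; simp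
  have hp : ∀ i, pd i (fun y : E n => χ (R⁻¹ • y)) y = 0 := by
    intro i
    unfold pd
    rw [hev.fderiv_eq]
    simp
  rw [hl]
  simp [hp]

theorem err_zero_out {χ : E n → ℝ} (h2 : ∀ y : E n, 2 ≤ ‖y‖ → χ y = 0) {a c R : ℝ} (hR : 0 < R)
    {y : E n} (hy : 2 * R < ‖y‖) : err χ a c R y = 0 := by
  have hev : (fun y : E n => χ (R⁻¹ • y)) =ᶠ[𝓝 y] fun _ => 0 := by
    filter_upwards [(isOpen_lt continuous_const continuous_norm).mem_nhds hy] with z hz
    apply h2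
    rw [norm_inv_smul hR, le_div_iff₀ hR]
    exact le_of_lt hz
  unfold err
  have hl : Δ (fun y : E n => χ (R⁻¹ • y)) y = 0 := by
    rw [(laplacian_congr_nhds hev).self_of_nhds, lap_eq contDiff_const]
    apply Finset.sum_eq_zero
    intro i _
    have : pd i (fun _ : E n => (0 : ℝ)) = fun _ => 0 := by
      funext y; unfold pd; simp
    rw [this]; unfold pd; simp
  have hp : ∀ i, pd i (fun y : E n => χ (R⁻¹ • y)) y = 0 := by
    intro i
    unfold pd
    rw [hev.fderiv_eq]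
    simp
  rw [hl]
  simp [hp]

theorem err_le {χ : E n → ℝ} {D1 D2 : ℝ} (hχC : ContDiff ℝ 2 χ) (hD10 : 0 ≤ D1) (hD20 : 0 ≤ D2)
    (hD1 : ∀ (i : Fin n) (y : E n), |pd i χ y| ≤ D1) (hD2 : ∀ y, |Δ χ y| ≤ D2)
    {a c R : ℝ} (ha : 0 < a) (hc : 0 < c) (hR : 0 < R) {y : E n} (hy : R ≤ ‖y‖) :
    |err χ a c R y| ≤ (2 * n * D1 * a + D2) * R ^ (-a - 2) := by
  have hRi0 : 0 < R⁻¹ := by positivity
  have hpa : ∀ i, |pd i (fun y : E n => χ (R⁻¹ • y)) y| ≤ R⁻¹ * D1 := by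
    intro i
    rw [pd_comp_smul (hχC.differentiable (by norm_num)) R⁻¹ i y, abs_mul, abs_of_pos hRi0]
    exact mul_le_mul_of_nonneg_left (hD1 i _) hRi0.le
  have hla : |Δ (fun y : E n => χ (R⁻¹ • y)) y| ≤ R⁻¹ ^ 2 * D2 := by
    rw [lap_comp_smul hχC R⁻¹ y, abs_mul, abs_of_nonneg (by positivity)]
    exact mul_le_mul_of_nonneg_left (hD2 _) (by positivity)
  have hsum : |∑ i, pd i (fun y : E n => χ (R⁻¹ • y)) y * pd i (reg (0 : E n) c (-a / 2)) y| ≤
      n * (R⁻¹ * D1 * (a * R ^ (-a - 1))) := by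
    refine le_trans (Finset.abs_sum_le_sum_abs _ _) ?_
    have : ∀ i ∈ Finset.univ,
        |pd i (fun y : E n => χ (R⁻¹ • y)) y * pd i (reg (0 : E n) c (-a / 2)) y| ≤
          R⁻¹ * D1 * (a * R ^ (-a - 1)) := by
      intro i _
      rw [abs_mul]
      exact mul_le_mul (hpa i) (pd_h_le ha hc hR hy i) (abs_nonneg _) (by positivity)
    refine le_trans (Finset.sum_le_sum this) ?_
    simp
  have e6 : R⁻¹ * R ^ (-a - 1) = R ^ (-a - 2) := by
    rw [← Real.rpow_neg_one R, ← Real.rpow_add hR]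
    congr 1; ring
  have e7 : R⁻¹ ^ 2 * R ^ (-a) = R ^ (-a - 2) := by
    rw [← Real.rpow_natCast R⁻¹ 2, ← Real.rpow_neg_one R, ← Real.rpow_mul hR.le, ← Real.rpow_add hR]
    congr 1; push_cast; ring
  have e2 : |Δ (fun y : E n => χ (R⁻¹ • y)) y * reg (0 : E n) c (-a / 2) y| ≤
      R⁻¹ ^ 2 * D2 * R ^ (-a) := by
    rw [abs_mul]
    exact mul_le_mul hla (h_le ha hc hR hy) (abs_nonneg _) (by positivity)
  have e3 : |2 * (∑ i, pd i (fun y : E n => χ (R⁻¹ • y)) y *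
      pd i (reg (0 : E n) c (-a / 2)) y)| ≤ 2 * (n * (R⁻¹ * D1 * (a * R ^ (-a - 1)))) := by
    rw [abs_mul, abs_two]
    exact mul_le_mul_of_nonneg_left hsum (by norm_num)
  unfold err
  refine le_trans (abs_add_le _ _) ?_
  have e8 : 2 * (n * (R⁻¹ * D1 * (a * R ^ (-a - 1)))) = 2 * n * D1 * a * R ^ (-a - 2) := by
    rw [← e6]; ring
  have e9 : R⁻¹ ^ 2 * D2 * R ^ (-a) = D2 * R ^ (-a - 2) := by
    rw [← e7]; ring
  rw [e8] at e3
  rw [e9] at e2
  linarith

theorem ker_far (hn : 3 ≤ n) {R : ℝ} (hR : 0 < R) {x y : E n} (hx : 2 * ‖x‖ ≤ R) (hy : R ≤ ‖y‖) :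
    ker x y ≤ (R / 2) ^ (2 - (n : ℝ)) := by
  have hn' : (3 : ℝ) ≤ n := by exact_mod_cast hn
  unfold ker
  apply Real.rpow_le_rpow_of_nonpos (by positivity) _ (by linarith)
  have := norm_sub_norm_le y x
  rw [norm_sub_rev] at this
  linarith

theorem step (hn : 3 ≤ n) {a : ℝ} (ha : 0 < a) (ha2 : a < n - 2) :
    ∃ (χ : E n → ℝ) (C : ℝ), Measurable χ ∧ (∀ y : E n, ‖y‖ ≤ 1 → χ y = 1) ∧
      ∀ (c R : ℝ) (x : E n), 0 < c → 0 < R → 2 * ‖x‖ ≤ R →
        ∫⁻ y, ENNReal.ofReal (ker x y * (χ (R⁻¹ • y) *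
          (a * (n - 2 - a) * ‖y‖ ^ 2 * (‖y‖ ^ 2 + c) ^ (-a / 2 - 2)))) ≤
          ENNReal.ofReal (kap n * (‖x‖ ^ 2 + c) ^ (-a / 2) + C * R ^ (-a)) := by
  have hn' : (3 : ℝ) ≤ n := by exact_mod_cast hn
  obtain ⟨χ, D1, D2, hχC, hχc, hχ0, hχ1, hχ2, hD10, hD20, hD1, hD2⟩ := exists_cut (n := n)
  set C0 : ℝ := 2 * n * D1 * a + D2 with hC0
  have hC00 : 0 ≤ C0 := by positivity
  set vb : ℝ := (volume (Metric.ball (0 : E n) 1)).toReal with hvb
  refine ⟨χ, C0 * 2 ^ ((n : ℝ) - 2) * 2 ^ (n : ℝ) * vb, hχC.continuous.measurable, hχ1, ?_⟩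
  intro c R x hc hR hx
  have hRi0 : 0 < R⁻¹ := by positivity
  set h : E n → ℝ := reg (0 : E n) c (-a / 2) with hh
  set aR : E n → ℝ := fun y => χ (R⁻¹ • y) with haR
  have hhC : ContDiff ℝ 2 h := reg_contDiff _ hc _
  have haC : ContDiff ℝ 2 aR := hχC.comp (contDiff_const_smul _)
  have hac : HasCompactSupport aR := by
    have := hχc.comp_homeomorph (Homeomorph.smulOfNeZero (R⁻¹) hRi0.ne')
    exact this
  have hφC : ContDiff ℝ 2 (fun y => aR y * h y) := haC.mul hhC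
  have hφc : HasCompactSupport (fun y => aR y * h y) := hac.mul_right
  have hrep := newton_repr hn hφC hφc x
  have hlap : ∀ y, Δ (fun y => aR y * h y) y = aR y * Δ h y + err χ a c R y := by
    intro y
    rw [lap_mul haC hhC y]
    unfold err
    ring
  -- integrability
  have hi1 : Integrable (fun y => ker x y * (aR y * Δ h y)) := by
    apply ker_mul_integrable hn x (haC.continuous.mul (lap_continuous hhC))
    exact hac.mul_right
  have hi2 : Integrable (fun y => ker x y * Δ (fun y => aR y * h y) y) :=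
    ker_mul_integrable hn x (lap_continuous hφC) (lap_hasCompactSupport hφC hφc)
  have herr : (fun y => ker x y * err χ a c R y) =
      fun y => ker x y * Δ (fun y => aR y * h y) y - ker x y * (aR y * Δ h y) := by
    funext y
    rw [hlap]
    ring
  have hi3 : Integrable (fun y => ker x y * err χ a c R y) := by
    rw [herr]; exact hi2.sub hi1
  have haRx : aR x = 1 := by
    apply hχ1
    rw [norm_inv_smul hR, div_le_one hR]
    have := norm_nonneg x
    linarith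
  have hmain : ∫ y, ker x y * (aR y * (-Δ h y)) = kap n * h x + ∫ y, ker x y * err χ a c R y := by
    have h1 : ∫ y, ker x y * err χ a c R y = -(kap n * (aR x * h x)) - ∫ y, ker x y * (aR y * Δ h y) := by
      rw [herr, integral_sub hi2 hi1, hrep]
    have h2 : ∫ y, ker x y * (aR y * (-Δ h y)) = -∫ y, ker x y * (aR y * Δ h y) := by
      rw [← integral_neg]
      congr 1
      funext y
      ring
    rw [h1, h2, haRx]
    ring
  -- the bound of the error
  have hbd : ∫ y, ker x y * err χ a c R y ≤ C0 * 2 ^ ((n : ℝ) - 2) * 2 ^ (n : ℝ) * vb * R ^ (-a) := by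
    have hpt : ∀ y, ‖ker x y * err χ a c R y‖ ≤
        (Metric.closedBall (0 : E n) (2 * R)).indicator
          (fun _ => (R / 2) ^ (2 - (n : ℝ)) * (C0 * R ^ (-a - 2))) y := by
      intro y
      have hK : 0 ≤ (R / 2) ^ (2 - (n : ℝ)) * (C0 * R ^ (-a - 2)) := by positivity
      by_cases h1 : ‖y‖ < R
      · rw [err_zero_in hχ1 hR h1, mul_zero, norm_zero]
        exact Set.indicator_nonneg (fun _ _ => hK) y
      · push Not at h1
        by_cases h2 : 2 * R < ‖y‖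
        · rw [err_zero_out hχ2 hR h2, mul_zero, norm_zero]
          exact Set.indicator_nonneg (fun _ _ => hK) y
        · push Not at h2
          have hmem : y ∈ Metric.closedBall (0 : E n) (2 * R) := by
            rw [mem_closedBall_zero_iff]; exact h2
          rw [Set.indicator_of_mem hmem, norm_mul, Real.norm_of_nonneg (ker_nonneg x y),
            Real.norm_eq_abs]
          exact mul_le_mul (ker_far hn hR hx h1) (err_le hχC hD10 hD20 hD1 hD2 ha hc hR h1)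
            (abs_nonneg _) (by positivity)
    have hfin : volume (Metric.closedBall (0 : E n) (2 * R)) < ∞ := measure_closedBall_lt_top
    have hint : Integrable ((Metric.closedBall (0 : E n) (2 * R)).indicator
          (fun _ => (R / 2) ^ (2 - (n : ℝ)) * (C0 * R ^ (-a - 2)))) volume := by
      rw [integrable_indicator_iff Metric.isClosed_closedBall.measurableSet]
      exact integrableOn_const hfin.ne
    have h1 : ‖∫ y, ker x y * err χ a c R y‖ ≤
        ∫ y, (Metric.closedBall (0 : E n) (2 * R)).indicator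
          (fun _ => (R / 2) ^ (2 - (n : ℝ)) * (C0 * R ^ (-a - 2))) y :=
      norm_integral_le_of_norm_le hint (Eventually.of_forall hpt)
    rw [integral_indicator Metric.isClosed_closedBall.measurableSet, setIntegral_const] at h1
    have hvol : volume.real (Metric.closedBall (0 : E n) (2 * R)) = (2 * R) ^ (n : ℝ) * vb := by
      unfold Measure.real
      rw [Measure.addHaar_closedBall _ _ (by positivity), ENNReal.toReal_mul,
        ENNReal.toReal_ofReal (by positivity), hvb, ← Real.rpow_natCast]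
      congr 2
      simp
    rw [hvol, smul_eq_mul] at h1
    refine le_trans (le_abs_self _) (le_trans h1 (le_of_eq ?_))
    rw [Real.mul_rpow (by norm_num) hR.le, Real.div_rpow hR.le (by norm_num)]
    have e1 : (2 : ℝ) ^ (2 - (n : ℝ)) = (2 ^ ((n : ℝ) - 2))⁻¹ := by
      rw [← Real.rpow_neg (by norm_num)]; congr 1; ring
    rw [e1, div_inv_eq_mul]
    have e2 : R ^ (n : ℝ) * (R ^ (2 - (n : ℝ)) * R ^ (-a - 2)) = R ^ (-a) := by
      rw [← Real.rpow_add hR, ← Real.rpow_add hR]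
      congr 1; ring
    rw [← e2]
    ring
  have hnn : ∀ y, 0 ≤ ker x y * (aR y * (-Δ h y)) := by
    intro y
    have h1 := lap_lower (n := n) ha hc y
    have h2 : 0 ≤ a * (n - 2 - a) * ‖y‖ ^ 2 * (‖y‖ ^ 2 + c) ^ (-a / 2 - 2) := by
      have : 0 < (n : ℝ) - 2 - a := by linarith
      positivity
    exact mul_nonneg (ker_nonneg x y) (mul_nonneg (hχ0 _) (by linarith))
  have hi4 : Integrable (fun y => ker x y * (aR y * (-Δ h y))) := by
    have : (fun y => ker x y * (aR y * (-Δ h y))) = fun y => -(ker x y * (aR y * Δ h y)) := by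
      funext y; ring
    rw [this]; exact hi1.neg
  calc ∫⁻ y, ENNReal.ofReal (ker x y * (χ (R⁻¹ • y) *
          (a * (n - 2 - a) * ‖y‖ ^ 2 * (‖y‖ ^ 2 + c) ^ (-a / 2 - 2))))
      ≤ ∫⁻ y, ENNReal.ofReal (ker x y * (aR y * (-Δ h y))) := by
        apply lintegral_mono
        intro y
        apply ENNReal.ofReal_le_ofReal
        apply mul_le_mul_of_nonneg_left _ (ker_nonneg x y)
        exact mul_le_mul_of_nonneg_left (lap_lower ha hc y) (hχ0 _)
    _ = ENNReal.ofReal (∫ y, ker x y * (aR y * (-Δ h y))) := by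
        rw [ofReal_integral_eq_lintegral_ofReal hi4 (Eventually.of_forall hnn)]
    _ ≤ _ := by
        apply ENNReal.ofReal_le_ofReal
        rw [hmain]
        have e : h x = (‖x‖ ^ 2 + c) ^ (-a / 2) := by
          rw [hh]; unfold reg; rw [sub_zero]
        rw [e]
        linarith

end PWR_

theorem pwr_proof : Stmt_PWR := by
  intro n a x hn ha ha2 hx
  have hn' : (3 : ℝ) ≤ n := by exact_mod_cast hn
  have hx0 : 0 < ‖x‖ := norm_pos_iff.mpr hx
  obtain ⟨χ, C, hχm, hχ1, hst⟩ := PWR_.step hn ha ha2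
  have hA : 0 < a * ((n : ℝ) - 2 - a) := mul_pos ha (by linarith)
  let cc : ℕ → ℝ := fun k => 1 / ((k : ℝ) + 1)
  let RR : ℕ → ℝ := fun k => (k : ℝ) + 1 + 2 * ‖x‖
  have hcc : ∀ k, 0 < cc k := fun k => by positivity
  have hRR : ∀ k, 0 < RR k := fun k => by positivity
  have hRx : ∀ k, 2 * ‖x‖ ≤ RR k := fun k => by
    show 2 * ‖x‖ ≤ (k : ℝ) + 1 + 2 * ‖x‖
    have : (0 : ℝ) ≤ k := Nat.cast_nonneg k
    linarith
  have hcc0 : Tendsto cc atTop (𝓝 0) := tendsto_one_div_add_atTop_nhds_zero_nat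
  have hRRt : Tendsto RR atTop atTop :=
    tendsto_atTop_add_const_right _ _ (tendsto_atTop_add_const_right _ _ tendsto_natCast_atTop_atTop)
  let G : ℕ → E n → ℝ≥0∞ := fun k y => ENNReal.ofReal (ker x y * (χ ((RR k)⁻¹ • y) *
          (a * (n - 2 - a) * ‖y‖ ^ 2 * (‖y‖ ^ 2 + cc k) ^ (-a / 2 - 2))))
  have hG : ∀ k, Measurable (G k) := by
    intro k
    have k1 : Measurable (fun y : E n => ker x y) := by unfold ker; fun_prop
    have k2 : Measurable (fun y : E n => (RR k)⁻¹ • y) := measurable_const_smul _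
    have k3 : Measurable (fun y : E n => χ ((RR k)⁻¹ • y)) := hχm.comp k2
    have k4 : Measurable (fun y : E n =>
        a * (n - 2 - a) * ‖y‖ ^ 2 * (‖y‖ ^ 2 + cc k) ^ (-a / 2 - 2)) := by
      generalize cc k = c0
      generalize -a / 2 - 2 = s0
      fun_prop
    exact (k1.mul (k3.mul k4)).ennreal_ofReal
  have hlim : ∀ᵐ y : E n, Tendsto (fun k => G k y) atTop
      (𝓝 (ENNReal.ofReal (ker x y * (a * (n - 2 - a) * ‖y‖ ^ (-(a + 2)))))) := by
    filter_upwards [ae_ne hn 0] with y hy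
    have hy0 : 0 < ‖y‖ := norm_pos_iff.mpr hy
    apply ENNReal.tendsto_ofReal
    apply Filter.Tendsto.const_mul
    have h1 : Tendsto (fun k => ‖y‖ ^ 2 + cc k) atTop (𝓝 (‖y‖ ^ 2)) := by
      simpa using hcc0.const_add (‖y‖ ^ 2)
    have h2 : Tendsto (fun k => a * (n - 2 - a) * ‖y‖ ^ 2 * (‖y‖ ^ 2 + cc k) ^ (-a / 2 - 2)) atTop
        (𝓝 (a * (n - 2 - a) * ‖y‖ ^ 2 * (‖y‖ ^ 2) ^ (-a / 2 - 2))) :=
      (h1.rpow_const (Or.inl (by positivity))).const_mul _
    have e1 : a * ((n : ℝ) - 2 - a) * ‖y‖ ^ 2 * (‖y‖ ^ 2) ^ (-a / 2 - 2) =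
        a * (n - 2 - a) * ‖y‖ ^ (-(a + 2)) := by
      rw [mul_assoc]
      congr 1
      rw [← Real.rpow_natCast ‖y‖ 2, ← Real.rpow_mul hy0.le, ← Real.rpow_add hy0]
      congr 1
      push_cast
      ring
    rw [e1] at h2
    apply h2.congr'
    filter_upwards [hRRt.eventually_ge_atTop ‖y‖] with k hk
    rw [hχ1, one_mul]
    rw [PWR_.norm_inv_smul (hRR k), div_le_one (hRR k)]
    exact hk
  have hRHS : Tendsto (fun k => ENNReal.ofReal (kap n * (‖x‖ ^ 2 + cc k) ^ (-a / 2) + C * RR k ^ (-a)))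
      atTop (𝓝 (ENNReal.ofReal (kap n * ‖x‖ ^ (-a)))) := by
    apply ENNReal.tendsto_ofReal
    have h1 : Tendsto (fun k => ‖x‖ ^ 2 + cc k) atTop (𝓝 (‖x‖ ^ 2)) := by
      simpa using hcc0.const_add (‖x‖ ^ 2)
    have h2 : Tendsto (fun k => kap n * (‖x‖ ^ 2 + cc k) ^ (-a / 2)) atTop
        (𝓝 (kap n * (‖x‖ ^ 2) ^ (-a / 2))) :=
      (h1.rpow_const (Or.inl (by positivity))).const_mul _
    have e1 : (‖x‖ ^ 2) ^ (-a / 2) = ‖x‖ ^ (-a) := by
      rw [← Real.rpow_natCast ‖x‖ 2, ← Real.rpow_mul hx0.le]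
      congr 1
      push_cast
      ring
    have h3 : Tendsto (fun k => C * RR k ^ (-a)) atTop (𝓝 (C * 0)) :=
      ((tendsto_rpow_neg_atTop ha).comp hRRt).const_mul _
    rw [e1] at h2
    have h4 := h2.add h3
    simpa using h4
  have hfat : ∫⁻ y, ENNReal.ofReal (ker x y * (a * (n - 2 - a) * ‖y‖ ^ (-(a + 2)))) ≤
      ENNReal.ofReal (kap n * ‖x‖ ^ (-a)) := by
    calc ∫⁻ y, ENNReal.ofReal (ker x y * (a * (n - 2 - a) * ‖y‖ ^ (-(a + 2))))
        = ∫⁻ y, liminf (fun k => G k y) atTop := by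
          apply lintegral_congr_ae
          filter_upwards [hlim] with y hy
          exact hy.liminf_eq.symm
      _ ≤ liminf (fun k => ∫⁻ y, G k y) atTop := lintegral_liminf_le hG
      _ ≤ liminf (fun k => ENNReal.ofReal
          (kap n * (‖x‖ ^ 2 + cc k) ^ (-a / 2) + C * RR k ^ (-a))) atTop := by
          exact liminf_le_liminf
            (Eventually.of_forall fun k => hst (cc k) (RR k) x (hcc k) (hRR k) (hRx k))
      _ = _ := hRHS.liminf_eq
  have e : ∀ y : E n, ENNReal.ofReal (ker x y * ‖y‖ ^ (-(a + 2))) =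
      ENNReal.ofReal (a * (n - 2 - a))⁻¹ *
        ENNReal.ofReal (ker x y * (a * (n - 2 - a) * ‖y‖ ^ (-(a + 2)))) := by
    intro y
    rw [← ENNReal.ofReal_mul (inv_nonneg.mpr hA.le)]
    congr 1
    have h1 : (a * ((n : ℝ) - 2 - a))⁻¹ * (a * (n - 2 - a)) = 1 := inv_mul_cancel₀ hA.ne'
    calc ker x y * ‖y‖ ^ (-(a + 2)) =
        ((a * ((n : ℝ) - 2 - a))⁻¹ * (a * (n - 2 - a))) * (ker x y * ‖y‖ ^ (-(a + 2))) := by
          rw [h1, one_mul]
      _ = _ := by ring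
  simp_rw [e]
  rw [lintegral_const_mul' _ _ ENNReal.ofReal_ne_top]
  refine le_trans (mul_le_mul' le_rfl hfat) ?_
  rw [← ENNReal.ofReal_mul (inv_nonneg.mpr hA.le)]
  apply le_of_eq
  congr 1
  rw [div_eq_mul_inv]
  ring

end NRX
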