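import Pool.Agent.NRX.Stmts

/-!
# NRX, module ROT: radial functions are annihilated by infinitesimal rotations
-/

set_option autoImplicit false

namespace NRX

open MeasureTheory InnerProductSpace Laplacian Topology ENNReal
open Filter hiding ker
open Pool.Agent.Helper52.CKN

namespace ROT_

variable {n : ℕ}

/-- the rotation by `θ` in the plane of the coordinates `i`, `j` -/
noncomputable def rt (i j : Fin n) (θ : ℝ) (x : E n) : E n :=
  x + ((Real.cos θ - 1) * x i - Real.sin θ * x j) • (bv i : E n) +
    (Real.sin θ * x i + (Real.cos θ - 1) * x j) • (bv j : E n)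

/-- its derivative -/
noncomputable def rt' (i j : Fin n) (θ : ℝ) (x : E n) : E n :=
  (-Real.sin θ * x i - Real.cos θ * x j) • (bv i : E n) +
    (Real.cos θ * x i - Real.sin θ * x j) • (bv j : E n)

theorem norm_bv (i : Fin n) : ‖(bv i : E n)‖ = 1 :=
  (EuclideanSpace.basisFun (Fin n) ℝ).orthonormal.1 i

theorem inner_bv {i j : Fin n} (h : i ≠ j) : inner ℝ (bv i : E n) (bv j) = 0 :=
  (EuclideanSpace.basisFun (Fin n) ℝ).orthonormal.2 h

theorem inner_bv_left (i : Fin n) (x : E n) : inner ℝ x (bv i : E n) = x i := by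
  rw [real_inner_comm]
  exact EuclideanSpace.basisFun_inner (Fin n) ℝ x i

theorem norm_rt {i j : Fin n} (h : i ≠ j) (θ : ℝ) (x : E n) : ‖rt i j θ x‖ = ‖x‖ := by
  have hsc := Real.sin_sq_add_cos_sq θ
  have key : ‖rt i j θ x‖ ^ 2 = ‖x‖ ^ 2 := by
    unfold rt
    rw [norm_add_sq_real, norm_add_sq_real, norm_smul, norm_smul, norm_bv, norm_bv,
      real_inner_smul_right, inner_add_left, real_inner_smul_left, real_inner_smul_right,
      real_inner_smul_right, inner_bv h, inner_bv_left, inner_bv_left, Real.norm_eq_abs, Real.norm_eq_abs, mul_one,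
      mul_one, sq_abs, sq_abs]
    linear_combination ((x i) ^ 2 + (x j) ^ 2) * hsc
  exact (sq_eq_sq₀ (norm_nonneg _) (norm_nonneg _)).1 key

/-- the rotation as a linear isometric equivalence -/
noncomputable def rl {i j : Fin n} (h : i ≠ j) (θ : ℝ) : E n ≃ₗᵢ[ℝ] E n :=
  LinearIsometry.toLinearIsometryEquiv
    { toFun := rt i j θ
      map_add' := by
        intro x y
        unfold rt
        simp only [PiLp.add_apply]
        module
      map_smul' := by
        intro c x
        unfold rt
        simp only [PiLp.smul_apply, smul_eq_mul, RingHom.id_apply]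
        module
      norm_map' := norm_rt h θ } rfl

theorem rl_apply {i j : Fin n} (h : i ≠ j) (θ : ℝ) (x : E n) : rl h θ x = rt i j θ x := rfl

theorem hasDerivAt_rt (i j : Fin n) (θ : ℝ) (x : E n) :
    HasDerivAt (fun θ => rt i j θ x) (rt' i j θ x) θ := by
  have h1 := ((((Real.hasDerivAt_cos θ).sub_const 1).mul_const (x i)).sub
    ((Real.hasDerivAt_sin θ).mul_const (x j))).smul_const (bv i : E n)
  have h2 := (((Real.hasDerivAt_sin θ).mul_const (x i)).add
    (((Real.hasDerivAt_cos θ).sub_const 1).mul_const (x j))).smul_const (bv j : E n)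
  have h3 := ((hasDerivAt_const θ x).add h1).add h2
  have e : rt' i j θ x = 0 + (-Real.sin θ * x i - Real.cos θ * x j) • (bv i : E n) +
      (Real.cos θ * x i + -Real.sin θ * x j) • (bv j : E n) := by
    unfold rt'
    module
  rw [e]
  exact h3

theorem abs_coord_le (x : E n) (i : Fin n) : |x i| ≤ ‖x‖ := by
  have := PiLp.norm_apply_le x i
  rwa [Real.norm_eq_abs] at this

theorem norm_rt'_le (i j : Fin n) (θ : ℝ) (x : E n) : ‖rt' i j θ x‖ ≤ 4 * ‖x‖ := by
  have h1 : ∀ a b : ℝ, |a| ≤ 1 → |b| ≤ 1 → |a * x i - b * x j| ≤ 2 * ‖x‖ := by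
    intro a b ha hb
    have e1 : |a * x i| ≤ ‖x‖ := by
      rw [abs_mul]
      have := mul_le_mul ha (abs_coord_le x i) (abs_nonneg _) zero_le_one
      linarith
    have e2 : |b * x j| ≤ ‖x‖ := by
      rw [abs_mul]
      have := mul_le_mul hb (abs_coord_le x j) (abs_nonneg _) zero_le_one
      linarith
    have e3 := abs_sub (a * x i) (b * x j)
    linarith
  unfold rt'
  refine (norm_add_le _ _).trans ?_
  rw [norm_smul, norm_smul, norm_bv, norm_bv, mul_one, mul_one, Real.norm_eq_abs,
    Real.norm_eq_abs]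
  have h2 := h1 (-Real.sin θ) (Real.cos θ) (by rw [abs_neg]; exact Real.abs_sin_le_one θ)
    (Real.abs_cos_le_one θ)
  have h3 := h1 (Real.cos θ) (Real.sin θ) (Real.abs_cos_le_one θ) (Real.abs_sin_le_one θ)
  linarith

theorem rt_zero (i j : Fin n) (x : E n) : rt i j 0 x = x := by
  unfold rt
  simp

theorem rt'_zero (i j : Fin n) (x : E n) : rt' i j 0 x = (-(x j)) • (bv i : E n) + (x i) • bv j := by
  unfold rt'
  simp

theorem continuous_rt (i j : Fin n) (θ : ℝ) : Continuous (rt i j θ) := by
  unfold rt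
  fun_prop

theorem continuous_rt' (i j : Fin n) (θ : ℝ) : Continuous (rt' i j θ) := by
  unfold rt'
  fun_prop

end ROT_

open ROT_ in
theorem rot_proof : Stmt_ROT := by
  intro n u ζ i j hn hu hrad hint hζ hcs h0
  by_cases hij : i = j
  · subst hij
    have e : (fun x : E n => u x * (x i * pd i ζ x - x i * pd i ζ x)) = fun _ => 0 := by
      funext x
      ring
    rw [e]
    exact ⟨integrable_zero _ _ _, integral_zero _ _⟩
  -- the support and bounds
  obtain ⟨R, hR0, hR⟩ : ∃ R : ℝ, 0 < R ∧ tsupport ζ ⊆ Metric.ball (0 : E n) R := by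
    obtain ⟨R, hR⟩ := hcs.isCompact.isBounded.subset_ball (0 : E n)
    exact ⟨max R 1, lt_max_of_lt_right one_pos,
      hR.trans (Metric.ball_subset_ball (le_max_left _ _))⟩
  have hout : ∀ y : E n, R ≤ ‖y‖ → y ∉ tsupport ζ := by
    intro y hy hy'
    have := hR hy'
    rw [mem_ball_zero_iff] at this
    linarith
  have hζc : Continuous ζ := hζ.continuous
  have hfc : Continuous (fderiv ℝ ζ) := hζ.continuous_fderiv one_ne_zero
  obtain ⟨C0, hC0⟩ := hcs.exists_bound_of_continuous hζc
  obtain ⟨C1, hC1⟩ := (hcs.fderiv (𝕜 := ℝ)).exists_bound_of_continuous hfc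
  have hC1n : 0 ≤ C1 := (norm_nonneg _).trans (hC1 0)
  have hub : IntegrableOn u (Metric.ball 0 R) := hint R
  -- dominated differentiation
  have hmain := hasDerivAt_integral_of_dominated_loc_of_deriv_le
    (μ := (volume : Measure (E n)))
    (F := fun (θ : ℝ) (x : E n) => u x * ζ (rt i j θ x))
    (F' := fun (θ : ℝ) (x : E n) => u x * (fderiv ℝ ζ (rt i j θ x)) (rt' i j θ x))
    (x₀ := 0) (s := Set.univ)
    (bound := (Metric.ball (0 : E n) R).indicator fun x => |u x| * (C1 * (4 * R)))
    Filter.univ_mem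
    (Eventually.of_forall fun θ =>
      hu.mul (hζc.comp (continuous_rt i j θ)).aestronglyMeasurable)
    ?_
    (hu.mul ((hfc.comp (continuous_rt i j 0)).clm_apply
      (continuous_rt' i j 0)).aestronglyMeasurable)
    ?_ ?_ ?_
  · obtain ⟨hi, hd⟩ := hmain
    have hconst : ∀ θ : ℝ, ∫ x, u x * ζ (rt i j θ x) = ∫ x, u x * ζ x := by
      intro θ
      obtain ⟨g, hg⟩ := hrad
      have e1 : ∫ x, u x * ζ (rt i j θ x) = ∫ x : E n, g ‖x‖ * ζ (rt i j θ x) := by
        apply integral_congr_ae
        filter_upwards [hg] with x hx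
        rw [hx]
      have e2 : ∫ x, u x * ζ x = ∫ x : E n, g ‖x‖ * ζ x := by
        apply integral_congr_ae
        filter_upwards [hg] with x hx
        rw [hx]
      rw [e1, e2]
      have e3 := (rl hij θ).measurePreserving.integral_comp
        (rl hij θ).toHomeomorph.measurableEmbedding (fun y : E n => g ‖y‖ * ζ y)
      rw [← e3]
      apply integral_congr_ae
      refine Eventually.of_forall fun x => ?_
      show g ‖x‖ * ζ (rt i j θ x) = g ‖rt i j θ x‖ * ζ (rt i j θ x)
      rw [norm_rt hij]
    have hd0 : HasDerivAt (fun θ : ℝ => ∫ x, u x * ζ (rt i j θ x)) 0 0 := by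
      have : (fun θ : ℝ => ∫ x, u x * ζ (rt i j θ x)) = fun _ => ∫ x, u x * ζ x :=
        funext hconst
      rw [this]
      exact hasDerivAt_const _ _
    have hz := hd.unique hd0
    have e4 : ∀ x : E n, u x * (fderiv ℝ ζ (rt i j 0 x)) (rt' i j 0 x) =
        -(u x * (x j * pd i ζ x - x i * pd j ζ x)) := by
      intro x
      rw [rt_zero, rt'_zero, map_add, map_smul, map_smul]
      unfold pd
      rw [smul_eq_mul, smul_eq_mul]
      ring
    have e5 : (fun x : E n => u x * (x j * pd i ζ x - x i * pd j ζ x)) =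
        fun x => -(u x * (fderiv ℝ ζ (rt i j 0 x)) (rt' i j 0 x)) := by
      funext x
      rw [e4, neg_neg]
    rw [e5]
    refine ⟨hi.neg, ?_⟩
    rw [integral_neg, neg_eq_zero]
    exact hz
  · -- integrability at `0`
    have hsupp : Function.support (fun x : E n => u x * ζ (rt i j 0 x)) ⊆
        Metric.ball (0 : E n) R := by
      intro x hx
      rw [Function.mem_support, rt_zero] at hx
      exact hR (subset_tsupport _ (Function.mem_support.2 (right_ne_zero_of_mul hx)))
    rw [← integrableOn_iff_integrable_of_support_subset hsupp]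
    refine Integrable.mul_bdd (c := C0) hub ?_ ?_
    · exact (hζc.comp (continuous_rt i j 0)).aestronglyMeasurable
    · exact Eventually.of_forall fun x => hC0 _
  · refine Eventually.of_forall fun x θ _ => ?_
    by_cases hx : x ∈ Metric.ball (0 : E n) R
    · rw [Set.indicator_of_mem hx, norm_mul, Real.norm_eq_abs]
      refine mul_le_mul_of_nonneg_left ?_ (abs_nonneg _)
      refine (ContinuousLinearMap.le_opNorm _ _).trans ?_
      refine mul_le_mul (hC1 _) ?_ (norm_nonneg _) hC1n
      refine (norm_rt'_le i j θ x).trans ?_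
      rw [mem_ball_zero_iff] at hx
      linarith
    · rw [Set.indicator_of_notMem hx]
      have h1 : rt i j θ x ∉ tsupport ζ := by
        apply hout
        rw [norm_rt hij]
        rw [mem_ball_zero_iff] at hx
        exact not_lt.1 hx
      have h2 : fderiv ℝ ζ (rt i j θ x) = 0 := by
        by_contra h
        exact h1 (support_fderiv_subset ℝ (Function.mem_support.2 h))
      rw [h2]
      simp
  · rw [integrable_indicator_iff Metric.isOpen_ball.measurableSet]
    exact (hub.abs).mul_const _
  · refine Eventually.of_forall fun x θ _ => ?_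
    have h1 : HasFDerivAt ζ (fderiv ℝ ζ (rt i j θ x)) (rt i j θ x) :=
      (hζ.differentiable one_ne_zero _).hasFDerivAt
    exact (h1.comp_hasDerivAt θ (hasDerivAt_rt i j θ x)).const_mul (u x)

end NRX
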