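import Pool.Agent.NRX.Stmts

set_option autoImplicit false

namespace NRX

open MeasureTheory InnerProductSpace Laplacian Topology ENNReal
open Filter hiding ker
open Pool.Agent.Helper52.CKN

namespace SPL_

variable {n : ℕ}

theorem measurableSet_ann (R : ℝ) : MeasurableSet (ann n R) := by
  unfold ann
  exact (isClosed_le continuous_const continuous_norm).measurableSet.inter
    (isClosed_le continuous_norm continuous_const).measurableSet

theorem WS_mono_set (α q : ℝ) {S T : Set (E n)} (h : S ⊆ T) (u : E n → ℝ) :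
    WS α q S u ≤ WS α q T u := lintegral_mono_set h

theorem tail (hn : 3 ≤ n) {α q : ℝ} {u : E n → ℝ} (hfin : WS α q Set.univ u < ∞) :
    Tendsto (fun N : ℕ => WS α q (ann n ((N : ℝ) + 1))ᶜ u) atTop (𝓝 0) := by
  set F : E n → ℝ≥0∞ := fun x => ENNReal.ofReal (‖x‖ ^ (-beta n α q) * |u x| ^ q) with hF
  set ν : Measure (E n) := volume.withDensity F with hν
  have e : ∀ N : ℕ, WS α q (ann n ((N : ℝ) + 1))ᶜ u = ν (ann n ((N : ℝ) + 1))ᶜ := by
    intro N
    rw [hν, withDensity_apply _ (measurableSet_ann _).compl]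
    rfl
  have h0 : ν (⋂ N : ℕ, (ann n ((N : ℝ) + 1))ᶜ) = 0 := by
    have hsub : (⋂ N : ℕ, (ann n ((N : ℝ) + 1))ᶜ) ⊆ {0} := by
      intro x hx
      rw [Set.mem_iInter] at hx
      by_contra hx0
      have hx1 : 0 < ‖x‖ := norm_pos_iff.mpr hx0
      obtain ⟨N, hN⟩ := exists_nat_ge (max ‖x‖ ‖x‖⁻¹)
      apply hx N
      constructor
      · have h1 : ‖x‖⁻¹ ≤ (N : ℝ) + 1 := (le_max_right _ _).trans (hN.trans (by linarith))
        exact inv_le_of_inv_le₀ hx1 h1
      · exact (le_max_left _ _).trans (hN.trans (by linarith))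
    have hz : volume ({0} : Set (E n)) = 0 := by
      have h1 := ae_ne hn (0 : E n)
      rw [ae_iff] at h1
      refine measure_mono_null ?_ h1
      intro x hx
      rw [Set.mem_singleton_iff] at hx
      simp [hx]
    have hz' : ν {0} = 0 := withDensity_absolutelyContinuous volume F hz
    exact measure_mono_null hsub hz'
  have hanti : Antitone fun N : ℕ => (ann n ((N : ℝ) + 1))ᶜ := by
    intro N N' hN
    have hN' : (N : ℝ) ≤ (N' : ℝ) := by exact_mod_cast hN
    have hpos : (0 : ℝ) < (N : ℝ) + 1 := by positivity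
    apply Set.compl_subset_compl.2
    rintro x ⟨h1, h2⟩
    refine ⟨?_, by linarith⟩
    have h3 : ((N' : ℝ) + 1)⁻¹ ≤ ((N : ℝ) + 1)⁻¹ := inv_anti₀ hpos (by linarith)
    exact h3.trans h1
  have hne : ∃ N : ℕ, ν (ann n ((N : ℝ) + 1))ᶜ ≠ ∞ := by
    refine ⟨0, ?_⟩
    rw [← e 0]
    exact ((WS_mono_set α q (Set.subset_univ _) u).trans_lt hfin).ne
  have h1 := tendsto_measure_iInter_atTop
    (fun N : ℕ => (measurableSet_ann (n := n) ((N : ℝ) + 1)).compl.nullMeasurableSet (μ := ν))
    hanti hne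
  rw [h0] at h1
  refine h1.congr fun N => ?_
  exact (e N).symm

end SPL_

open SPL_ in
theorem spl_proof (hLOC : Stmt_LOC) (hWCN : Stmt_WCN) (hMNK : Stmt_MNK) (hHOM : Stmt_HOM) :
    Stmt_SPL := by
  intro n α q f g hA hf hfw hg hgw hWC hlim
  obtain ⟨hM0, hM1, hHM⟩ := hHOM n α q hA
  set M := MM n α q with hM
  have hq : 0 < q := by linarith [hA.q2]
  have hq1 : 1 ≤ q := by linarith [hA.q2]
  set θ := (wsq α g).toReal with hθ
  have hθ1 : θ ≤ 1 := by
    rw [hθ]
    exact ENNReal.toReal_le_of_le_ofReal zero_le_one (by simpa using hgw)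
  set P := WS α q Set.univ (pot g) with hP
  have hgfin : wsq α g < ∞ := hgw.trans_lt one_lt_top
  have hPfin : P < ∞ := by
    refine (hHM g hg hgfin).trans_lt ?_
    exact ENNReal.mul_lt_top hM1 (ENNReal.rpow_lt_top_of_nonneg (by linarith) hgfin.ne)
  have mg : AEStronglyMeasurable (pot g) (volume : Measure (E n)) := pot_aestronglyMeasurable hg
  have mf : ∀ k, AEStronglyMeasurable (pot (f k)) (volume : Measure (E n)) :=
    fun k => pot_aestronglyMeasurable (hf k)
  have hqq : ∀ x : ℝ≥0∞, (x ^ (1 / q)) ^ q = x := by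
    intro x
    rw [← ENNReal.rpow_mul, one_div_mul_cancel hq.ne', ENNReal.rpow_one]
  have hrp : ∀ x y : ℝ≥0∞, x ^ (1 / q) ≤ y → x ≤ y ^ q := by
    intro x y h
    have h' := ENNReal.rpow_le_rpow h hq.le
    rwa [hqq] at h'
  have hz : (0 : ℝ≥0∞) ^ (1 / q) = 0 := ENNReal.zero_rpow_of_pos (by positivity)
  have key1 : ∀ R : ℝ, 1 ≤ R → ∀ ε : ℝ, 0 < ε →
      M ≤ P + ((M * ENNReal.ofReal (1 - θ + ε) ^ (q / 2)) ^ (1 / q) +
        WS α q (ann n R)ᶜ (pot g) ^ (1 / q)) ^ q := by
    intro R hR ε hε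
    have hS := measurableSet_ann (n := n) R
    have hloc := hLOC n α q f g hA hf hfw hg hgw hWC R hR
    have hev := hWCN n α f g hA.n3 hf hfw hg hgw hWC ε hε
    have m1 := hMNK n α q (ann n R) hq1 hS
    have m2 := hMNK n α q (ann n R)ᶜ hq1 hS.compl
    have m3 := hMNK n α q Set.univ hq1 MeasurableSet.univ
    set Bk := (M * ENNReal.ofReal (1 - θ + ε) ^ (q / 2)) ^ (1 / q) +
      WS α q (ann n R)ᶜ (pot g) ^ (1 / q) with hBk
    set A := WS α q (ann n R) (pot g) with hAdef
    have hbound : ∀ᶠ k in atTop, WS α q Set.univ (pot (f k)) ≤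
        (A ^ (1 / q) + WS α q (ann n R) (fun x => pot (f k) x - pot g x) ^ (1 / q)) ^ q +
          Bk ^ q := by
      filter_upwards [hev] with k hk
      rw [m1.2.2.2 _ (mf k)]
      apply add_le_add
      · have h := m1.1 (pot g) (fun x => pot (f k) x - pot g x) mg ((mf k).sub mg)
        have e : (fun x => pot g x + (pot (f k) x - pot g x)) = pot (f k) := by
          funext x
          ring
        rw [e] at h
        exact hrp _ _ h
      · have h := m2.1 (fun x => pot (f k) x - pot g x) (pot g) ((mf k).sub mg) mg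
        have e : (fun x => pot (f k) x - pot g x + pot g x) = pot (f k) := by
          funext x
          ring
        rw [e] at h
        refine hrp _ _ (h.trans ?_)
        rw [hBk]
        gcongr
        have hfk : wsq α (f k) < ∞ := (hfw k).trans_lt one_lt_top
        have h1 : WS α q (ann n R)ᶜ (fun x => pot (f k) x - pot g x) ≤
            WS α q Set.univ (fun x => pot (f k) x - pot g x) :=
          WS_mono_set α q (Set.subset_univ _) _
        have h2 : WS α q Set.univ (fun x => pot (f k) x - pot g x) ≤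
            WS α q Set.univ (pot fun y => f k y - g y) := by
          apply m3.2.2.1
          filter_upwards [pot_sub_ae hA.n3 hA.a1 hA.a2 (hf k) hfk hg hgfin] with x hx
          rw [hx]
        have h3 : wsq α (fun y => f k y - g y) < ∞ := hk.trans_lt ENNReal.ofReal_lt_top
        have h4 := hHM (fun y => f k y - g y) ((hf k).sub hg) h3
        refine h1.trans (h2.trans (h4.trans ?_))
        gcongr
    have t1 : Tendsto (fun k => WS α q (ann n R) (fun x => pot (f k) x - pot g x) ^ (1 / q)) atTop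
        (𝓝 (0 ^ (1 / q))) := (ENNReal.continuous_rpow_const.tendsto 0).comp hloc
    have t2 : Tendsto (fun k => A ^ (1 / q) +
        WS α q (ann n R) (fun x => pot (f k) x - pot g x) ^ (1 / q)) atTop
        (𝓝 (A ^ (1 / q) + 0 ^ (1 / q))) := tendsto_const_nhds.add t1
    have t3 : Tendsto (fun k => (A ^ (1 / q) +
        WS α q (ann n R) (fun x => pot (f k) x - pot g x) ^ (1 / q)) ^ q) atTop
        (𝓝 ((A ^ (1 / q) + 0 ^ (1 / q)) ^ q)) :=
      (ENNReal.continuous_rpow_const.tendsto _).comp t2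
    have t4 := t3.add (tendsto_const_nhds (x := Bk ^ q))
    have h5 := le_of_tendsto_of_tendsto hlim t4 hbound
    rw [hz, add_zero, hqq] at h5
    refine h5.trans ?_
    gcongr
    exact WS_mono_set α q (Set.subset_univ _) _
  have key2 : ∀ ε : ℝ, 0 < ε → M ≤ P + M * ENNReal.ofReal (1 - θ + ε) ^ (q / 2) := by
    intro ε hε
    have ht := tail hA.n3 (α := α) (q := q) (u := pot g) hPfin
    set C := M * ENNReal.ofReal (1 - θ + ε) ^ (q / 2) with hC
    have t1 : Tendsto (fun N : ℕ => WS α q (ann n ((N : ℝ) + 1))ᶜ (pot g) ^ (1 / q)) atTop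
        (𝓝 (0 ^ (1 / q))) := (ENNReal.continuous_rpow_const.tendsto 0).comp ht
    have t2 : Tendsto (fun N : ℕ => C ^ (1 / q) +
        WS α q (ann n ((N : ℝ) + 1))ᶜ (pot g) ^ (1 / q)) atTop
        (𝓝 (C ^ (1 / q) + 0 ^ (1 / q))) := tendsto_const_nhds.add t1
    have t3 : Tendsto (fun N : ℕ => (C ^ (1 / q) +
        WS α q (ann n ((N : ℝ) + 1))ᶜ (pot g) ^ (1 / q)) ^ q) atTop
        (𝓝 ((C ^ (1 / q) + 0 ^ (1 / q)) ^ q)) :=
      (ENNReal.continuous_rpow_const.tendsto _).comp t2
    have t4 := (tendsto_const_nhds (x := P)).add t3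
    rw [hz, add_zero, hqq] at t4
    refine ge_of_tendsto' t4 fun N => ?_
    exact key1 ((N : ℝ) + 1) (by have : (0 : ℝ) ≤ N := Nat.cast_nonneg N; linarith) ε hε
  have t5 : Tendsto (fun k : ℕ => 1 - θ + 1 / ((k : ℝ) + 1)) atTop (𝓝 (1 - θ + 0)) :=
    tendsto_const_nhds.add tendsto_one_div_add_atTop_nhds_zero_nat
  rw [add_zero] at t5
  have t6 : Tendsto (fun k : ℕ => ENNReal.ofReal (1 - θ + 1 / ((k : ℝ) + 1)) ^ (q / 2)) atTop
      (𝓝 (ENNReal.ofReal (1 - θ) ^ (q / 2))) :=
    (ENNReal.continuous_rpow_const.tendsto _).comp (ENNReal.tendsto_ofReal t5)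
  have t7 := (tendsto_const_nhds (x := P)).add (ENNReal.Tendsto.const_mul t6 (Or.inr hM1.ne))
  rw [ENNReal.ofReal_rpow_of_nonneg (by linarith) (by linarith)] at t7
  refine ge_of_tendsto' t7 fun k => ?_
  exact key2 _ (by positivity)

end NRX
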