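import Pool.Agent.NRX.Stmts

/-!
# NRX, module TAI: the singular part of the kernel is small
-/

set_option autoImplicit false

namespace NRX

open MeasureTheory InnerProductSpace Laplacian Topology ENNReal
open Filter hiding ker
open Pool.Agent.Helper52.CKN

namespace TAI_

variable {n : ℕ}

instance : SFinite (mu n) := by unfold mu; infer_instance

theorem kk_meas0 (α : ℝ) : Measurable (fun p : E n × E n => kk α p.1 p.2) := by
  unfold kk
  apply Measurable.mul
  · fun_prop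
  · exact ker_measurable

open Classical in
/-- the cut-off -/
noncomputable def chi (α m : ℝ) (p : E n × E n) : ℝ := if kk α p.1 p.2 ≤ m then 0 else 1

theorem chi_meas (α m : ℝ) : Measurable (chi α m : E n × E n → ℝ) := by
  unfold chi
  exact Measurable.ite (measurableSet_le (kk_meas0 α) measurable_const) measurable_const
    measurable_const

theorem chi_nonneg (α m : ℝ) (p : E n × E n) : 0 ≤ chi α m p := by
  unfold chi
  split_ifs <;> norm_num

theorem keg_eq (α m : ℝ) (x y : E n) : keg α m x y = ker x y * chi α m (x, y) := by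
  unfold keg chi
  split_ifs <;> simp_all

theorem kchi_meas (α m : ℝ) :
    Measurable (fun p : E n × E n => ENNReal.ofReal (kk α p.1 p.2 * chi α m p)) :=
  ((kk_meas0 α).mul (chi_meas α m)).ennreal_ofReal

theorem inner_aem (α m : ℝ) {f : E n → ℝ} (hf : AEMeasurable f) :
    AEMeasurable (fun x : E n => ∫⁻ y, ENNReal.ofReal (keg α m x y * |f y|)) := by
  apply AEMeasurable.lintegral_prod_right' (f := fun p : E n × E n =>
    ENNReal.ofReal (keg α m p.1 p.2 * |f p.2|))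
  apply AEMeasurable.ennreal_ofReal
  apply AEMeasurable.mul
  · have : (fun p : E n × E n => keg α m p.1 p.2) = fun p => ker p.1 p.2 * chi α m p := by
      funext p
      exact keg_eq α m p.1 p.2
    rw [this]
    exact (ker_measurable.mul (chi_meas α m)).aemeasurable
  · exact (hf.abs).comp_snd

theorem pw_le {α m r s : ℝ} (hm : 1 ≤ m) (hr : 0 < r) (hs : 0 < s) (x y : E n) :
    ENNReal.ofReal (kk α x y * chi α m (x, y)) ^ r ≤
      ENNReal.ofReal (m ^ (-s)) * ENNReal.ofReal (kk α x y) ^ (r + s) := by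
  unfold chi
  simp only
  split_ifs with h
  · simp [ENNReal.zero_rpow_of_pos hr]
  · push Not at h
    have hk : 0 < kk α x y := by linarith
    rw [mul_one, ENNReal.ofReal_rpow_of_nonneg hk.le hr.le,
      ENNReal.ofReal_rpow_of_nonneg hk.le (by linarith), ← ENNReal.ofReal_mul (by positivity)]
    apply ENNReal.ofReal_le_ofReal
    rw [Real.rpow_add hk, mul_comm, mul_assoc]
    have h1 : m ^ s ≤ kk α x y ^ s := Real.rpow_le_rpow (by linarith) h.le hs.le
    have h2 : 1 ≤ kk α x y ^ s * m ^ (-s) := by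
      rw [Real.rpow_neg (by linarith), ← div_eq_mul_inv, le_div_iff₀ (by positivity)]
      linarith
    exact le_mul_of_one_le_right (by positivity) h2

/-- the common computation -/
theorem key (hY : Stmt_YNG) (hC : Stmt_CNV) {α q m s : ℝ} (hn : 3 ≤ n) (hq : 2 ≤ q) {C : ℝ≥0∞}
    (hCt : C < ∞) (hm : 1 ≤ m) (hs : 0 < s)
    (h1 : ∀ x : E n, x ≠ 0 → ∫⁻ y, ENNReal.ofReal (kk α x y) ^ (2 * q / (q + 2) + s) ∂(mu n) ≤ C)
    (h2 : ∀ y : E n, y ≠ 0 → ∫⁻ x, ENNReal.ofReal (kk α x y) ^ (2 * q / (q + 2) + s) ∂(mu n) ≤ C)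
    {f : E n → ℝ} (hf : AEMeasurable f) (hw : wsq α f < ∞) :
    ∫⁻ x, ENNReal.ofReal (‖x‖ ^ (-beta n α q)) *
      (∫⁻ y, ENNReal.ofReal (keg α m x y * |f y|)) ^ q ≤
      (ENNReal.ofReal (m ^ (-s)) * C) ^ (q / 2) * (ENNReal.ofReal (m ^ (-s)) * C) *
        wsq α f ^ (q / 2) := by
  obtain ⟨c1, c2, c3, c4⟩ := hC n α hn
  rw [c3 q _ (by linarith) (inner_aem α m hf)]
  have e1 : ∀ x : E n, ENNReal.ofReal (‖x‖ ^ ea n α) *
      ∫⁻ y, ENNReal.ofReal (keg α m x y * |f y|) =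
        ∫⁻ y, ENNReal.ofReal (kk α x y * chi α m (x, y)) *
        ENNReal.ofReal (‖y‖ ^ (ea n α + 2) * |f y|) ∂(mu n) := by
    intro x
    have := c2 f (fun y => chi α m (x, y)) x hf ((chi_meas α m).comp measurable_prodMk_left)
      (fun y => chi_nonneg _ _ _)
    rw [← this]
    simp only [keg_eq]
  have e2 : (fun x : E n => (ENNReal.ofReal (‖x‖ ^ ea n α) *
      ∫⁻ y, ENNReal.ofReal (keg α m x y * |f y|)) ^ q) =
      fun x => (∫⁻ y, ENNReal.ofReal (kk α x y * chi α m (x, y)) *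
        ENNReal.ofReal (‖y‖ ^ (ea n α + 2) * |f y|) ∂(mu n)) ^ q := by
    funext x
    rw [e1]
  rw [e2]
  have hwe := c1 f hf
  rw [hwe] at hw ⊢
  have hmm : AEMeasurable (fun y : E n => ENNReal.ofReal (‖y‖ ^ (ea n α + 2) * |f y|)) (mu n) := by
    have h0 : AEMeasurable (fun y : E n => ENNReal.ofReal (‖y‖ ^ (ea n α + 2) * |f y|)) := by
      apply AEMeasurable.ennreal_ofReal
      apply AEMeasurable.mul
      · apply Measurable.aemeasurable; fun_prop
      · exact hf.abs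
    exact h0.mono_ac (withDensity_absolutelyContinuous _ _)
  have hr : 0 < 2 * q / (q + 2) := by positivity
  have hb : ENNReal.ofReal (m ^ (-s)) * C < ∞ := ENNReal.mul_lt_top ENNReal.ofReal_lt_top hCt
  refine hY (E n) (E n) (mu n) (mu n) (fun x y => ENNReal.ofReal (kk α x y * chi α m (x, y))) _ q
    (ENNReal.ofReal (m ^ (-s)) * C) (ENNReal.ofReal (m ^ (-s)) * C)
    (kchi_meas α m) hmm hq hb hb hw
    ((c4 _).2 ((ae_ne hn 0).mono fun x hx => ?_))
    ((c4 _).2 ((ae_ne hn 0).mono fun y hy => ?_))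
  · calc ∫⁻ y, ENNReal.ofReal (kk α x y * chi α m (x, y)) ^ (2 * q / (q + 2)) ∂(mu n)
        ≤ ∫⁻ y, ENNReal.ofReal (m ^ (-s)) *
            ENNReal.ofReal (kk α x y) ^ (2 * q / (q + 2) + s) ∂(mu n) :=
          lintegral_mono fun y => pw_le hm hr hs x y
      _ = ENNReal.ofReal (m ^ (-s)) *
            ∫⁻ y, ENNReal.ofReal (kk α x y) ^ (2 * q / (q + 2) + s) ∂(mu n) :=
          lintegral_const_mul' _ _ ENNReal.ofReal_ne_top
      _ ≤ _ := mul_le_mul' le_rfl (h1 x hx)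
  · calc ∫⁻ x, ENNReal.ofReal (kk α x y * chi α m (x, y)) ^ (2 * q / (q + 2)) ∂(mu n)
        ≤ ∫⁻ x, ENNReal.ofReal (m ^ (-s)) *
            ENNReal.ofReal (kk α x y) ^ (2 * q / (q + 2) + s) ∂(mu n) :=
          lintegral_mono fun x => pw_le hm hr hs x y
      _ = ENNReal.ofReal (m ^ (-s)) *
            ∫⁻ x, ENNReal.ofReal (kk α x y) ^ (2 * q / (q + 2) + s) ∂(mu n) :=
          lintegral_const_mul' _ _ ENNReal.ofReal_ne_top
      _ ≤ _ := mul_le_mul' le_rfl (h2 y hy)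

theorem small {q s δ : ℝ} {C : ℝ≥0∞} (hq : 0 < q) (hs : 0 < s) (hC : C < ∞) (hδ : 0 < δ) :
    ∃ m : ℝ, 1 ≤ m ∧ (ENNReal.ofReal (m ^ (-s)) * C) ^ (q / 2) *
      (ENNReal.ofReal (m ^ (-s)) * C) ≤ ENNReal.ofReal δ := by
  have h1 : Tendsto (fun m : ℝ => ENNReal.ofReal (m ^ (-s)) * C) atTop (𝓝 0) := by
    have h := ENNReal.tendsto_ofReal (tendsto_rpow_neg_atTop hs)
    rw [ENNReal.ofReal_zero] at h
    have := ENNReal.Tendsto.mul_const h (Or.inr hC.ne) (b := C)
    simpa using this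
  have h2 : Tendsto (fun m : ℝ => (ENNReal.ofReal (m ^ (-s)) * C) ^ (q / 2)) atTop (𝓝 0) := by
    have := h1.ennrpow_const (q / 2)
    rwa [ENNReal.zero_rpow_of_pos (by linarith)] at this
  have h3 : Tendsto (fun m : ℝ => (ENNReal.ofReal (m ^ (-s)) * C) ^ (q / 2) *
      (ENNReal.ofReal (m ^ (-s)) * C)) atTop (𝓝 0) := by
    have := ENNReal.Tendsto.mul h2 (Or.inr ENNReal.zero_ne_top) h1 (Or.inr ENNReal.zero_ne_top)
    simpa using this
  have h4 := (h3.eventually_lt_const (ENNReal.ofReal_pos.2 hδ)).and (eventually_ge_atTop (1 : ℝ))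
  obtain ⟨m, hm1, hm2⟩ := h4.exists
  exact ⟨m, hm2, hm1.le⟩

end TAI_

open TAI_ in
theorem tai_proof (hKIN : Stmt_KIN) (hYNG : Stmt_YNG) (hCNV : Stmt_CNV) : Stmt_TAI := by
  intro n α q δ hA hδ
  have hn3 : (3 : ℝ) ≤ n := by exact_mod_cast hA.n3
  have hq2 := hA.q2
  have hq3 := hA.q3
  have r1 : 1 ≤ 2 * q / (q + 2) := by
    rw [le_div_iff₀ (by linarith)]
    linarith
  have r2 : 2 * q / (q + 2) * ((n : ℝ) - 2) < n := by
    rw [div_mul_eq_mul_div, div_lt_iff₀ (by linarith)]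
    nlinarith
  have hn2 : 0 < (n : ℝ) - 2 := by linarith
  obtain ⟨s, hs, hs2⟩ : ∃ s : ℝ, 0 < s ∧ (2 * q / (q + 2) + s) * ((n : ℝ) - 2) < n := by
    refine ⟨(n - 2 * q / (q + 2) * ((n : ℝ) - 2)) / (2 * ((n : ℝ) - 2)), ?_, ?_⟩
    · exact div_pos (by linarith) (by linarith)
    · rw [add_mul]
      have : (n - 2 * q / (q + 2) * ((n : ℝ) - 2)) / (2 * ((n : ℝ) - 2)) * ((n : ℝ) - 2) =
          (n - 2 * q / (q + 2) * ((n : ℝ) - 2)) / 2 := by
        field_simp
      rw [this]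
      linarith
  obtain ⟨C, hC, h1, h2⟩ := hKIN n α (2 * q / (q + 2) + s) hA.n3 hA.a1 hA.a2 (by linarith) hs2
  obtain ⟨m, hm1, hm2⟩ := small (q := q) (s := s) (by linarith) hs hC hδ
  refine ⟨m, hm1, fun f hf hw => ?_⟩
  refine (key hYNG hCNV hA.n3 hq2.le hC hm1 hs h1 h2 hf hw).trans ?_
  exact mul_le_mul' hm2 le_rfl

end NRX
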