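import Pool.Agent.NRX.Stmts

/-!
# Squad NRX (MP_d4321b_an), module VAR: radial extremals exist only for small `q` (helper49)
-/

set_option autoImplicit false

namespace NRX

open MeasureTheory InnerProductSpace Laplacian Topology ENNReal
open Filter hiding ker
open Pool.Agent.Helper52.CKN

namespace VAR_

variable {n : ℕ}

/-- the elementary inequality behind the second variation -/
theorem elem {q C w eR G : ℝ} (hq : 2 < q) (he : 0 < eR)
    (hb : ∃ C2 : ℝ, 0 < C2 ∧ ∀ s : ℝ, |s| ≤ 1 / 2 → 1 + 2 / q * s - C2 * s ^ 2 ≤ (1 + s) ^ (2 / q))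
    (hC : 0 < C)
    (h : ∀ t : ℝ, 0 < t → t ≤ 1 / 2 → |q * (q - 1) / 2 * w * t ^ 2 - C * t ^ 3| ≤ 1 / 2 →
      eR * (1 + (q * (q - 1) / 2 * w * t ^ 2 - C * t ^ 3)) ^ (2 / q) ≤ eR + t ^ 2 * G) :
    (q - 1) * w * eR ≤ G := by
  obtain ⟨C2, hC2, hb⟩ := hb
  set K : ℝ := |q * (q - 1) / 2 * w| + C with hK
  have hK0 : 0 < K := by have := abs_nonneg (q * (q - 1) / 2 * w); linarith
  have hlim : Tendsto (fun t : ℝ => eR * ((q - 1) * w - 2 / q * C * t - C2 * K ^ 2 * t ^ 2))
      (𝓝[>] 0) (𝓝 (eR * ((q - 1) * w - 2 / q * C * 0 - C2 * K ^ 2 * 0 ^ 2))) := by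
    apply Tendsto.mono_left _ nhdsWithin_le_nhds
    apply Continuous.tendsto'
    · fun_prop
    · rfl
  have hev : ∀ᶠ t in 𝓝[>] (0 : ℝ),
      eR * ((q - 1) * w - 2 / q * C * t - C2 * K ^ 2 * t ^ 2) ≤ G := by
    have ht0 : 0 < min (1 / 2) (1 / (2 * K)) := by positivity
    filter_upwards [Ioc_mem_nhdsGT ht0] with t ht
    have t1 : t ≤ 1 / 2 := ht.2.trans (min_le_left _ _)
    have t2 : t ≤ 1 / (2 * K) := ht.2.trans (min_le_right _ _)
    have t0 : 0 < t := ht.1
    have hKt : K * t ≤ 1 / 2 := by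
      rw [le_div_iff₀ (by positivity)] at t2
      linarith
    set s : ℝ := q * (q - 1) / 2 * w * t ^ 2 - C * t ^ 3 with hs
    have hs1 : |s| ≤ K * t ^ 2 := by
      have e1 : |s| ≤ |q * (q - 1) / 2 * w * t ^ 2| + |C * t ^ 3| := abs_sub _ _
      have e2 : |q * (q - 1) / 2 * w * t ^ 2| = |q * (q - 1) / 2 * w| * t ^ 2 := by
        rw [abs_mul, abs_of_nonneg (sq_nonneg t)]
      have e3 : |C * t ^ 3| = C * t ^ 3 := abs_of_pos (by positivity)
      have e4 : C * t ^ 3 ≤ C * t ^ 2 := by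
        apply mul_le_mul_of_nonneg_left _ hC.le
        apply pow_le_pow_of_le_one t0.le (by linarith) (by norm_num)
      rw [e2, e3] at e1
      rw [hK, add_mul]
      linarith
    have hs2 : K * t ^ 2 ≤ 1 / 2 := by
      have : K * t ^ 2 = (K * t) * t := by ring
      rw [this]
      nlinarith
    have h1 := h t t0 t1 (hs1.trans hs2)
    have h2 := hb s (hs1.trans hs2)
    have h3 : s ^ 2 ≤ K ^ 2 * t ^ 4 := by
      have : s ^ 2 ≤ (K * t ^ 2) ^ 2 := by
        rw [← sq_abs]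
        exact pow_le_pow_left₀ (abs_nonneg _) hs1 2
      calc s ^ 2 ≤ (K * t ^ 2) ^ 2 := this
        _ = K ^ 2 * t ^ 4 := by ring
    have h4 : eR * (1 + 2 / q * s - C2 * (K ^ 2 * t ^ 4)) ≤ eR + t ^ 2 * G := by
      refine le_trans ?_ h1
      apply mul_le_mul_of_nonneg_left _ he.le
      refine le_trans ?_ h2
      have := mul_le_mul_of_nonneg_left h3 hC2.le
      linarith
    have h5 : 2 / q * s = (q - 1) * w * t ^ 2 - 2 / q * C * t ^ 3 := by
      rw [hs]
      field_simp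
    rw [h5] at h4
    have h6 : t ^ 2 * (eR * ((q - 1) * w - 2 / q * C * t - C2 * K ^ 2 * t ^ 2)) ≤ t ^ 2 * G := by
      have e : t ^ 2 * (eR * ((q - 1) * w - 2 / q * C * t - C2 * K ^ 2 * t ^ 2)) =
          eR * (1 + ((q - 1) * w * t ^ 2 - 2 / q * C * t ^ 3) - C2 * (K ^ 2 * t ^ 4)) - eR := by
        ring
      rw [e]
      linarith
    exact le_of_mul_le_mul_left h6 (by positivity)
  have := le_of_tendsto hlim hev
  calc (q - 1) * w * eR = eR * ((q - 1) * w - 2 / q * C * 0 - C2 * K ^ 2 * 0 ^ 2) := by ring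
    _ ≤ G := this

theorem weightedInt_congr {α q : ℝ} {u v : E n → ℝ} (h : u =ᵐ[volume] v) :
    weightedInt α q u = weightedInt α q v := by
  unfold weightedInt
  apply lintegral_congr_ae
  filter_upwards [h] with x hx
  rw [hx]

theorem weightedInt_ne_zero (hn : 3 ≤ n) {α q : ℝ} {u : E n → ℝ}
    (hu : AEMeasurable u) (h : ¬ u =ᵐ[volume] 0) : weightedInt α q u ≠ 0 := by
  intro h0
  apply h
  unfold weightedInt at h0
  rw [lintegral_eq_zero_iff' (aem_weight hu)] at h0
  filter_upwards [h0, ae_ne hn 0] with x hx hx0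
  have hx1 : 0 < ‖x‖ := norm_pos_iff.mpr hx0
  have h1 : ‖x‖ ^ (-beta n α q) * |u x| ^ q ≤ 0 := ENNReal.ofReal_eq_zero.mp hx
  have h2 : 0 < ‖x‖ ^ (-beta n α q) := by positivity
  show u x = 0
  by_contra hu0
  have h3 : 0 < |u x| ^ q := Real.rpow_pos_of_pos (abs_pos.mpr hu0) _
  have := mul_pos h2 h3
  linarith

theorem parallelogram (hn : 3 ≤ n) {α : ℝ} {f g : E n → ℝ} (hf : AEMeasurable f)
    (hg : AEMeasurable g) (t : ℝ) :
    wsq α (fun x => f x + t * g x) + wsq α (fun x => f x + (-t) * g x) =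
      2 * wsq α f + 2 * (ENNReal.ofReal (t ^ 2) * wsq α g) := by
  unfold wsq
  have hw : Measurable fun x : E n => ‖x‖ ^ α := by fun_prop
  have m1 : AEMeasurable (fun x : E n => ENNReal.ofReal (‖x‖ ^ α * (f x + t * g x) ^ 2)) :=
    (hw.aemeasurable.mul ((hf.add (hg.const_mul t)).pow_const 2)).ennreal_ofReal
  have m2 : AEMeasurable (fun x : E n => ENNReal.ofReal (‖x‖ ^ α * f x ^ 2)) :=
    (hw.aemeasurable.mul (hf.pow_const 2)).ennreal_ofReal
  rw [← lintegral_add_left' m1, ← lintegral_const_mul' _ _ (by norm_num),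
    ← lintegral_const_mul' _ _ ENNReal.ofReal_ne_top, ← lintegral_const_mul' _ _ (by norm_num),
    ← lintegral_add_left' (m2.const_mul 2)]
  apply lintegral_congr
  intro x
  have hx : 0 ≤ ‖x‖ ^ α := Real.rpow_nonneg (norm_nonneg _) _
  have e2 : (2 : ℝ≥0∞) = ENNReal.ofReal 2 := by norm_num
  generalize ‖x‖ ^ α = A at hx ⊢
  rw [e2, ← ENNReal.ofReal_add (by positivity) (by positivity), ← ENNReal.ofReal_mul (by norm_num),
    ← ENNReal.ofReal_mul (by positivity), ← ENNReal.ofReal_mul (by norm_num),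
    ← ENNReal.ofReal_add (by positivity) (by positivity)]
  congr 1
  ring

theorem pot_add_ae (hn : 3 ≤ n) {α : ℝ} (h1 : 4 - (n : ℝ) < α) (h2 : α < n) {f g : E n → ℝ}
    (hf : AEMeasurable f) (hfw : wsq α f < ∞) (hg : AEMeasurable g) (hgw : wsq α g < ∞) (t : ℝ) :
    ∀ᵐ x : E n, pot (fun y => f y + t * g y) x = pot f x + t * pot g x := by
  filter_upwards [ae_lintegral_lt_top hn h1 h2 hf hfw, ae_lintegral_lt_top hn h1 h2 hg hgw]
    with x i1 i2
  unfold pot
  rw [← integral_const_mul, ← integral_add i1 (i2.const_mul t)]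
  congr 1
  funext y
  ring

theorem wsq_lt (hn : 3 ≤ n) {α : ℝ} {f g : E n → ℝ} (hf : AEMeasurable f) (hfw : wsq α f < ∞)
    (hg : AEMeasurable g) (hgw : wsq α g < ∞) (t : ℝ) :
    wsq α (fun x => f x + t * g x) < ∞ := by
  have h := parallelogram hn (α := α) hf hg t
  refine lt_of_le_of_lt le_self_add (h.trans_lt ?_)
  exact ENNReal.add_lt_top.mpr ⟨ENNReal.mul_lt_top (by norm_num) hfw,
    ENNReal.mul_lt_top (by norm_num) (ENNReal.mul_lt_top ENNReal.ofReal_lt_top hgw)⟩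

theorem ps_le (i : Fin n) (x : E n) : |ps i x| ≤ 1 := by
  unfold ps
  rw [abs_div, abs_of_nonneg (norm_nonneg x)]
  apply div_le_one_of_le₀ _ (norm_nonneg x)
  exact PiLp.norm_apply_le x i

theorem zero_of_mul (i : Fin n) {t : ℝ} (ht : |t| ≤ 1 / 2) {u : E n → ℝ}
    (h : (fun x => (1 + t * ps i x) * u x) =ᵐ[volume] 0) : u =ᵐ[volume] 0 := by
  filter_upwards [h] with x hx
  have h1 : |t * ps i x| ≤ 1 / 2 := by
    rw [abs_mul]
    calc |t| * |ps i x| ≤ 1 / 2 * 1 := mul_le_mul ht (ps_le i x) (abs_nonneg _) (by norm_num)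
      _ = 1 / 2 := by norm_num
  have h2 : 1 + t * ps i x ≠ 0 := by
    have := (abs_le.mp h1).1
    intro h0
    linarith
  have h3 : (1 + t * ps i x) * u x = 0 := hx
  exact (mul_eq_zero.mp h3).resolve_left h2

/-- clearing denominators -/
theorem clear {e A X Y : ℝ≥0∞} (hX0 : X ≠ 0) (hX : X ≠ ∞) (hY0 : Y ≠ 0) (hY : Y ≠ ∞)
    (he : e ≠ ∞) (hA : A ≠ ∞) (h : e / X ≤ A / Y) :
    e.toReal * Y.toReal ≤ A.toReal * X.toReal := by
  have h1 : e ≤ A / Y * X := (ENNReal.div_le_iff hX0 hX).mp h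
  have h2 : e * Y ≤ A * X := by
    calc e * Y ≤ A / Y * X * Y := mul_le_mul' h1 le_rfl
      _ = A / Y * Y * X := by ring
      _ = A * X := by rw [ENNReal.div_mul_cancel hY0 hY]
  rw [← ENNReal.toReal_mul, ← ENNReal.toReal_mul]
  exact ENNReal.toReal_mono (ENNReal.mul_ne_top hA hX) h2

end VAR_

open VAR_ in
theorem var_proof (hENE : Stmt_ENE) (hBIN : Stmt_BIN) (hWPT : Stmt_WPT) : Stmt_VAR := by
  intro n α q u hn h1 h2 hq hext hrad
  obtain ⟨hu0, hWtop, e, hE, hbest⟩ := hext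
  obtain ⟨f, hfm, hfw, hef, huf⟩ := repr_of_hasEnergy hn h1 h2 hE
  have hq0 : 0 < q := by linarith
  set u' : E n → ℝ := fun x => -(kap n)⁻¹ * pot f x with hu'
  have hm' : AEStronglyMeasurable u' volume := (pot_aestronglyMeasurable hfm).const_mul _
  have hrad' : IsRadial u' := by
    obtain ⟨g, hg⟩ := hrad
    exact ⟨g, huf.symm.trans hg⟩
  have hu0' : ¬ u' =ᵐ[volume] 0 := fun h => hu0 (huf.trans h)
  have hW : weightedInt α q u = weightedInt α q u' := weightedInt_congr huf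
  rw [hW] at hWtop hbest
  set W := weightedInt α q u' with hWdef
  have hW0 : W ≠ 0 := weightedInt_ne_zero hn hm'.aemeasurable hu0'
  have he0 : e ≠ 0 := by
    intro h0
    apply hu0'
    have hf0 : f =ᵐ[volume] 0 := ae_zero_of_wsq hn hfm (hef ▸ h0)
    have hp : ∀ x, pot f x = 0 := by
      intro x
      unfold pot
      rw [← integral_zero (E n) ℝ]
      apply integral_congr_ae
      filter_upwards [hf0] with y hy
      rw [hy]
      simp
    filter_upwards with x
    show -(kap n)⁻¹ * pot f x = 0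
    rw [hp, mul_zero]
  have hetop : e ≠ ∞ := by rw [hef]; exact hfw.ne
  have heR : 0 < e.toReal := ENNReal.toReal_pos he0 hetop
  have hWR : 0 < W.toReal := ENNReal.toReal_pos hW0 hWtop
  obtain ⟨g, hgm, hgw, hg, hsum⟩ := hENE n α f u' hn h1 h2 hfm hfw rfl hrad'
  obtain ⟨C, w, hC, hw1, hwt⟩ := hWPT n α q u' hn hq hm' hrad' (lt_top_iff_ne_top.mpr hWtop)
    (pos_iff_ne_zero.mpr hW0)
  have hp1 : (2 : ℝ) / q < 1 := by rw [div_lt_one hq0]; exact hq
  have hp0 : (0 : ℝ) < 2 / q := by positivity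
  -- comparison
  have hcmp : ∀ (i : Fin n) (t : ℝ), |t| ≤ 1 / 2 →
      0 ≤ 1 + (q * (q - 1) / 2 * w i * t ^ 2 - C * |t| ^ 3) →
      e.toReal * (1 + (q * (q - 1) / 2 * w i * t ^ 2 - C * |t| ^ 3)) ^ (2 / q) ≤
        (wsq α (fun x => f x + t * g i x)).toReal := by
    intro i t ht hs
    obtain ⟨hv1, hv2⟩ := hwt i t ht
    set v : E n → ℝ := fun x => (1 + t * ps i x) * u' x with hv
    set v' : E n → ℝ := fun x => -(kap n)⁻¹ * pot (fun y => f y + t * g i y) x with hv'
    have hvv : v =ᵐ[volume] v' := by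
      filter_upwards [pot_add_ae hn h1 h2 hfm hfw (hgm i) (hgw i) t, hg i] with x hx1 hx2
      show (1 + t * ps i x) * u' x = -(kap n)⁻¹ * pot (fun y => f y + t * g i y) x
      have hx3 : ps i x * u' x = -(kap n)⁻¹ * pot (g i) x := hx2
      rw [hx1, add_mul, one_mul, mul_assoc, hx3, hu']
      ring
    have hmv : AEMeasurable (fun x => f x + t * g i x) := hfm.add ((hgm i).const_mul t)
    have hAlt := wsq_lt hn (α := α) hfm hfw (hgm i) (hgw i) t
    have hEv : HasEnergy α v' (wsq α (fun x => f x + t * g i x)) :=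
      hasEnergy_pot hn h1 h2 hmv hAlt
    have hv0 : ¬ v' =ᵐ[volume] 0 := fun h => hu0' (zero_of_mul i ht (hvv.trans h))
    have hmv' : AEMeasurable v' := ((pot_aestronglyMeasurable hmv).const_mul _).aemeasurable
    have hWv : weightedInt α q v = weightedInt α q v' := weightedInt_congr hvv
    rw [hWv] at hv1 hv2
    have hWv0 : weightedInt α q v' ≠ 0 := weightedInt_ne_zero hn hmv' hv0
    have hle : e / W ^ (2 / q) ≤
        wsq α (fun x => f x + t * g i x) / weightedInt α q v' ^ (2 / q) := by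
      rw [hbest]
      unfold bestConst
      exact iInf_le_of_le v' (iInf_le_of_le _ (iInf_le_of_le hEv (iInf_le_of_le hv0 le_rfl)))
    have hcl := clear (by
        intro h0
        rcases ENNReal.rpow_eq_zero_iff.mp h0 with h | h
        · exact hW0 h.1
        · exact hWtop h.1) (ENNReal.rpow_ne_top_of_nonneg hp0.le hWtop) (by
        intro h0
        rcases ENNReal.rpow_eq_zero_iff.mp h0 with h | h
        · exact hWv0 h.1
        · exact hv1.ne h.1) (ENNReal.rpow_ne_top_of_nonneg hp0.le hv1.ne) hetop hAlt.ne hle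
    rw [← ENNReal.toReal_rpow, ← ENNReal.toReal_rpow] at hcl
    have hWp : 0 < W.toReal ^ (2 / q) := Real.rpow_pos_of_pos hWR _
    set s : ℝ := q * (q - 1) / 2 * w i * t ^ 2 - C * |t| ^ 3 with hsd
    have h3 : W.toReal * (1 + s) ≤ (weightedInt α q v').toReal := by
      refine le_trans (le_of_eq ?_) hv2
      rw [hsd]
      ring
    have h4 : W.toReal ^ (2 / q) * (1 + s) ^ (2 / q) ≤ (weightedInt α q v').toReal ^ (2 / q) := by
      rw [← Real.mul_rpow hWR.le hs]
      exact Real.rpow_le_rpow (by positivity) h3 hp0.le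
    have h5 : W.toReal ^ (2 / q) * (e.toReal * (1 + s) ^ (2 / q)) ≤
        W.toReal ^ (2 / q) * (wsq α (fun x => f x + t * g i x)).toReal := by
      calc W.toReal ^ (2 / q) * (e.toReal * (1 + s) ^ (2 / q))
          = e.toReal * (W.toReal ^ (2 / q) * (1 + s) ^ (2 / q)) := by ring
        _ ≤ e.toReal * (weightedInt α q v').toReal ^ (2 / q) :=
          mul_le_mul_of_nonneg_left h4 heR.le
        _ ≤ (wsq α (fun x => f x + t * g i x)).toReal * W.toReal ^ (2 / q) := hcl
        _ = _ := by ring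
    exact le_of_mul_le_mul_left h5 hWp
  have hi : ∀ i : Fin n, (q - 1) * w i * e.toReal ≤ (wsq α (g i)).toReal := by
    intro i
    refine elem hq heR (hBIN.2 (2 / q) hp0 hp1) hC ?_
    intro t ht0 ht1 ht2
    have hs0 : 0 ≤ 1 + (q * (q - 1) / 2 * w i * t ^ 2 - C * t ^ 3) := by
      have := (abs_le.mp ht2).1
      linarith
    have ha : |t| = t := abs_of_pos ht0
    have a1 := hcmp i t (by rw [ha]; exact ht1) (by rw [ha]; exact hs0)
    have a2 := hcmp i (-t) (by rw [abs_neg, ha]; exact ht1) (by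
      rw [abs_neg, ha, neg_sq]; exact hs0)
    rw [ha] at a1
    rw [abs_neg, ha, neg_sq] at a2
    have hpar := parallelogram hn (α := α) hfm (hgm i) t
    have hA1 := wsq_lt hn (α := α) hfm hfw (hgm i) (hgw i) t
    have hA2 := wsq_lt hn (α := α) hfm hfw (hgm i) (hgw i) (-t)
    have hpar' := congrArg ENNReal.toReal hpar
    rw [ENNReal.toReal_add hA1.ne hA2.ne,
      ENNReal.toReal_add (ENNReal.mul_ne_top (by norm_num) hfw.ne)
        (ENNReal.mul_ne_top (by norm_num) (ENNReal.mul_ne_top ENNReal.ofReal_ne_top (hgw i).ne)),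
      ENNReal.toReal_mul, ENNReal.toReal_mul, ENNReal.toReal_mul,
      ENNReal.toReal_ofReal (sq_nonneg t), ← hef] at hpar'
    have e2 : (2 : ℝ≥0∞).toReal = 2 := by norm_num
    rw [e2] at hpar'
    linarith
  have hsumR : ∑ i, (wsq α (g i)).toReal ≤ (1 + ((n : ℝ) - 1) / gm n α) ^ 2 * e.toReal := by
    have htop : ENNReal.ofReal ((1 + ((n : ℝ) - 1) / gm n α) ^ 2) * wsq α f ≠ ∞ :=
      ENNReal.mul_ne_top ENNReal.ofReal_ne_top hfw.ne
    have := ENNReal.toReal_mono htop hsum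
    rw [ENNReal.toReal_sum (fun i _ => (hgw i).ne), ENNReal.toReal_mul,
      ENNReal.toReal_ofReal (sq_nonneg _), ← hef] at this
    exact this
  have hfin : (q - 1) * e.toReal ≤ (1 + ((n : ℝ) - 1) / gm n α) ^ 2 * e.toReal := by
    calc (q - 1) * e.toReal = ∑ i, (q - 1) * w i * e.toReal := by
          rw [← Finset.sum_mul, ← Finset.mul_sum, hw1, mul_one]
      _ ≤ ∑ i, (wsq α (g i)).toReal := Finset.sum_le_sum fun i _ => hi i
      _ ≤ _ := hsumR
  exact le_of_mul_le_mul_right hfin heR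

end NRX
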