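import Pool.Agent.NRX.Stmts

/-!
# Squad NRX, module WCN: weak convergence and norms
-/

set_option autoImplicit false

namespace NRX

open MeasureTheory InnerProductSpace Laplacian Topology ENNReal
open Filter hiding ker
open Pool.Agent.Helper52.CKN

namespace WCN_

variable {n : ℕ}

theorem sq_aesm (α : ℝ) {f : E n → ℝ} (hf : AEMeasurable f) :
    AEStronglyMeasurable (fun x : E n => ‖x‖ ^ α * f x ^ 2) volume := by
  apply AEMeasurable.aestronglyMeasurable
  apply AEMeasurable.mul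
  · apply Measurable.aemeasurable; fun_prop
  · exact hf.pow_const 2

theorem sq_nn (α : ℝ) (f : E n → ℝ) : 0 ≤ᵐ[volume] fun x : E n => ‖x‖ ^ α * f x ^ 2 :=
  Eventually.of_forall fun x => by positivity

theorem sq_int (α : ℝ) {f : E n → ℝ} (hf : AEMeasurable f) (hw : wsq α f < ∞) :
    Integrable (fun x : E n => ‖x‖ ^ α * f x ^ 2) := by
  refine ⟨sq_aesm α hf, ?_⟩
  rw [hasFiniteIntegral_iff_ofReal (sq_nn α f)]
  exact hw

theorem toReal_wsq (α : ℝ) {f : E n → ℝ} (hf : AEMeasurable f) :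
    (wsq α f).toReal = ∫ x : E n, ‖x‖ ^ α * f x ^ 2 := by
  rw [integral_eq_lintegral_of_nonneg_ae (sq_nn α f) (sq_aesm α hf)]
  rfl

theorem wsq_dual (hn : 3 ≤ n) (α : ℝ) (g : E n → ℝ) :
    wsq (-α) (fun x : E n => ‖x‖ ^ α * g x) = wsq α g := by
  unfold wsq
  apply lintegral_congr_ae
  filter_upwards [ae_ne hn 0] with y hy
  have hy0 : 0 < ‖y‖ := norm_pos_iff.mpr hy
  congr 1
  have e1 : ‖y‖ ^ (-α) * ‖y‖ ^ α = 1 := by
    rw [← Real.rpow_add hy0, neg_add_cancel, Real.rpow_zero]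
  linear_combination (‖y‖ ^ α * g y ^ 2) * e1

end WCN_

open WCN_ in
theorem wcn_proof (hCSP : Stmt_CSP) : Stmt_WCN := by
  intro n α f g hn hf hf1 hg hg1 hWC ε hε
  have hgm : AEMeasurable (fun x : E n => ‖x‖ ^ α * g x) := by
    apply AEMeasurable.mul _ hg
    apply Measurable.aemeasurable; fun_prop
  have hgfin : wsq α g < ∞ := lt_of_le_of_lt hg1 (by norm_num)
  have hffin : ∀ k, wsq α (f k) < ∞ := fun k => lt_of_le_of_lt (hf1 k) (by norm_num)
  have hdfin : wsq (-α) (fun x : E n => ‖x‖ ^ α * g x) < ∞ := by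
    rw [wsq_dual hn]
    exact hgfin
  have hlim := hWC _ hgm hdfin
  have hθ : ∫ x, g x * (‖x‖ ^ α * g x) = (wsq α g).toReal := by
    rw [toReal_wsq α hg]
    congr 1
    funext x
    ring
  rw [hθ] at hlim
  have hev := hlim.eventually_const_lt (show (wsq α g).toReal - ε / 2 < (wsq α g).toReal by linarith)
  filter_upwards [hev] with k hk
  have hH : Integrable (fun x => f k x * (‖x‖ ^ α * g x)) :=
    (hCSP n α (f k) _ hn (hf k) hgm (hffin k) hdfin).1
  have hF := sq_int α (hf k) (hffin k)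
  have hG := sq_int α hg hgfin
  have e1 : (fun x : E n => ‖x‖ ^ α * (f k x - g x) ^ 2) = fun x =>
      (‖x‖ ^ α * f k x ^ 2 - 2 * (f k x * (‖x‖ ^ α * g x))) + ‖x‖ ^ α * g x ^ 2 := by
    funext x
    ring
  have hint : Integrable (fun x : E n => ‖x‖ ^ α * (f k x - g x) ^ 2) := by
    rw [e1]
    exact (hF.sub (hH.const_mul 2)).add hG
  have e2 : ∫ x : E n, ‖x‖ ^ α * (f k x - g x) ^ 2 =
      (wsq α (f k)).toReal - 2 * (∫ x, f k x * (‖x‖ ^ α * g x)) + (wsq α g).toReal := by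
    have hFH : Integrable (fun x : E n =>
        ‖x‖ ^ α * f k x ^ 2 - 2 * (f k x * (‖x‖ ^ α * g x))) := hF.sub (hH.const_mul 2)
    rw [e1, integral_add hFH hG, integral_sub hF (hH.const_mul 2),
      integral_const_mul, toReal_wsq α (hf k), toReal_wsq α hg]
  have e3 : wsq α (fun x => f k x - g x) =
      ENNReal.ofReal (∫ x : E n, ‖x‖ ^ α * (f k x - g x) ^ 2) := by
    rw [ofReal_integral_eq_lintegral_ofReal hint (sq_nn α _)]
    rfl
  have e4 : (wsq α (f k)).toReal ≤ 1 := by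
    have := ENNReal.toReal_mono (by norm_num) (hf1 k)
    simpa using this
  rw [e3, e2]
  apply ENNReal.ofReal_le_ofReal
  linarith

end NRX
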