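import Pool.Agent.NRX.Stmts

/-!
# Squad NRX, module WCP: weak compactness
-/

set_option autoImplicit false

namespace NRX

open MeasureTheory InnerProductSpace Laplacian Topology ENNReal
open Filter hiding ker
open Pool.Agent.Helper52.CKN

namespace WCP_

/-- the integral as an inner product -/
theorem int_eq_inner {n : ℕ} (hn : 3 ≤ n) {α : ℝ} {f h : E n → ℝ} (F H : Lp ℝ 2 (volume : Measure (E n)))
    (hF : F =ᵐ[volume] tw α f) (hH : H =ᵐ[volume] tw (-α) h) :
    ∫ x, f x * h x = inner ℝ F H := by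
  rw [MeasureTheory.L2.inner_def]
  apply integral_congr_ae
  filter_upwards [hF, hH, ae_ne hn 0] with x h1 h2 h3
  have hx0 : 0 < ‖x‖ := norm_pos_iff.mpr h3
  rw [h1, h2]
  change f x * h x = tw (-α) h x * tw α f x
  unfold tw
  have e : ‖x‖ ^ (-α / 2) * ‖x‖ ^ (α / 2) = 1 := by
    rw [← Real.rpow_add hx0]
    have : -α / 2 + α / 2 = 0 := by ring
    rw [this, Real.rpow_zero]
  calc f x * h x = (‖x‖ ^ (-α / 2) * ‖x‖ ^ (α / 2)) * (f x * h x) := by rw [e, one_mul]
    _ = _ := by ring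

end WCP_

open WCP_ in
theorem wcp_proof : Stmt_WCP := by
  intro n α f hn hfm hfw
  have : Fact ((2 : ℝ≥0∞) ≠ ∞) := ⟨by norm_num⟩
  have hL : ∀ k, MemLp (tw α (f k)) 2 volume := fun k =>
    tw_memLp hn (hfm k) (lt_of_le_of_lt (hfw k) ENNReal.one_lt_top)
  let F : ℕ → Lp ℝ 2 (volume : Measure (E n)) := fun k => (hL k).toLp (tw α (f k))
  have hFn : ∀ k, ‖F k‖ ≤ 1 := by
    intro k
    have h1 := hfw k
    rw [wsq_eq_norm hn (hL k), ENNReal.ofReal_le_one] at h1
    change ‖F k‖ ^ 2 ≤ 1 at h1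
    have h2 := norm_nonneg (F k)
    nlinarith
  have hcpt := WeakDual.isSeqCompact_closedBall ℝ (Lp ℝ 2 (volume : Measure (E n)))
    (0 : StrongDual ℝ (Lp ℝ 2 (volume : Measure (E n)))) 1
  let D : ℕ → WeakDual ℝ (Lp ℝ 2 (volume : Measure (E n))) := fun k =>
    StrongDual.toWeakDual (InnerProductSpace.toDual ℝ _ (F k))
  have hD : ∀ k, D k ∈ (WeakDual.toStrongDual ⁻¹' Metric.closedBall
      (0 : StrongDual ℝ (Lp ℝ 2 (volume : Measure (E n)))) 1) := by
    intro k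
    rw [Set.mem_preimage, mem_closedBall_zero_iff]
    change ‖InnerProductSpace.toDual ℝ _ (F k)‖ ≤ 1
    rw [LinearIsometryEquiv.norm_map]
    exact hFn k
  obtain ⟨Ψ, hΨ, σ, hσ, hlim⟩ := hcpt hD
  let Ψ' : StrongDual ℝ (Lp ℝ 2 (volume : Measure (E n))) := WeakDual.toStrongDual Ψ
  let G : Lp ℝ 2 (volume : Measure (E n)) := (InnerProductSpace.toDual ℝ _).symm Ψ'
  have hG : ‖G‖ ≤ 1 := by
    rw [Set.mem_preimage, mem_closedBall_zero_iff] at hΨ
    change ‖(InnerProductSpace.toDual ℝ _).symm Ψ'‖ ≤ 1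
    rw [LinearIsometryEquiv.norm_map]
    exact hΨ
  have hGm : AEMeasurable (fun x : E n => ‖x‖ ^ (-α / 2) * G x) := by
    apply AEMeasurable.mul
    · apply Measurable.aemeasurable; fun_prop
    · exact (Lp.aestronglyMeasurable G).aemeasurable
  have hGt : tw α (fun x : E n => ‖x‖ ^ (-α / 2) * G x) =ᵐ[volume] G := by
    filter_upwards [ae_ne hn 0] with x h3
    have hx0 : 0 < ‖x‖ := norm_pos_iff.mpr h3
    unfold tw
    rw [← mul_assoc, ← Real.rpow_add hx0]
    have : α / 2 + -α / 2 = 0 := by ring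
    rw [this, Real.rpow_zero, one_mul]
  refine ⟨σ, fun x => ‖x‖ ^ (-α / 2) * G x, hσ, hGm, ?_, ?_⟩
  · rw [wsq_eq_eLpNorm hn, eLpNorm_congr_ae hGt]
    have h1 : eLpNorm G 2 volume ≤ 1 := by
      rw [← ENNReal.ofReal_toReal (Lp.eLpNorm_ne_top G), ENNReal.ofReal_le_one]
      exact hG
    exact pow_le_one' h1 2
  · intro h hhm hhw
    have hH := tw_memLp hn hhm hhw
    have key : ∀ k, ∫ x, f k x * h x = inner ℝ (F k) (hH.toLp _) := fun k =>
      int_eq_inner hn (F k) (hH.toLp _) (hL k).coeFn_toLp hH.coeFn_toLp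
    have key2 : ∫ x, (‖x‖ ^ (-α / 2) * G x) * h x = inner ℝ G (hH.toLp _) :=
      int_eq_inner hn G (hH.toLp _) hGt.symm hH.coeFn_toLp
    rw [key2]
    simp only [key]
    have h1 := ((WeakDual.eval_continuous (hH.toLp _)).tendsto Ψ).comp hlim
    have h2 : Ψ (hH.toLp _) = inner ℝ G (hH.toLp _) := by
      rw [InnerProductSpace.toDual_symm_apply]
      rfl
    rw [h2] at h1
    exact h1

end NRX
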