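import Pool.Agent.NRX.Stmts

/-!
# Squad NRX, module WEK: the equation `-Δ pot f = κ f` in the weak sense
-/

set_option autoImplicit false

namespace NRX

open MeasureTheory InnerProductSpace Laplacian Topology ENNReal
open Filter hiding ker
open Pool.Agent.Helper52.CKN

namespace WEK_

variable {n : ℕ}

theorem fin_ball (hn : 3 ≤ n) {α : ℝ} (h1 : 4 - (n : ℝ) < α) (h2 : α < n) {f : E n → ℝ}
    (hf : AEMeasurable f) (hw : wsq α f < ∞) {ρ : ℝ} (hρ : 1 ≤ ρ) :
    ∫⁻ x in Metric.ball (0 : E n) ρ, ∫⁻ y, ENNReal.ofReal (ker x y * |f y|) < ∞ := by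
  obtain ⟨C, hC, hb⟩ := lintegral_pot_le (n := n) hn α hρ
  refine lt_of_le_of_lt (hb f hf) ?_
  apply ENNReal.mul_lt_top hC
  exact ENNReal.mul_lt_top (ENNReal.rpow_lt_top_of_nonneg (by norm_num) (Cw_lt_top hn h1 h2).ne)
    (ENNReal.rpow_lt_top_of_nonneg (by norm_num) hw.ne)

theorem int_ball (hn : 3 ≤ n) {α : ℝ} (h1 : 4 - (n : ℝ) < α) (h2 : α < n) {f : E n → ℝ}
    (hf : AEMeasurable f) (hw : wsq α f < ∞) (r : ℝ) :
    IntegrableOn (pot f) (Metric.ball 0 r) := by
  obtain ⟨C, hC, hb⟩ := lintegral_enorm_pot_le (n := n) hn α (ρ := max r 1) (le_max_right _ _)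
  have h : IntegrableOn (pot f) (Metric.ball 0 (max r 1)) := by
    refine ⟨(pot_aestronglyMeasurable hf).restrict, ?_⟩
    rw [HasFiniteIntegral]
    refine lt_of_le_of_lt (hb f hf) ?_
    apply ENNReal.mul_lt_top hC
    exact ENNReal.mul_lt_top (ENNReal.rpow_lt_top_of_nonneg (by norm_num) (Cw_lt_top hn h1 h2).ne)
      (ENNReal.rpow_lt_top_of_nonneg (by norm_num) hw.ne)
  exact h.mono_set (Metric.ball_subset_ball (le_max_left _ _))

theorem exists_ball {g : E n → ℝ} (hc : HasCompactSupport g) :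
    ∃ ρ : ℝ, 1 ≤ ρ ∧ Function.support g ⊆ Metric.ball 0 ρ := by
  obtain ⟨ρ, hρ⟩ := hc.isCompact.isBounded.subset_ball (0 : E n)
  exact ⟨max ρ 1, le_max_right _ _, fun x hx =>
    Metric.ball_subset_ball (le_max_left _ _) (hρ (subset_tsupport g hx))⟩

theorem int_mul (hn : 3 ≤ n) {α : ℝ} (h1 : 4 - (n : ℝ) < α) (h2 : α < n) {f : E n → ℝ}
    (hf : AEMeasurable f) (hw : wsq α f < ∞) {g : E n → ℝ} (hg : Continuous g)
    (hc : HasCompactSupport g) : Integrable (fun x => pot f x * g x) := by
  obtain ⟨ρ, hρ, hs⟩ := exists_ball hc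
  obtain ⟨M, hM0, hM⟩ := bounded_of_compact hg hc
  have h3 : IntegrableOn (fun x => pot f x * g x) (Metric.ball 0 ρ) := by
    refine Integrable.mul_bdd (c := M) (int_ball hn h1 h2 hf hw ρ) hg.aestronglyMeasurable ?_
    exact Eventually.of_forall hM
  rwa [integrableOn_iff_integrable_of_support_subset] at h3
  intro x hx
  apply hs
  intro h0
  apply hx
  show pot f x * g x = 0
  rw [h0, mul_zero]

theorem om_continuous : Continuous (om : E n → ℝ) := by
  unfold om
  refine Continuous.rpow_const (by fun_prop) fun y => Or.inl ?_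
  have := norm_nonneg y
  linarith

theorem int_f (hn : 3 ≤ n) {α : ℝ} (h1 : 4 - (n : ℝ) < α) (h2 : α < n) {f : E n → ℝ}
    (hf : AEMeasurable f) (hw : wsq α f < ∞) {g : E n → ℝ} (hg : Continuous g)
    (hc : HasCompactSupport g) : Integrable (fun x => f x * g x) := by
  have hgo : Continuous fun x : E n => g x / om x :=
    hg.div om_continuous fun x => (om_pos x).ne'
  have hco : HasCompactSupport fun x : E n => g x / om x := by
    have : (fun x : E n => g x / om x) = fun x => g x * (om x)⁻¹ := by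
      funext x; rw [div_eq_mul_inv]
    rw [this]
    exact hc.mul_right
  obtain ⟨M, hM0, hM⟩ := bounded_of_compact hgo hco
  have h3 : Integrable (fun x => om x * f x) := by
    refine ⟨(om_measurable.aemeasurable.mul hf).aestronglyMeasurable, ?_⟩
    rw [hasFiniteIntegral_iff_norm]
    have h4 := lintegral_om_le (n := n) hn (α := α) hf
    refine lt_of_le_of_lt (le_trans (le_of_eq ?_) h4) ?_
    · congr 1
      funext x
      rw [norm_mul, Real.norm_of_nonneg (om_pos x).le, Real.norm_eq_abs]
    · exact ENNReal.mul_lt_top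
        (ENNReal.rpow_lt_top_of_nonneg (by norm_num) (Cw_lt_top hn h1 h2).ne)
        (ENNReal.rpow_lt_top_of_nonneg (by norm_num) hw.ne)
  have h5 := h3.mul_bdd (c := M) hgo.aestronglyMeasurable (Eventually.of_forall hM)
  refine h5.congr (Eventually.of_forall fun x => ?_)
  have := (om_pos x).ne'
  show om x * f x * (g x / om x) = f x * g x
  field_simp

theorem fubini (hn : 3 ≤ n) {α : ℝ} (h1 : 4 - (n : ℝ) < α) (h2 : α < n) {f : E n → ℝ}
    (hf : AEMeasurable f) (hw : wsq α f < ∞) {g : E n → ℝ} (hg : Continuous g)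
    (hc : HasCompactSupport g) : ∫ x, pot f x * g x = ∫ y, f y * ∫ x, ker y x * g x := by
  obtain ⟨ρ, hρ, hs⟩ := exists_ball hc
  obtain ⟨M, hM0, hM⟩ := bounded_of_compact hg hc
  have hmeas : AEStronglyMeasurable (fun p : E n × E n => ker p.1 p.2 * f p.2 * g p.1)
      (volume.prod volume) := by
    apply AEMeasurable.aestronglyMeasurable
    exact (ker_measurable.aemeasurable.mul hf.comp_snd).mul
      (hg.measurable.comp measurable_fst).aemeasurable
  have hint : Integrable (fun p : E n × E n => ker p.1 p.2 * f p.2 * g p.1)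
      (volume.prod volume) := by
    refine ⟨hmeas, ?_⟩
    rw [hasFiniteIntegral_iff_norm, lintegral_prod _ (by
      exact (hmeas.norm.aemeasurable).ennreal_ofReal)]
    have hb : ∀ x : E n, ∫⁻ y, ENNReal.ofReal ‖ker x y * f y * g x‖ ≤
        (Metric.ball (0 : E n) ρ).indicator (fun x => ENNReal.ofReal M *
          ∫⁻ y, ENNReal.ofReal (ker x y * |f y|)) x := by
      intro x
      by_cases hx : x ∈ Metric.ball (0 : E n) ρ
      · rw [Set.indicator_of_mem hx, ← lintegral_const_mul' _ _ ENNReal.ofReal_ne_top]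
        apply lintegral_mono
        intro y
        show ENNReal.ofReal ‖ker x y * f y * g x‖ ≤
          ENNReal.ofReal M * ENNReal.ofReal (ker x y * |f y|)
        rw [← ENNReal.ofReal_mul hM0]
        apply ENNReal.ofReal_le_ofReal
        rw [norm_mul, norm_mul, Real.norm_of_nonneg (ker_nonneg x y), Real.norm_eq_abs (f y),
          mul_comm]
        exact mul_le_mul_of_nonneg_right (hM x) (mul_nonneg (ker_nonneg x y) (abs_nonneg _))
      · rw [Set.indicator_of_notMem hx]
        have h0 : g x = 0 := by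
          by_contra h
          exact hx (hs h)
        simp [h0]
    refine lt_of_le_of_lt (lintegral_mono hb) ?_
    rw [lintegral_indicator Metric.isOpen_ball.measurableSet,
      lintegral_const_mul' _ _ ENNReal.ofReal_ne_top]
    exact ENNReal.mul_lt_top ENNReal.ofReal_lt_top (fin_ball hn h1 h2 hf hw hρ)
  have e1 : ∫ x, pot f x * g x = ∫ x, ∫ y, ker x y * f y * g x := by
    congr 1
    funext x
    unfold pot
    rw [integral_mul_const]
  rw [e1, integral_integral_swap hint]
  congr 1
  funext y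
  rw [← integral_const_mul]
  congr 1
  funext x
  rw [ker_comm y x]
  ring

end WEK_

open WEK_ in
theorem wek_proof : Stmt_WEK := by
  intro n α f η hn h1 h2 hf hw hη
  have hl := lap_continuous hη.1
  have hlc := lap_hasCompactSupport hη.1 hη.2.1
  refine ⟨int_mul hn h1 h2 hf hw hl hlc, int_f hn h1 h2 hf hw hη.1.continuous hη.2.1,
    int_ball hn h1 h2 hf hw, ?_⟩
  rw [fubini hn h1 h2 hf hw hl hlc]
  have e : ∀ y : E n, f y * ∫ x, ker y x * Δ η x = -(kap n) * (f y * η y) := by
    intro y
    rw [newton_repr hn hη.1 hη.2.1 y]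
    ring
  simp_rw [e]
  rw [integral_const_mul]
  ring

end NRX
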