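import Pool.Agent.NRX.Stmts

/-!
# Squad NRX: module WPT, the integrals of the perturbed functions
-/

set_option autoImplicit false

namespace NRX

open MeasureTheory InnerProductSpace Laplacian Topology ENNReal
open Filter hiding ker
open Pool.Agent.Helper52.CKN

namespace WPT_

variable {n : ℕ}

/-- the integrand -/
noncomputable def pp (α q : ℝ) (u : E n → ℝ) (x : E n) : ℝ := ‖x‖ ^ (-beta n α q) * |u x| ^ q

theorem pp_nonneg (α q : ℝ) (u : E n → ℝ) (x : E n) : 0 ≤ pp α q u x := by
  unfold pp; positivity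

theorem ps_measurable (i : Fin n) : Measurable (ps i : E n → ℝ) := by
  unfold ps
  fun_prop

theorem pp_meas (α q : ℝ) {u : E n → ℝ} (hu : AEStronglyMeasurable u volume) :
    AEStronglyMeasurable (pp α q u) volume := by
  unfold pp
  apply AEStronglyMeasurable.mul
  · apply Measurable.aestronglyMeasurable
    fun_prop
  · exact ((hu.aemeasurable.abs).pow_const q).aestronglyMeasurable

theorem abs_ps_le (i : Fin n) (x : E n) : |ps i x| ≤ 1 := by
  unfold ps
  rw [abs_div, abs_of_nonneg (norm_nonneg x)]
  apply div_le_one_of_le₀ _ (norm_nonneg x)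
  have := EuclideanSpace.norm_eq x
  rw [this]
  apply Real.le_sqrt_of_sq_le
  have h := Finset.single_le_sum (f := fun j : Fin n => ‖x j‖ ^ 2) (fun j _ => sq_nonneg _)
    (Finset.mem_univ i)
  simpa [Real.norm_eq_abs] using h

theorem sum_ps_sq (x : E n) (hx : x ≠ 0) : ∑ i, ps i x ^ 2 = 1 := by
  unfold ps
  have h0 : ‖x‖ ^ 2 ≠ 0 := pow_ne_zero 2 (norm_ne_zero_iff.mpr hx)
  have h1 : ‖x‖ ^ 2 = ∑ i, x i ^ 2 := by
    rw [EuclideanSpace.norm_sq_eq]
    simp [Real.norm_eq_abs, sq_abs]
  simp only [div_pow]
  rw [← Finset.sum_div, ← h1, div_self h0]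

theorem bdd_integrable {p : E n → ℝ} (hp : Integrable p) {c : E n → ℝ} (hc : Measurable c)
    {B : ℝ} (hB : ∀ x, |c x| ≤ B) : Integrable (fun x => c x * p x) := by
  apply Integrable.mono' (hp.norm.const_mul B)
  · exact hc.aestronglyMeasurable.mul hp.aestronglyMeasurable
  · refine Eventually.of_forall fun x => ?_
    rw [norm_mul]
    exact mul_le_mul_of_nonneg_right (hB x) (norm_nonneg _)

theorem pp_integrable {α q : ℝ} {u : E n → ℝ} (hu : AEStronglyMeasurable u volume)
    (hfin : weightedInt α q u < ∞) : Integrable (pp α q u) := by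
  refine ⟨pp_meas α q hu, ?_⟩
  rw [hasFiniteIntegral_iff_ofReal (Eventually.of_forall fun x => pp_nonneg α q u x)]
  exact hfin

theorem toReal_eq {α q : ℝ} {u : E n → ℝ} (hu : AEStronglyMeasurable u volume) :
    (weightedInt α q u).toReal = ∫ x, pp α q u x := by
  rw [integral_eq_lintegral_of_nonneg_ae (Eventually.of_forall fun x => pp_nonneg α q u x)
    (pp_meas α q hu)]
  rfl

theorem odd_zero {α q : ℝ} {u : E n → ℝ} (hr : IsRadial u) (i : Fin n) :
    ∫ x, ps i x * pp α q u x = 0 := by
  obtain ⟨g, hg⟩ := hr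
  have h1 : ∫ x, ps i x * pp α q u x = ∫ x, ps i x * pp α q (fun x : E n => g ‖x‖) x := by
    apply integral_congr_ae
    filter_upwards [hg] with x hx
    unfold pp
    rw [hx]
  rw [h1]
  have h2 := integral_neg_eq_self (fun x : E n => ps i x * pp α q (fun x : E n => g ‖x‖) x) volume
  have h3 : (fun x : E n => ps i (-x) * pp α q (fun x : E n => g ‖x‖) (-x)) =
      fun x => -(ps i x * pp α q (fun x : E n => g ‖x‖) x) := by
    funext x
    unfold ps pp
    simp only [norm_neg, PiLp.neg_apply]
    ring
  rw [h3, integral_neg] at h2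
  linarith

theorem pert_meas {u : E n → ℝ} (hu : AEStronglyMeasurable u volume) (i : Fin n) (t : ℝ) :
    AEStronglyMeasurable (fun x => (1 + t * ps i x) * u x) volume := by
  apply AEStronglyMeasurable.mul _ hu
  apply Measurable.aestronglyMeasurable
  exact ((ps_measurable i).const_mul t).const_add 1

theorem abs_s_le (i : Fin n) (t : ℝ) (x : E n) : |t * ps i x| ≤ |t| := by
  rw [abs_mul]
  calc |t| * |ps i x| ≤ |t| * 1 := mul_le_mul_of_nonneg_left (abs_ps_le i x) (abs_nonneg _)
    _ = |t| := mul_one _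

theorem pert_eq (α q : ℝ) (u : E n → ℝ) (i : Fin n) (t : ℝ) (ht : |t| ≤ 1 / 2) (x : E n) :
    pp α q (fun x => (1 + t * ps i x) * u x) x = (1 + t * ps i x) ^ q * pp α q u x := by
  unfold pp
  have h1 := (abs_s_le i t x).trans ht
  have h2 : 0 ≤ 1 + t * ps i x := by
    have := neg_abs_le (t * ps i x)
    linarith
  rw [abs_mul, abs_of_nonneg h2, Real.mul_rpow h2 (abs_nonneg _)]
  ring

end WPT_

open WPT_ in
theorem wpt_proof (hBIN : Stmt_BIN) : Stmt_WPT := by
  intro n α q u hn hq hu hr hfin hpos
  obtain ⟨C, hC, hbin⟩ := hBIN.1 q hq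
  have hp : Integrable (pp α q u) := pp_integrable hu hfin
  have hW : 0 < (weightedInt α q u).toReal := ENNReal.toReal_pos hpos.ne' hfin.ne
  have hWe : (weightedInt α q u).toReal = ∫ x, pp α q u x := toReal_eq hu
  set W : ℝ := (weightedInt α q u).toReal with hWdef
  have hsq : ∀ i : Fin n, Integrable (fun x => ps i x ^ 2 * pp α q u x) := by
    intro i
    apply bdd_integrable hp ((ps_measurable i).pow_const 2) (B := 1)
    intro x
    rw [abs_pow]
    exact pow_le_one₀ (abs_nonneg _) (abs_ps_le i x)
  have hlin : ∀ i : Fin n, Integrable (fun x => ps i x * pp α q u x) := fun i =>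
    bdd_integrable hp (ps_measurable i) (abs_ps_le i)
  refine ⟨C, fun i => (∫ x, ps i x ^ 2 * pp α q u x) / W, hC, ?_, ?_⟩
  · rw [← Finset.sum_div, ← integral_finset_sum _ (fun i _ => hsq i)]
    have h1 : ∫ x, ∑ i, ps i x ^ 2 * pp α q u x = ∫ x, pp α q u x := by
      apply integral_congr_ae
      filter_upwards [ae_ne hn 0] with x hx
      rw [← Finset.sum_mul, sum_ps_sq x hx, one_mul]
    rw [h1, ← hWe, div_self hW.ne']
  · intro i t ht
    have hs : ∀ x : E n, |t * ps i x| ≤ 1 / 2 := fun x => (abs_s_le i t x).trans ht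
    have h1s : ∀ x : E n, 0 ≤ 1 + t * ps i x := fun x => by
      have := neg_abs_le (t * ps i x)
      have := hs x
      linarith
    have hcm : Measurable (fun x : E n => (1 + t * ps i x) ^ q) :=
      (((ps_measurable i).const_mul t).const_add 1).pow_const q
    have hcb : ∀ x : E n, |(1 + t * ps i x) ^ q| ≤ (3 / 2 : ℝ) ^ q := by
      intro x
      rw [abs_of_nonneg (Real.rpow_nonneg (h1s x) q)]
      apply Real.rpow_le_rpow (h1s x) _ (by linarith)
      have := le_abs_self (t * ps i x)
      have := hs x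
      linarith
    have hF : Integrable (fun x => (1 + t * ps i x) ^ q * pp α q u x) :=
      bdd_integrable hp hcm hcb
    have hFe : pp α q (fun x => (1 + t * ps i x) * u x) =
        fun x => (1 + t * ps i x) ^ q * pp α q u x := by
      funext x
      exact pert_eq α q u i t ht x
    have hfin' : weightedInt α q (fun x => (1 + t * ps i x) * u x) < ∞ := by
      have h1 : Integrable (pp α q (fun x => (1 + t * ps i x) * u x)) := by rw [hFe]; exact hF
      have h2 := h1.2
      rw [hasFiniteIntegral_iff_ofReal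
        (Eventually.of_forall fun x => pp_nonneg α q (fun x => (1 + t * ps i x) * u x) x)] at h2
      exact h2
    refine ⟨hfin', ?_⟩
    rw [toReal_eq (pert_meas hu i t), hFe]
    have hlow : ∫ x, ((1 - C * |t| ^ 3) * pp α q u x + (q * t) * (ps i x * pp α q u x) +
        (q * (q - 1) / 2 * t ^ 2) * (ps i x ^ 2 * pp α q u x)) ≤
        ∫ x, (1 + t * ps i x) ^ q * pp α q u x := by
      apply integral_mono _ hF
      · intro x
        have h1 := hbin (t * ps i x) (hs x)
        have h2 : |t * ps i x| ^ 3 ≤ |t| ^ 3 := pow_le_pow_left₀ (abs_nonneg _) (abs_s_le i t x) 3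
        have h3 : 1 + q * (t * ps i x) + q * (q - 1) / 2 * (t * ps i x) ^ 2 - C * |t| ^ 3 ≤
            (1 + t * ps i x) ^ q := by
          have := mul_le_mul_of_nonneg_left h2 hC.le
          linarith
        have h4 := mul_le_mul_of_nonneg_right h3 (pp_nonneg α q u x)
        simp only
        refine le_trans (le_of_eq ?_) h4
        ring
      · exact ((hp.const_mul _).add ((hlin i).const_mul _)).add ((hsq i).const_mul _)
    have i1 : Integrable (fun x => (1 - C * |t| ^ 3) * pp α q u x) := hp.const_mul _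
    have i2 : Integrable (fun x => (q * t) * (ps i x * pp α q u x)) := (hlin i).const_mul _
    have i3 : Integrable (fun x => (q * (q - 1) / 2 * t ^ 2) * (ps i x ^ 2 * pp α q u x)) :=
      (hsq i).const_mul _
    have i12 : Integrable (fun x => (1 - C * |t| ^ 3) * pp α q u x +
        (q * t) * (ps i x * pp α q u x)) := i1.add i2
    rw [integral_add i12 i3, integral_add i1 i2, integral_const_mul, integral_const_mul,
      integral_const_mul, odd_zero hr i, ← hWe] at hlow
    refine le_trans (le_of_eq ?_) hlow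
    show W * (1 + q * (q - 1) / 2 * ((∫ x, ps i x ^ 2 * pp α q u x) / W) * t ^ 2 - C * |t| ^ 3) = _
    field_simp
    ring

end NRX
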