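import Pool.Agent.NRX.Stmts

/-!
# Squad NRX, module YNG: Young's inequality for a kernel
-/

set_option autoImplicit false

namespace NRX

open MeasureTheory InnerProductSpace Laplacian Topology ENNReal
open Filter hiding ker
open Pool.Agent.Helper52.CKN

namespace YNG_

/-- the pointwise splitting -/
theorem split {q : ℝ} (hq : 2 ≤ q) (a b : ℝ≥0∞) :
    a * b = (a ^ (2 * q / (q + 2)) * b ^ (2 : ℝ)) ^ (1 / q) * (a ^ (2 * q / (q + 2))) ^ (1 / 2 : ℝ) *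
      (b ^ (2 : ℝ)) ^ (1 / 2 - 1 / q) := by
  have hq0 : 0 < q := by linarith
  have h1 : 0 ≤ 1 / q := by positivity
  have h2 : 0 ≤ 1 / 2 - 1 / q := by
    rw [sub_nonneg, div_le_div_iff₀ hq0 (by norm_num)]
    linarith
  rw [ENNReal.mul_rpow_of_nonneg _ _ h1, ← ENNReal.rpow_mul, ← ENNReal.rpow_mul,
    ← ENNReal.rpow_mul, ← ENNReal.rpow_mul]
  have e1 : a ^ (2 * q / (q + 2) * (1 / q)) * a ^ (2 * q / (q + 2) * (1 / 2)) = a := by
    rw [← ENNReal.rpow_add_of_nonneg _ _ (by positivity) (by positivity)]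
    have : 2 * q / (q + 2) * (1 / q) + 2 * q / (q + 2) * (1 / 2) = 1 := by
      field_simp
      ring
    rw [this, ENNReal.rpow_one]
  have e2 : b ^ ((2 : ℝ) * (1 / q)) * b ^ ((2 : ℝ) * (1 / 2 - 1 / q)) = b := by
    rw [← ENNReal.rpow_add_of_nonneg _ _ (by positivity) (by positivity)]
    have : (2 : ℝ) * (1 / q) + 2 * (1 / 2 - 1 / q) = 1 := by ring
    rw [this, ENNReal.rpow_one]
  calc a * b = (a ^ (2 * q / (q + 2) * (1 / q)) * a ^ (2 * q / (q + 2) * (1 / 2))) *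
        (b ^ ((2 : ℝ) * (1 / q)) * b ^ ((2 : ℝ) * (1 / 2 - 1 / q))) := by rw [e1, e2]
    _ = _ := by ring

/-- Hoelder's inequality with three exponents -/
theorem holder3 {Y : Type} [MeasurableSpace Y] (ν : Measure Y) {q : ℝ} (hq : 2 ≤ q)
    (k Φ : Y → ℝ≥0∞) (hk : Measurable k) (hΦ : Measurable Φ) :
    ∫⁻ y, k y * Φ y ∂ν ≤ (∫⁻ y, k y ^ (2 * q / (q + 2)) * Φ y ^ (2 : ℝ) ∂ν) ^ (1 / q) *
      (∫⁻ y, k y ^ (2 * q / (q + 2)) ∂ν) ^ (1 / 2 : ℝ) *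
      (∫⁻ y, Φ y ^ (2 : ℝ) ∂ν) ^ (1 / 2 - 1 / q) := by
  have hq0 : 0 < q := by linarith
  have h1 : 0 ≤ 1 / q := by positivity
  have h2 : 0 ≤ 1 / 2 - 1 / q := by
    rw [sub_nonneg, div_le_div_iff₀ hq0 (by norm_num)]
    linarith
  let f : Fin 3 → Y → ℝ≥0∞ := ![fun y => k y ^ (2 * q / (q + 2)) * Φ y ^ (2 : ℝ),
    fun y => k y ^ (2 * q / (q + 2)), fun y => Φ y ^ (2 : ℝ)]
  let p : Fin 3 → ℝ := ![1 / q, 1 / 2, 1 / 2 - 1 / q]
  have hf : ∀ i ∈ (Finset.univ : Finset (Fin 3)), AEMeasurable (f i) ν := by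
    intro i _
    fin_cases i
    · exact ((hk.pow_const _).mul (hΦ.pow_const _)).aemeasurable
    · exact (hk.pow_const _).aemeasurable
    · exact (hΦ.pow_const _).aemeasurable
  have hp : ∑ i, p i = 1 := by
    rw [Fin.sum_univ_three]
    change 1 / q + 1 / 2 + (1 / 2 - 1 / q) = 1
    ring
  have h2p : ∀ i ∈ (Finset.univ : Finset (Fin 3)), 0 ≤ p i := by
    intro i _
    fin_cases i
    · exact h1
    · change (0 : ℝ) ≤ 1 / 2; norm_num
    · exact h2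
  have := ENNReal.lintegral_prod_norm_pow_le (μ := ν) Finset.univ hf hp h2p
  simp only [Fin.prod_univ_three] at this
  refine le_trans (le_of_eq ?_) this
  apply lintegral_congr
  intro y
  exact split hq (k y) (Φ y)

end YNG_

open YNG_ in
theorem yng_proof : Stmt_YNG := by
  intro X Y _ _ μ ν _ _ k Φ q A B hk hΦ hq hA hB hP hkA hkB
  have hq0 : 0 < q := by linarith
  have hq1 : 0 ≤ q / 2 - 1 := by linarith
  set r : ℝ := 2 * q / (q + 2) with hr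
  set Φ' := hΦ.mk Φ with hΦ'
  have hm : Measurable Φ' := hΦ.measurable_mk
  have hae : Φ =ᵐ[ν] Φ' := hΦ.ae_eq_mk
  have eP : ∫⁻ y, Φ y ^ (2 : ℝ) ∂ν = ∫⁻ y, Φ' y ^ (2 : ℝ) ∂ν := by
    apply lintegral_congr_ae
    filter_upwards [hae] with y hy
    rw [hy]
  have eK : ∀ x, ∫⁻ y, k x y * Φ y ∂ν = ∫⁻ y, k x y * Φ' y ∂ν := by
    intro x
    apply lintegral_congr_ae
    filter_upwards [hae] with y hy
    rw [hy]
  rw [eP] at hP ⊢
  set P := ∫⁻ y, Φ' y ^ (2 : ℝ) ∂ν with hPd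
  have hkx : ∀ x, Measurable (k x) := fun x => hk.comp measurable_prodMk_left
  -- pointwise bound
  have hb : ∀ᵐ x ∂μ, (∫⁻ y, k x y * Φ y ∂ν) ^ q ≤
      A ^ (q / 2) * P ^ (q / 2 - 1) * ∫⁻ y, k x y ^ r * Φ' y ^ (2 : ℝ) ∂ν := by
    filter_upwards [hkA] with x hx
    rw [eK x]
    have h1 := holder3 ν hq (k x) Φ' (hkx x) hm
    calc (∫⁻ y, k x y * Φ' y ∂ν) ^ q
        ≤ ((∫⁻ y, k x y ^ r * Φ' y ^ (2 : ℝ) ∂ν) ^ (1 / q) *
          (∫⁻ y, k x y ^ r ∂ν) ^ (1 / 2 : ℝ) * P ^ (1 / 2 - 1 / q)) ^ q :=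
          ENNReal.rpow_le_rpow h1 hq0.le
      _ ≤ ((∫⁻ y, k x y ^ r * Φ' y ^ (2 : ℝ) ∂ν) ^ (1 / q) *
          A ^ (1 / 2 : ℝ) * P ^ (1 / 2 - 1 / q)) ^ q := by
          apply ENNReal.rpow_le_rpow _ hq0.le
          exact mul_le_mul' (mul_le_mul' le_rfl (ENNReal.rpow_le_rpow hx (by norm_num))) le_rfl
      _ = A ^ (q / 2) * P ^ (q / 2 - 1) * ∫⁻ y, k x y ^ r * Φ' y ^ (2 : ℝ) ∂ν := by
          rw [ENNReal.mul_rpow_of_nonneg _ _ hq0.le, ENNReal.mul_rpow_of_nonneg _ _ hq0.le,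
            ← ENNReal.rpow_mul, ← ENNReal.rpow_mul, ← ENNReal.rpow_mul]
          have e1 : 1 / q * q = 1 := by field_simp
          have e2 : (1 / 2 : ℝ) * q = q / 2 := by ring
          have e3 : (1 / 2 - 1 / q) * q = q / 2 - 1 := by field_simp
          rw [e1, e2, e3, ENNReal.rpow_one]
          ring
  have hmeas : Measurable (fun p : X × Y => k p.1 p.2 ^ r * Φ' p.2 ^ (2 : ℝ)) :=
    (hk.pow_const _).mul ((hm.comp measurable_snd).pow_const _)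
  calc ∫⁻ x, (∫⁻ y, k x y * Φ y ∂ν) ^ q ∂μ
      ≤ ∫⁻ x, A ^ (q / 2) * P ^ (q / 2 - 1) * ∫⁻ y, k x y ^ r * Φ' y ^ (2 : ℝ) ∂ν ∂μ :=
        lintegral_mono_ae hb
    _ = A ^ (q / 2) * P ^ (q / 2 - 1) * ∫⁻ x, ∫⁻ y, k x y ^ r * Φ' y ^ (2 : ℝ) ∂ν ∂μ := by
        rw [lintegral_const_mul]
        exact hmeas.lintegral_prod_right'
    _ = A ^ (q / 2) * P ^ (q / 2 - 1) * ∫⁻ y, ∫⁻ x, k x y ^ r * Φ' y ^ (2 : ℝ) ∂μ ∂ν := by
        rw [lintegral_lintegral_swap]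
        exact hmeas.aemeasurable
    _ ≤ A ^ (q / 2) * P ^ (q / 2 - 1) * (B * P) := by
        apply mul_le_mul' le_rfl
        have : B * P = ∫⁻ y, B * Φ' y ^ (2 : ℝ) ∂ν := by
          rw [lintegral_const_mul _ (hm.pow_const _)]
        rw [this]
        apply lintegral_mono_ae
        filter_upwards [hkB] with y hy
        have hky : Measurable (fun x => k x y ^ r) :=
          (hk.comp measurable_prodMk_right).pow_const _
        rw [lintegral_mul_const _ hky]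
        exact mul_le_mul' hy le_rfl
    _ = A ^ (q / 2) * B * P ^ (q / 2) := by
        have e : P ^ (q / 2) = P ^ (q / 2 - 1) * P := by
          conv_rhs => rw [← ENNReal.rpow_one P]
          rw [← ENNReal.rpow_mul, one_mul, ← ENNReal.rpow_add_of_nonneg _ _ hq1 (by norm_num)]
          congr 1
          ring
        rw [e]
        ring

end NRX
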