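import Pool.Agent.NRX.Fin
import Pool.Agent.NRX.INA
import Pool.Agent.NRX.INB
import Pool.Agent.NRX.KIN
import Pool.Agent.NRX.YNG
import Pool.Agent.NRX.CNV
import Pool.Agent.NRX.BND
import Pool.Agent.NRX.TAI
import Pool.Agent.NRX.HKL
import Pool.Agent.NRX.CSP
import Pool.Agent.NRX.MNK
import Pool.Agent.NRX.HOM
import Pool.Agent.NRX.NVN
import Pool.Agent.NRX.WCP
import Pool.Agent.NRX.WCN
import Pool.Agent.NRX.LOC
import Pool.Agent.NRX.SPL
import Pool.Agent.NRX.EXM
import Pool.Agent.NRX.PWR
import Pool.Agent.NRX.REL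
import Pool.Agent.NRX.WEK
import Pool.Agent.NRX.ROT
import Pool.Agent.NRX.PRD
import Pool.Agent.NRX.DUA
import Pool.Agent.NRX.ENE
import Pool.Agent.NRX.BIN
import Pool.Agent.NRX.WPT
import Pool.Agent.NRX.VAR

/-!
# Squad NRX (MP_d4321b_an, Q2): assembly
-/

set_option autoImplicit false

namespace NRX

theorem all_hom : Stmt_HOM :=
  hom_proof (bnd_proof (kin_proof ina_proof) yng_proof cnv_proof) mnk_proof

theorem all_tai : Stmt_TAI := tai_proof (kin_proof ina_proof) yng_proof cnv_proof

theorem all_hkl : Stmt_HKL := hkl_proof (kin_proof ina_proof)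

theorem all_loc : Stmt_LOC := loc_proof all_tai all_hkl csp_proof mnk_proof

theorem all_exm : Stmt_EXM :=
  exm_proof ina_proof (inb_proof ina_proof) all_hkl csp_proof all_hom
    (nvn_proof (bnd_proof (kin_proof ina_proof) yng_proof cnv_proof) all_tai mnk_proof) wcp_proof
    (spl_proof all_loc (wcn_proof csp_proof) mnk_proof all_hom)

/-- Extremals exist in the whole subcritical range. -/
theorem main_exists {n : ℕ} {α q : ℝ} (h : Adm n α q) : ∃ u, IsExtremal n α q u :=
  exists_extremal all_exm all_hom mnk_proof h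

theorem all_rel : Stmt_REL := rel_proof pwr_proof yng_proof cnv_proof

/-- The inequality satisfied by a radial extremal. -/
theorem main_radial : Stmt_VAR :=
  var_proof
    (ene_proof all_rel (prd_proof wek_proof rot_proof) (dua_proof all_rel wek_proof csp_proof))
    bin_proof (wpt_proof bin_proof)

end NRX
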