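import Pool.Agent.NRX.Stmts

/-!
# Squad NRX (MP_d4321b_an), module REL: Rellich's inequality
-/

set_option autoImplicit false

namespace NRX

open MeasureTheory InnerProductSpace Laplacian Topology ENNReal
open Filter hiding ker
open Pool.Agent.Helper52.CKN

noncomputable section

namespace REL_

variable {n : ℕ}

theorem kk_nonneg (α : ℝ) (x y : E n) : 0 ≤ kk α x y := by
  unfold kk
  have := ker_nonneg x y
  positivity

theorem kk_meas2 (α : ℝ) : Measurable (fun p : E n × E n => kk α p.1 p.2) := by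
  unfold kk ker
  fun_prop

theorem kk_meas (α : ℝ) (x : E n) : Measurable (fun y : E n => kk α x y) := by
  unfold kk ker
  fun_prop

theorem kk_swap (α : ℝ) (x y : E n) : kk α x y = kk (4 - α) y x := by
  have e1 : ea n (4 - α) = eb n α := by unfold ea eb; ring
  have e2 : eb n (4 - α) = ea n α := by unfold ea eb; ring
  unfold kk
  rw [e1, e2, ker_comm x y]
  ring

/-- the integral of the kernel in the second variable -/
theorem int_kk (hPWR : Stmt_PWR) (hn : 3 ≤ n) {α : ℝ} (h1 : 4 - (n : ℝ) < α) (h2 : α < n)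
    {x : E n} (hx : x ≠ 0) :
    ∫⁻ y, ENNReal.ofReal (kk α x y) ∂(mu n) ≤ ENNReal.ofReal (kap n / gm n α) := by
  have hm : Measurable fun y : E n => ENNReal.ofReal (‖y‖ ^ (-(n : ℝ))) := by fun_prop
  have hk : Measurable fun y : E n => ENNReal.ofReal (kk α x y) := (kk_meas α x).ennreal_ofReal
  unfold mu
  rw [lintegral_withDensity_eq_lintegral_mul _ hm hk]
  have ha := ea_pos h1
  have hb := eb_pos h2
  have hab := ea_add_eb (n := n) α
  have hx0 : 0 < ‖x‖ := norm_pos_iff.mpr hx
  have main := hPWR n (ea n α) x hn ha (by linarith) hx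
  calc ∫⁻ y, ((fun y : E n => ENNReal.ofReal (‖y‖ ^ (-(n : ℝ)))) *
        fun y => ENNReal.ofReal (kk α x y)) y
      = ∫⁻ y, ENNReal.ofReal (‖x‖ ^ ea n α) *
          ENNReal.ofReal (ker x y * ‖y‖ ^ (-(ea n α + 2))) := by
        apply lintegral_congr_ae
        filter_upwards [ae_ne hn 0] with y hy
        have hy0 : 0 < ‖y‖ := norm_pos_iff.mpr hy
        have hk0 := ker_nonneg x y
        rw [Pi.mul_apply, ← ENNReal.ofReal_mul (by positivity), ← ENNReal.ofReal_mul (by positivity)]
        congr 1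
        unfold kk
        have e1 : ‖y‖ ^ (-(ea n α + 2)) = ‖y‖ ^ (-(n : ℝ)) * ‖y‖ ^ eb n α := by
          rw [← Real.rpow_add hy0]
          congr 1
          linarith
        rw [e1]
        ring
    _ = ENNReal.ofReal (‖x‖ ^ ea n α) *
          ∫⁻ y, ENNReal.ofReal (ker x y * ‖y‖ ^ (-(ea n α + 2))) := by
        rw [lintegral_const_mul' _ _ ENNReal.ofReal_ne_top]
    _ ≤ ENNReal.ofReal (‖x‖ ^ ea n α) *
          ENNReal.ofReal (kap n / (ea n α * (n - 2 - ea n α)) * ‖x‖ ^ (-ea n α)) :=
        mul_le_mul' le_rfl main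
    _ = ENNReal.ofReal (kap n / gm n α) := by
        rw [← ENNReal.ofReal_mul (by positivity)]
        congr 1
        have e2 : (n : ℝ) - 2 - ea n α = eb n α := by linarith
        have e3 : ‖x‖ ^ ea n α * ‖x‖ ^ (-ea n α) = 1 := by
          rw [← Real.rpow_add hx0, add_neg_cancel, Real.rpow_zero]
        rw [e2]
        unfold gm
        calc ‖x‖ ^ ea n α * (kap n / (ea n α * eb n α) * ‖x‖ ^ (-ea n α))
            = kap n / (ea n α * eb n α) * (‖x‖ ^ ea n α * ‖x‖ ^ (-ea n α)) := by ring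
          _ = _ := by rw [e3, mul_one]

theorem int_kk' (hPWR : Stmt_PWR) (hn : 3 ≤ n) {α : ℝ} (h1 : 4 - (n : ℝ) < α) (h2 : α < n)
    {y : E n} (hy : y ≠ 0) :
    ∫⁻ x, ENNReal.ofReal (kk α x y) ∂(mu n) ≤ ENNReal.ofReal (kap n / gm n α) := by
  have h := int_kk hPWR hn (α := 4 - α) (by linarith) (by linarith) hy
  have e : gm n (4 - α) = gm n α := by unfold gm ea eb; ring
  rw [e] at h
  refine le_trans (le_of_eq ?_) h
  congr 1
  funext x
  rw [kk_swap]

/-- the potential is bounded by the potential of the absolute value -/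
theorem pot_le (f : E n → ℝ) (x : E n) :
    ENNReal.ofReal |pot f x| ≤ ∫⁻ y, ENNReal.ofReal (ker x y * |f y|) := by
  have h := enorm_integral_le_lintegral_enorm (μ := volume) (fun y : E n => ker x y * f y)
  have e1 : ENNReal.ofReal |pot f x| = ‖∫ y, ker x y * f y‖ₑ := by
    unfold pot
    rw [← Real.enorm_eq_ofReal_abs]
  rw [e1]
  refine le_trans h (le_of_eq ?_)
  congr 1
  funext y
  rw [Real.enorm_eq_ofReal_abs, abs_mul, abs_of_nonneg (ker_nonneg x y)]

end REL_

open REL_ in
theorem rel_proof (hPWR : Stmt_PWR) (hYNG : Stmt_YNG) (hCNV : Stmt_CNV) : Stmt_REL := by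
  intro n α f hn h1 h2 hf hw
  obtain ⟨c1, c2, c3, c4⟩ := hCNV n α hn
  have hkap := kap_pos hn
  have hgm := gm_pos (n := n) h1 h2
  have hwt := c1 f hf
  -- the majorant
  set G : E n → ℝ≥0∞ := fun x => ∫⁻ y, ENNReal.ofReal (ker x y * |f y|) with hG
  have hGm : AEMeasurable G := by
    have hm : AEMeasurable (fun p : E n × E n => ENNReal.ofReal (ker p.1 p.2 * |f p.2|))
        ((volume : Measure (E n)).prod volume) := by
      apply AEMeasurable.ennreal_ofReal
      apply AEMeasurable.mul ker_measurable.aemeasurable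
      have h3 : AEMeasurable (fun p : E n × E n => f p.2) ((volume : Measure (E n)).prod volume) :=
        hf.comp_quasiMeasurePreserving Measure.quasiMeasurePreserving_snd
      exact h3.abs
    exact hm.lintegral_prod_right'
  have : SFinite (mu n) := by
    unfold mu
    infer_instance
  -- Young's inequality
  have hyng := hYNG (E n) (E n) (mu n) (mu n) (fun x y => ENNReal.ofReal (kk α x y))
    (fun y => ENNReal.ofReal (‖y‖ ^ (ea n α + 2) * |f y|)) 2
    (ENNReal.ofReal (kap n / gm n α)) (ENNReal.ofReal (kap n / gm n α))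
    (kk_meas2 α).ennreal_ofReal
    (by
      have hac : mu n ≪ volume := withDensity_absolutelyContinuous _ _
      apply AEMeasurable.ennreal_ofReal
      apply AEMeasurable.mul
      · apply Measurable.aemeasurable
        fun_prop
      · exact (hf.mono_ac hac).abs)
    le_rfl ENNReal.ofReal_lt_top ENNReal.ofReal_lt_top (by rw [← hwt]; exact hw)
    (by
      rw [c4]
      filter_upwards [ae_ne hn 0] with x hx
      have := int_kk hPWR hn h1 h2 hx
      norm_num
      exact this)
    (by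
      rw [c4]
      filter_upwards [ae_ne hn 0] with y hy
      have := int_kk' hPWR hn h1 h2 hy
      norm_num
      exact this)
  have h3 := c3 2 G (by norm_num) hGm
  have e2 : ∀ x : E n, ENNReal.ofReal (‖x‖ ^ ea n α) * G x =
      ∫⁻ y, ENNReal.ofReal (kk α x y) * ENNReal.ofReal (‖y‖ ^ (ea n α + 2) * |f y|) ∂(mu n) := by
    intro x
    have := c2 f (fun _ => 1) x hf measurable_const (fun _ => zero_le_one)
    simpa using this
  have key : ∫⁻ x, ENNReal.ofReal (‖x‖ ^ (-beta n α 2)) * G x ^ (2 : ℝ) ≤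
      ENNReal.ofReal ((kap n / gm n α) ^ 2) * wsq α f := by
    rw [h3]
    calc ∫⁻ x, (ENNReal.ofReal (‖x‖ ^ ea n α) * G x) ^ (2 : ℝ) ∂(mu n)
        = ∫⁻ x, (∫⁻ y, ENNReal.ofReal (kk α x y) *
            ENNReal.ofReal (‖y‖ ^ (ea n α + 2) * |f y|) ∂(mu n)) ^ (2 : ℝ) ∂(mu n) := by
          congr 1
          funext x
          rw [e2]
      _ ≤ _ := hyng
      _ = ENNReal.ofReal ((kap n / gm n α) ^ 2) * wsq α f := by
          rw [← hwt]
          norm_num
          rw [sq, ENNReal.ofReal_mul (by positivity)]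
  have hkm : 0 ≤ kap n / gm n α := by positivity
  calc wsq (α - 4) (fun x => (kap n)⁻¹ * pot f x)
      ≤ ∫⁻ x, ENNReal.ofReal ((kap n)⁻¹ ^ 2) *
          (ENNReal.ofReal (‖x‖ ^ (-beta n α 2)) * G x ^ (2 : ℝ)) := by
        unfold wsq
        apply lintegral_mono
        intro x
        have hb : -beta n α 2 = α - 4 := by rw [beta_eq]; unfold ea; ring
        have e3 : ‖x‖ ^ (α - 4) * ((kap n)⁻¹ * pot f x) ^ 2 =
            (kap n)⁻¹ ^ 2 * (‖x‖ ^ (-beta n α 2) * |pot f x| ^ (2 : ℝ)) := by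
          rw [hb]
          have : |pot f x| ^ (2 : ℝ) = pot f x ^ 2 := by
            rw [Real.rpow_two, sq_abs]
          rw [this]
          ring
        show ENNReal.ofReal (‖x‖ ^ (α - 4) * ((kap n)⁻¹ * pot f x) ^ 2) ≤ _
        rw [e3, ENNReal.ofReal_mul (by positivity), ENNReal.ofReal_mul (by positivity),
          ← ENNReal.ofReal_rpow_of_nonneg (abs_nonneg _) (by norm_num)]
        exact mul_le_mul' le_rfl (mul_le_mul' le_rfl
          (ENNReal.rpow_le_rpow (pot_le f x) (by norm_num)))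
    _ = ENNReal.ofReal ((kap n)⁻¹ ^ 2) *
          ∫⁻ x, ENNReal.ofReal (‖x‖ ^ (-beta n α 2)) * G x ^ (2 : ℝ) := by
        rw [lintegral_const_mul' _ _ ENNReal.ofReal_ne_top]
    _ ≤ ENNReal.ofReal ((kap n)⁻¹ ^ 2) * (ENNReal.ofReal ((kap n / gm n α) ^ 2) * wsq α f) :=
        mul_le_mul' le_rfl key
    _ = ENNReal.ofReal ((gm n α)⁻¹ ^ 2) * wsq α f := by
        rw [← mul_assoc, ← ENNReal.ofReal_mul (by positivity)]
        congr 2
        field_simp

end

end NRX
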