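import Pool.Agent.NRX.Defs

/-!
# Squad NRX (MP_d4321b_an, Q2): statements of the modules.
Recipes: /team-store/MP_d4321b_NRX.md
-/

set_option autoImplicit false

namespace NRX

open MeasureTheory InnerProductSpace Laplacian Topology ENNReal
open Filter hiding ker
open Pool.Agent.Helper52.CKN

/-! ## A. Tools -/

/-- similarities: the measure, the kernel, transitivity -/
def Stmt_INA : Prop :=
  ∀ (n : ℕ) (α l : ℝ) (ρ : E n ≃ₗᵢ[ℝ] E n), 3 ≤ n → 0 < l →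
    MeasurePreserving (fun x : E n => l • ρ x) (mu n) (mu n) ∧
    (∀ x y : E n, kk α (l • ρ x) (l • ρ y) = kk α x y) ∧
    (∀ x e : E n, x ≠ 0 → ‖e‖ = 1 → ∃ (l' : ℝ) (ρ' : E n ≃ₗᵢ[ℝ] E n), 0 < l' ∧ l' • ρ' e = x)

/-- similarities: the action on densities. Uses INA -/
def Stmt_INB : Prop :=
  ∀ (n : ℕ) (α l : ℝ) (ρ : E n ≃ₗᵢ[ℝ] E n) (f : E n → ℝ), 3 ≤ n → 4 - (n : ℝ) < α → α < n →
    0 < l → AEMeasurable f →
    AEMeasurable (act α l ρ f) ∧ wsq α (act α l ρ f) = wsq α f ∧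
    (∀ (m : ℝ) (x : E n), ‖x‖ ^ ea n α * potl α m (act α l ρ f) x =
      ‖l • ρ x‖ ^ ea n α * potl α m f (l • ρ x)) ∧
    ∀ q : ℝ, WS α q Set.univ (pot (act α l ρ f)) = WS α q Set.univ (pot f)

/-- integrals of powers of the kernel. Uses INA -/
def Stmt_KIN : Prop :=
  ∀ (n : ℕ) (α r : ℝ), 3 ≤ n → 4 - (n : ℝ) < α → α < n → 1 ≤ r → r * ((n : ℝ) - 2) < n →
    ∃ C : ℝ≥0∞, C < ∞ ∧
      (∀ x : E n, x ≠ 0 → ∫⁻ y, ENNReal.ofReal (kk α x y) ^ r ∂(mu n) ≤ C) ∧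
      ∀ y : E n, y ≠ 0 → ∫⁻ x, ENNReal.ofReal (kk α x y) ^ r ∂(mu n) ≤ C

/-- Young's inequality for a kernel -/
def Stmt_YNG : Prop :=
  ∀ (X Y : Type) [MeasurableSpace X] [MeasurableSpace Y] (μ : Measure X) (ν : Measure Y)
    [SFinite μ] [SFinite ν] (k : X → Y → ℝ≥0∞) (Φ : Y → ℝ≥0∞) (q : ℝ) (A B : ℝ≥0∞),
    Measurable (fun p : X × Y => k p.1 p.2) → AEMeasurable Φ ν → 2 ≤ q → A < ∞ → B < ∞ →
    ∫⁻ y, Φ y ^ (2 : ℝ) ∂ν < ∞ →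
    (∀ᵐ x ∂μ, ∫⁻ y, k x y ^ (2 * q / (q + 2)) ∂ν ≤ A) →
    (∀ᵐ y ∂ν, ∫⁻ x, k x y ^ (2 * q / (q + 2)) ∂μ ≤ B) →
    ∫⁻ x, (∫⁻ y, k x y * Φ y ∂ν) ^ q ∂μ ≤
      A ^ (q / 2) * B * (∫⁻ y, Φ y ^ (2 : ℝ) ∂ν) ^ (q / 2)

/-- conversions to the measure `mu` -/
def Stmt_CNV : Prop :=
  ∀ (n : ℕ) (α : ℝ), 3 ≤ n →
    (∀ f : E n → ℝ, AEMeasurable f → wsq α f =
      ∫⁻ y, ENNReal.ofReal (‖y‖ ^ (ea n α + 2) * |f y|) ^ (2 : ℝ) ∂(mu n)) ∧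
    (∀ (f χ : E n → ℝ) (x : E n), AEMeasurable f → Measurable χ → (∀ y, 0 ≤ χ y) →
      ENNReal.ofReal (‖x‖ ^ ea n α) * ∫⁻ y, ENNReal.ofReal (ker x y * χ y * |f y|) =
      ∫⁻ y, ENNReal.ofReal (kk α x y * χ y) *
        ENNReal.ofReal (‖y‖ ^ (ea n α + 2) * |f y|) ∂(mu n)) ∧
    (∀ (q : ℝ) (G : E n → ℝ≥0∞), 0 ≤ q → AEMeasurable G →
      ∫⁻ x, ENNReal.ofReal (‖x‖ ^ (-beta n α q)) * G x ^ q =
      ∫⁻ x, (ENNReal.ofReal (‖x‖ ^ ea n α) * G x) ^ q ∂(mu n)) ∧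
    ∀ P : E n → Prop, (∀ᵐ x ∂(mu n), P x) ↔ ∀ᵐ x : E n, P x

/-- bounds for potentials. Uses KIN, YNG, CNV -/
def Stmt_BND : Prop :=
  ∀ (n : ℕ) (α q : ℝ), Adm n α q → ∃ C : ℝ≥0∞, C < ∞ ∧
    ∀ f : E n → ℝ, AEMeasurable f → wsq α f < ∞ →
      ∫⁻ x, ENNReal.ofReal (‖x‖ ^ (-beta n α q)) * (∫⁻ y, ENNReal.ofReal (ker x y * |f y|)) ^ q ≤
        C * wsq α f ^ (q / 2) ∧
      ∫⁻ x, ENNReal.ofReal (‖x‖ ^ (-beta n α 2)) *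
        (∫⁻ y, ENNReal.ofReal (ker x y * |f y|)) ^ (2 : ℝ) ≤ C * wsq α f

/-- the singular part of the kernel is small. Uses KIN, YNG, CNV -/
def Stmt_TAI : Prop :=
  ∀ (n : ℕ) (α q : ℝ) (δ : ℝ), Adm n α q → 0 < δ → ∃ m : ℝ, 1 ≤ m ∧
    ∀ f : E n → ℝ, AEMeasurable f → wsq α f < ∞ →
      ∫⁻ x, ENNReal.ofReal (‖x‖ ^ (-beta n α q)) *
        (∫⁻ y, ENNReal.ofReal (keg α m x y * |f y|)) ^ q ≤
        ENNReal.ofReal δ * wsq α f ^ (q / 2)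

/-- the bounded part of the kernel is square integrable. Uses KIN -/
def Stmt_HKL : Prop :=
  ∀ (n : ℕ) (α m : ℝ), 3 ≤ n → 4 - (n : ℝ) < α → α < n → 0 < m → ∃ C : ℝ, 0 ≤ C ∧
    ∀ x : E n, x ≠ 0 → Measurable (kel α m x) ∧
      wsq (-α) (kel α m x) ≤ ENNReal.ofReal (C * ‖x‖ ^ (-(2 * ea n α)))

/-- the Cauchy-Schwarz inequality -/
def Stmt_CSP : Prop :=
  ∀ (n : ℕ) (α : ℝ) (f h : E n → ℝ), 3 ≤ n → AEMeasurable f → AEMeasurable h →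
    wsq α f < ∞ → wsq (-α) h < ∞ → Integrable (fun x => f x * h x) ∧
      |∫ x, f x * h x| ≤ √(wsq α f).toReal * √(wsq (-α) h).toReal ∧
      ∫⁻ x, ENNReal.ofReal |f x * h x| ≤ (wsq α f * wsq (-α) h) ^ (1 / 2 : ℝ)

/-- Minkowski's inequality -/
def Stmt_MNK : Prop :=
  ∀ (n : ℕ) (α q : ℝ) (S : Set (E n)), 1 ≤ q → MeasurableSet S →
    (∀ u v : E n → ℝ, AEStronglyMeasurable u volume → AEStronglyMeasurable v volume →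
      WS α q S (fun x => u x + v x) ^ (1 / q) ≤ WS α q S u ^ (1 / q) + WS α q S v ^ (1 / q)) ∧
    (∀ (c : ℝ) (u : E n → ℝ), WS α q S (fun x => c * u x) = ENNReal.ofReal (|c| ^ q) * WS α q S u) ∧
    (∀ u v : E n → ℝ, (∀ᵐ x : E n, |u x| ≤ |v x|) → WS α q S u ≤ WS α q S v) ∧
    ∀ u : E n → ℝ, AEStronglyMeasurable u volume →
      WS α q Set.univ u = WS α q S u + WS α q Sᶜ u

/-- homogeneity and the supremum. Uses BND, MNK -/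
def Stmt_HOM : Prop :=
  ∀ (n : ℕ) (α q : ℝ), Adm n α q → 0 < MM n α q ∧ MM n α q < ∞ ∧
    ∀ f : E n → ℝ, AEMeasurable f → wsq α f < ∞ →
      WS α q Set.univ (pot f) ≤ MM n α q * wsq α f ^ (q / 2)

/-! ## B. Compactness -/

/-- a point where the bounded part of the potential is large. Uses BND, TAI, MNK -/
def Stmt_NVN : Prop :=
  ∀ (n : ℕ) (α q M0 : ℝ), Adm n α q → 0 < M0 → ∃ m c : ℝ, 1 ≤ m ∧ 0 < c ∧
    ∀ f : E n → ℝ, AEMeasurable f → wsq α f ≤ 1 →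
      ENNReal.ofReal M0 ≤ WS α q Set.univ (pot f) →
      ∃ x : E n, x ≠ 0 ∧ c ≤ ‖x‖ ^ ea n α * |potl α m f x|

/-- weak compactness -/
def Stmt_WCP : Prop :=
  ∀ (n : ℕ) (α : ℝ) (f : ℕ → E n → ℝ), 3 ≤ n → (∀ k, AEMeasurable (f k)) →
    (∀ k, wsq α (f k) ≤ 1) → ∃ (σ : ℕ → ℕ) (g : E n → ℝ), StrictMono σ ∧ AEMeasurable g ∧
      wsq α g ≤ 1 ∧ WC α (fun k => f (σ k)) g

/-- weak convergence and norms. Uses CSP -/
def Stmt_WCN : Prop :=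
  ∀ (n : ℕ) (α : ℝ) (f : ℕ → E n → ℝ) (g : E n → ℝ), 3 ≤ n → (∀ k, AEMeasurable (f k)) →
    (∀ k, wsq α (f k) ≤ 1) → AEMeasurable g → wsq α g ≤ 1 → WC α f g → ∀ ε : ℝ, 0 < ε →
    ∀ᶠ k in atTop, wsq α (fun x => f k x - g x) ≤ ENNReal.ofReal (1 - (wsq α g).toReal + ε)

/-- local strong convergence. Uses TAI, HKL, CSP, MNK -/
def Stmt_LOC : Prop :=
  ∀ (n : ℕ) (α q : ℝ) (f : ℕ → E n → ℝ) (g : E n → ℝ), Adm n α q → (∀ k, AEMeasurable (f k)) →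
    (∀ k, wsq α (f k) ≤ 1) → AEMeasurable g → wsq α g ≤ 1 → WC α f g → ∀ R : ℝ, 1 ≤ R →
    Tendsto (fun k => WS α q (ann n R) (fun x => pot (f k) x - pot g x)) atTop (𝓝 0)

/-- splitting. Uses LOC, WCN, MNK, HOM -/
def Stmt_SPL : Prop :=
  ∀ (n : ℕ) (α q : ℝ) (f : ℕ → E n → ℝ) (g : E n → ℝ), Adm n α q → (∀ k, AEMeasurable (f k)) →
    (∀ k, wsq α (f k) ≤ 1) → AEMeasurable g → wsq α g ≤ 1 → WC α f g →
    Tendsto (fun k => WS α q Set.univ (pot (f k))) atTop (𝓝 (MM n α q)) →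
    MM n α q ≤ WS α q Set.univ (pot g) +
      MM n α q * ENNReal.ofReal ((1 - (wsq α g).toReal) ^ (q / 2))

/-- existence of a maximiser. Uses INA, INB, HKL, CSP, HOM, NVN, WCP, SPL -/
def Stmt_EXM : Prop :=
  ∀ (n : ℕ) (α q : ℝ), Adm n α q → ∃ f : E n → ℝ, AEMeasurable f ∧ wsq α f = 1 ∧
    WS α q Set.univ (pot f) = MM n α q

/-! ## C. Radial functions are not extremal -/

/-- the potential of a power -/
def Stmt_PWR : Prop :=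
  ∀ (n : ℕ) (a : ℝ) (x : E n), 3 ≤ n → 0 < a → a < n - 2 → x ≠ 0 →
    ∫⁻ y, ENNReal.ofReal (ker x y * ‖y‖ ^ (-(a + 2))) ≤
      ENNReal.ofReal (kap n / (a * (n - 2 - a)) * ‖x‖ ^ (-a))

/-- Rellich's inequality. Uses PWR, YNG, CNV -/
def Stmt_REL : Prop :=
  ∀ (n : ℕ) (α : ℝ) (f : E n → ℝ), 3 ≤ n → 4 - (n : ℝ) < α → α < n → AEMeasurable f →
    wsq α f < ∞ →
    wsq (α - 4) (fun x => (kap n)⁻¹ * pot f x) ≤ ENNReal.ofReal ((gm n α)⁻¹ ^ 2) * wsq α f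

/-- the equation `-Δ pot f = κ f` in the weak sense -/
def Stmt_WEK : Prop :=
  ∀ (n : ℕ) (α : ℝ) (f η : E n → ℝ), 3 ≤ n → 4 - (n : ℝ) < α → α < n → AEMeasurable f →
    wsq α f < ∞ → TestFn η → Integrable (fun x => pot f x * Δ η x) ∧
      Integrable (fun x => f x * η x) ∧ (∀ r : ℝ, IntegrableOn (pot f) (Metric.ball 0 r)) ∧
      ∫ x, pot f x * Δ η x = -(kap n * ∫ x, f x * η x)

/-- radial functions are annihilated by infinitesimal rotations -/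
def Stmt_ROT : Prop :=
  ∀ (n : ℕ) (u ζ : E n → ℝ) (i j : Fin n), 3 ≤ n → AEStronglyMeasurable u volume → IsRadial u →
    (∀ r : ℝ, IntegrableOn u (Metric.ball 0 r)) → ContDiff ℝ 1 ζ → HasCompactSupport ζ →
    (0 : E n) ∉ tsupport ζ →
    Integrable (fun x => u x * (x j * pd i ζ x - x i * pd j ζ x)) ∧
      ∫ x, u x * (x j * pd i ζ x - x i * pd j ζ x) = 0

/-- the equation for `(x_i/|x|) u`. Uses WEK, ROT -/
def Stmt_PRD : Prop :=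
  ∀ (n : ℕ) (α : ℝ) (f u η : E n → ℝ) (i : Fin n), 3 ≤ n → 4 - (n : ℝ) < α → α < n →
    AEMeasurable f → wsq α f < ∞ → u = (fun x => -(kap n)⁻¹ * pot f x) → IsRadial u →
    TestFn η →
    ∫ x, ps i x * u x * Δ η x = ∫ x, ps i x * (f x - ((n : ℝ) - 1) * ‖x‖ ^ (-2 : ℝ) * u x) * η x

/-- a weak solution is the potential. Uses REL, WEK, CSP -/
def Stmt_DUA : Prop :=
  ∀ (n : ℕ) (α : ℝ) (v g : E n → ℝ), 3 ≤ n → 4 - (n : ℝ) < α → α < n → AEMeasurable v →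
    AEMeasurable g → wsq (α - 4) v < ∞ → wsq α g < ∞ →
    (∀ η : E n → ℝ, TestFn η → ∫ x, v x * Δ η x = ∫ x, g x * η x) →
    v =ᵐ[volume] fun x => -(kap n)⁻¹ * pot g x

/-- the energies of `(x_i/|x|) u`. Uses REL, PRD, DUA -/
def Stmt_ENE : Prop :=
  ∀ (n : ℕ) (α : ℝ) (f u : E n → ℝ), 3 ≤ n → 4 - (n : ℝ) < α → α < n → AEMeasurable f →
    wsq α f < ∞ → u = (fun x => -(kap n)⁻¹ * pot f x) → IsRadial u →
    ∃ g : Fin n → E n → ℝ, (∀ i, AEMeasurable (g i)) ∧ (∀ i, wsq α (g i) < ∞) ∧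
      (∀ i, (fun x => ps i x * u x) =ᵐ[volume] fun x => -(kap n)⁻¹ * pot (g i) x) ∧
      ∑ i, wsq α (g i) ≤ ENNReal.ofReal ((1 + ((n : ℝ) - 1) / gm n α) ^ 2) * wsq α f

/-- elementary inequalities -/
def Stmt_BIN : Prop :=
  (∀ q : ℝ, 2 < q → ∃ C : ℝ, 0 < C ∧ ∀ s : ℝ, |s| ≤ 1 / 2 →
    1 + q * s + q * (q - 1) / 2 * s ^ 2 - C * |s| ^ 3 ≤ (1 + s) ^ q) ∧
  ∀ p : ℝ, 0 < p → p < 1 → ∃ C : ℝ, 0 < C ∧ ∀ s : ℝ, |s| ≤ 1 / 2 →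
    1 + p * s - C * s ^ 2 ≤ (1 + s) ^ p

/-- the integrals of the perturbed functions. Uses BIN -/
def Stmt_WPT : Prop :=
  ∀ (n : ℕ) (α q : ℝ) (u : E n → ℝ), 3 ≤ n → 2 < q → AEStronglyMeasurable u volume →
    IsRadial u → weightedInt α q u < ∞ → 0 < weightedInt α q u → ∃ (C : ℝ) (w : Fin n → ℝ),
      0 < C ∧ ∑ i, w i = 1 ∧ ∀ (i : Fin n) (t : ℝ), |t| ≤ 1 / 2 →
        weightedInt α q (fun x => (1 + t * ps i x) * u x) < ∞ ∧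
        (weightedInt α q u).toReal * (1 + q * (q - 1) / 2 * w i * t ^ 2 - C * |t| ^ 3) ≤
          (weightedInt α q (fun x => (1 + t * ps i x) * u x)).toReal

/-- radial extremals exist only for small `q`. Uses ENE, BIN, WPT -/
def Stmt_VAR : Prop :=
  ∀ (n : ℕ) (α q : ℝ) (u : E n → ℝ), 3 ≤ n → 4 - (n : ℝ) < α → α < n → 2 < q →
    IsExtremal n α q u → IsRadial u → q - 1 ≤ (1 + ((n : ℝ) - 1) / gm n α) ^ 2

end NRX
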